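import Pool.Agent.MP_560646_mp.One.Sc

set_option autoImplicit false

namespace Pool.Agent.MP_560646_mp.One

open Real Set MeasureTheory

theorem a1_pos {f f' : ℝ → ℝ} {z : ℝ} (hd : ∀ t, 0 ≤ t → HasDerivAt f (f' t) t) (h0 : f 0 = 0)
    (hp : ∀ t, 0 < t → 0 < f' t) (hz : 0 < z) : 0 < f z := by
  have := strictMonoOn_of_deriv_pos (convex_Ici 0) (f := f)
    (fun x hx => (hd x hx).continuousAt.continuousWithinAt) (fun x hx => by
      rw [interior_Ici] at hx
      rw [(hd x (le_of_lt hx)).deriv]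
      exact hp x hx) self_mem_Ici (le_of_lt hz) hz
  rwa [h0] at this

theorem a1_der {t : ℝ} (ht : 0 ≤ t) :
    HasDerivAt (fun z => log (1 + z) - z + z ^ 2 / 2) (t ^ 2 / (1 + t)) t := by
  have h : 1 + t ≠ 0 := by positivity
  refine (((((hasDerivAt_id' t).const_add 1).log h).fun_sub (hasDerivAt_id' t)).fun_add
    ((hasDerivAt_pow 2 t).div_const 2)).congr_deriv ?_
  push_cast
  field_simp
  ring

theorem a1_tay {z : ℝ} (hz : 0 < z) : 0 < log (1 + z) - z + z ^ 2 / 2 ∧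
    0 < z ^ 3 / 3 - (log (1 + z) - z + z ^ 2 / 2) ∧
    0 < z ^ 4 / 4 - (z ^ 3 / 3 - (log (1 + z) - z + z ^ 2 / 2)) := by
  have d3 : ∀ t : ℝ, 0 ≤ t → HasDerivAt (fun z => z ^ 3 / 3 - (log (1 + z) - z + z ^ 2 / 2))
      (t ^ 3 / (1 + t)) t := fun t ht => by
    refine (((hasDerivAt_pow 3 t).div_const 3).fun_sub (a1_der ht)).congr_deriv ?_
    push_cast
    field_simp
    ring
  have d4 : ∀ t : ℝ, 0 ≤ t → HasDerivAt
      (fun z => z ^ 4 / 4 - (z ^ 3 / 3 - (log (1 + z) - z + z ^ 2 / 2)))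
      (t ^ 4 / (1 + t)) t := fun t ht => by
    refine (((hasDerivAt_pow 4 t).div_const 4).fun_sub (d3 t ht)).congr_deriv ?_
    push_cast
    field_simp
    ring
  have p2 := a1_pos (fun t => a1_der (t := t)) (by simp) (fun t ht => by positivity) hz
  have p3 := a1_pos d3 (by simp) (fun t ht => by positivity) hz
  have p4 := a1_pos d4 (by simp) (fun t ht => by positivity) hz
  exact ⟨p2, p3, p4⟩

theorem a1_eq (c : ℝ) {x t : ℝ} (hx : 0 < x) (ht : 0 < t) :
    lgk c x (x * t) = log (1 + t⁻¹) - t⁻¹ + t⁻¹ ^ 2 / 2 - c * t⁻¹ ^ 3 / 3 := by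
  have e : log (x + x * t) - log (x * t) = log (1 + t⁻¹) := by
    rw [← log_div (by positivity) (by positivity)]
    congr 1
    field_simp
    ring
  rw [lgk, e]
  field_simp

theorem a1_one (c : ℝ) {t : ℝ} (ht : 0 < t) :
    lgk c 1 t = log (1 + t⁻¹) - t⁻¹ + t⁻¹ ^ 2 / 2 - c * t⁻¹ ^ 3 / 3 := by
  rw [← a1_eq c one_pos ht, one_mul]

theorem a1_int {α c : ℝ} (k : ℕ) (h1 : k < α) (h2 : α < k + 1)
    (hb : ∀ t, 0 < t → |lgk c 1 t| ≤ t⁻¹ ^ k ∧ |lgk c 1 t| ≤ t⁻¹ ^ (k + 1)) :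
    IntegrableOn (fun t => t ^ (α - 1) * lgk c 1 t) (Ioi 0) := by
  have key : ∀ (j : ℕ) (t : ℝ), 0 < t → |lgk c 1 t| ≤ t⁻¹ ^ j →
      |t ^ (α - 1) * lgk c 1 t| ≤ 1 * t ^ (α - 1 - j) := fun j t ht h => by
    rw [abs_mul, abs_of_pos (rpow_pos_of_pos ht _), one_mul, rpow_sub ht _ j, rpow_natCast,
      div_eq_mul_inv, ← inv_pow]
    exact mul_le_mul_of_nonneg_left h (rpow_pos_of_pos ht _).le
  refine integ_of_bound (C := 1) (p := α - 1 - k) (q := α - 1 - (k + 1 : ℕ)) (fun t ht => ?_)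
    (by linarith) (by push_cast; linarith) (fun t ht _ => key k t ht (hb t ht).1)
    fun t ht => key (k + 1) t (by linarith) (hb t (by linarith)).2
  have ht' : 0 < t := ht
  refine ContinuousAt.continuousWithinAt ((continuousAt_rpow_const _ _ (Or.inl ht'.ne')).mul ?_)
  unfold lgk
  fun_prop (disch := positivity)

theorem a1S : A1S := by
  intro α c h
  have main : IntegrableOn (fun t => t ^ (α - 1) * lgk c 1 t) (Ioi 0) ∧
      ∀ t, 0 < t → 0 < (1 - 2 * c) * lgk c 1 t := by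
    rcases h with ⟨rfl, h1, h2⟩ | ⟨rfl, h1, h2⟩
    · refine ⟨a1_int 2 (by exact_mod_cast h1) (by push_cast; linarith) fun t ht => ?_,
        fun t ht => ?_⟩
      · have hz := inv_pos.2 ht
        obtain ⟨p1, p2, -⟩ := a1_tay hz
        have p3 := log_le_sub_one_of_pos (x := 1 + t⁻¹) (by positivity)
        have p4 := pow_pos hz 2
        have p5 := pow_pos hz 3
        rw [a1_one 0 ht, abs_of_pos (by linarith)]
        constructor <;> linarith
      · rw [a1_one 0 ht]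
        linarith [(a1_tay (inv_pos.2 ht)).1]
    · refine ⟨a1_int 3 (by exact_mod_cast h1) (by push_cast; linarith) fun t ht => ?_,
        fun t ht => ?_⟩
      · have hz := inv_pos.2 ht
        obtain ⟨p1, p2, p3⟩ := a1_tay hz
        have p4 := pow_pos hz 3
        have p5 := pow_pos hz 4
        rw [a1_one 1 ht, abs_of_neg (by linarith)]
        constructor <;> linarith
      · rw [a1_one 1 ht]
        linarith [(a1_tay (inv_pos.2 ht)).2.1]
  have hα : 0 < α := by rcases h with ⟨-, h1, -⟩ | ⟨-, h1, -⟩ <;> linarith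
  refine ⟨?_, fun x hx => ?_⟩
  · rw [I1, ← integral_const_mul]
    refine integ_pos (main.1.const_mul _) fun t ht => ?_
    rw [mul_left_comm]
    exact mul_pos (rpow_pos_of_pos ht _) (main.2 t ht)
  rcases hx.eq_or_lt with rfl | hx
  · simp [lgk, zero_rpow hα.ne']
  · obtain ⟨i1, i2⟩ := integ_scale (f := fun t => t ^ (α - 1) * lgk c x t) (k := x ^ (α - 1)) hx
      main.1 fun t ht => by
        rw [a1_eq c hx ht, ← a1_one c ht, mul_rpow hx.le ht.le, mul_assoc]
    refine ⟨i1, i2.trans ?_⟩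
    rw [rpow_sub_one hx.ne', mul_div_cancel₀ _ hx.ne', I1]

end Pool.Agent.MP_560646_mp.One
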