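import Pool.Agent.MP_560646_mp.One.Sc

set_option autoImplicit false

namespace Pool.Agent.MP_560646_mp.One

open Real Set MeasureTheory Filter Topology

lemma a2_cont (p : ℝ) : ContinuousOn (fun t : ℝ => t ^ p) (Ioi 0) :=
  continuousOn_id.rpow_const fun _ ht => Or.inl (ne_of_gt ht)

lemma a2_F1 {p : ℝ} (h1 : -1 < p) (h0 : p < 0) :
    IntegrableOn (fun t : ℝ => t ^ p / (1 + t)) (Ioi 0) := by
  refine integ_of_bound (C := 1) (p := p) (q := p - 1) ((a2_cont p).div (by fun_prop)
    fun t ht => by have : 0 < t := ht; positivity) h1 (by linarith) (fun t ht _ => ?_)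
    fun t ht => ?_
  · rw [abs_of_nonneg (by positivity), one_mul]
    exact div_le_self (by positivity) (by linarith)
  · have : 0 < t := by linarith
    rw [abs_of_nonneg (by positivity), one_mul, rpow_sub_one this.ne']
    exact div_le_div_of_nonneg_left (by positivity) this (by linarith)

lemma a2_G1 {p : ℝ} (h1 : -1 < p) (h0 : p < 0) :
    IntegrableOn (fun t : ℝ => t ^ p * t / (1 + t) ^ 2) (Ioi 0) ∧
      ∫ t in Ioi (0 : ℝ), t ^ p * t / (1 + t) ^ 2
        = (p + 1) * ∫ t in Ioi (0 : ℝ), t ^ p / (1 + t) := by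
  have iF := a2_F1 h1 h0
  have iG : IntegrableOn (fun t : ℝ => t ^ p * t / (1 + t) ^ 2) (Ioi 0) := by
    refine iF.mono' ((((a2_cont p).mul continuousOn_id).div (by fun_prop)
      fun t ht => by have : 0 < t := ht; positivity).aestronglyMeasurable measurableSet_Ioi)
      ((ae_restrict_mem measurableSet_Ioi).mono fun t ht => ?_)
    have : 0 < t := ht
    have h2 := rpow_pos_of_pos this p
    rw [norm_of_nonneg (by positivity), div_le_div_iff₀ (by positivity) (by positivity)]
    nlinarith [mul_pos h2 this]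
  refine ⟨iG, ?_⟩
  have iD : IntegrableOn
      (fun t : ℝ => (p + 1) * (t ^ p / (1 + t)) - t ^ p * t / (1 + t) ^ 2) (Ioi 0) :=
    Integrable.sub (iF.const_mul (p + 1)) iG
  have key := integral_Ioi_of_hasDerivAt_of_tendsto (a := 0) (m := 0)
    (f := fun t : ℝ => t ^ (p + 1) / (1 + t))
    (((continuousAt_rpow_const 0 (p + 1) (Or.inr (by linarith))).div (by fun_prop)
      (by norm_num)).continuousWithinAt) (fun t ht => ?_) iD ?_
  · rw [integral_sub (iF.const_mul _) iG, integral_const_mul, zero_rpow (by linarith)] at key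
    simp only [zero_div, sub_zero] at key
    linarith
  · have h2 : 0 < t := ht
    refine ((hasDerivAt_rpow_const (p := p + 1) (Or.inl h2.ne')).div
      ((hasDerivAt_id t).const_add 1) (by positivity)).congr_deriv ?_
    rw [add_sub_cancel_right, rpow_add_one h2.ne']
    simp only [id]
    field_simp
  · have h3 := tendsto_rpow_neg_atTop (neg_pos.2 h0)
    rw [neg_neg] at h3
    refine squeeze_zero' ?_ ?_ h3
    · filter_upwards [eventually_gt_atTop 0] with t ht
      positivity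
    · filter_upwards [eventually_gt_atTop 0] with t ht
      have h2 := rpow_pos_of_pos ht p
      rw [rpow_add_one ht.ne', div_le_iff₀ (by positivity)]
      nlinarith

lemma a2_F {p x : ℝ} (h1 : -1 < p) (h0 : p < 0) (hx : 0 < x) :
    IntegrableOn (fun t : ℝ => t ^ p / (x + t)) (Ioi 0) ∧
      ∫ t in Ioi (0 : ℝ), t ^ p / (x + t) = x ^ p * ∫ t in Ioi (0 : ℝ), t ^ p / (1 + t) := by
  have := integ_scale (f := fun t : ℝ => t ^ p / (x + t)) (k := x ^ p / x) hx (a2_F1 h1 h0)
    fun t ht => by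
      rw [mul_rpow hx.le ht.le]
      field_simp
  rwa [mul_div_cancel₀ _ hx.ne'] at this

lemma a2_G {p x : ℝ} (h1 : -1 < p) (h0 : p < 0) (hx : 0 < x) :
    IntegrableOn (fun t : ℝ => t ^ p * t / (x + t) ^ 2) (Ioi 0) ∧
      ∫ t in Ioi (0 : ℝ), t ^ p * t / (x + t) ^ 2
        = x ^ p * ((p + 1) * ∫ t in Ioi (0 : ℝ), t ^ p / (1 + t)) := by
  have := integ_scale (f := fun t : ℝ => t ^ p * t / (x + t) ^ 2) (k := x ^ p / x) hx
    (a2_G1 h1 h0).1 fun t ht => by
      rw [mul_rpow hx.le ht.le]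
      field_simp
  rwa [mul_div_cancel₀ _ hx.ne', (a2_G1 h1 h0).2] at this

lemma a2_comb {f g k : ℝ → ℝ} {a b u v : ℝ}
    (hf : IntegrableOn f (Ioi 0) ∧ ∫ t in Ioi (0 : ℝ), f t = u)
    (hg : IntegrableOn g (Ioi 0) ∧ ∫ t in Ioi (0 : ℝ), g t = v)
    (h : ∀ t, 0 < t → k t = a * f t + b * g t) :
    IntegrableOn k (Ioi 0) ∧ ∫ t in Ioi (0 : ℝ), k t = a * u + b * v := by
  have e : EqOn (fun t => a * f t + b * g t) k (Ioi 0) := fun t ht => (h t ht).symm
  have i : IntegrableOn (fun t => a * f t + b * g t) (Ioi 0) :=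
    (hf.1.const_mul a).add (hg.1.const_mul b)
  refine ⟨i.congr_fun e measurableSet_Ioi, ?_⟩
  rw [← setIntegral_congr_fun measurableSet_Ioi e, integral_add (hf.1.const_mul a)
    (hg.1.const_mul b), integral_const_mul, integral_const_mul, hf.2, hg.2]

lemma a2_pow {x : ℝ} (hx : 0 < x) (p : ℝ) (n : ℕ) : x ^ (p + n) = x ^ p * x ^ n := by
  rw [rpow_add hx, rpow_natCast]

lemma a2_main {α c : ℝ} (h : Rg α c) {s s' : ℝ} (hs : 0 < s) (hs' : 0 < s') :
    IntegrableOn (fun t => t ^ (α - 1) * rk c s s' t) (Ioi 0) ∧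
      ∫ t in Ioi (0 : ℝ), t ^ (α - 1) * rk c s s' t =
        (2 * c - 1) * (α - 1) * (∫ t in Ioi (0 : ℝ), t ^ (α - 3 - c) / (1 + t)) * dd α s s' := by
  have h1 : -1 < α - 3 - c := by rcases h with ⟨rfl, _, _⟩ | ⟨rfl, _, _⟩ <;> linarith
  have h0 : α - 3 - c < 0 := by rcases h with ⟨rfl, _, _⟩ | ⟨rfl, _, _⟩ <;> linarith
  have ha : α - 1 ≠ 0 := by rcases h with ⟨rfl, _, _⟩ | ⟨rfl, _, _⟩ <;> linarith
  obtain ⟨p, hp⟩ : ∃ p, p = α - 3 - c := ⟨_, rfl⟩
  rw [← hp] at h1 h0 ⊢
  unfold dd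
  rcases h with ⟨rfl, _, _⟩ | ⟨rfl, _, _⟩
  · have e1 : α - 1 = p + (2 : ℕ) := by rw [hp]; push_cast; ring
    have e2 : α - 2 = p + (1 : ℕ) := by rw [hp]; push_cast; ring
    split_ifs with e
    · subst e
      have := a2_comb (k := fun t => t ^ (α - 1) * rk 0 s s t) (a := -s) (b := -s)
        (a2_F h1 h0 hs) (a2_G h1 h0 hs) fun t ht => by
          rw [e1, a2_pow ht, rk]
          field_simp
          ring
      refine ⟨this.1, this.2.trans ?_⟩
      rw [e2, a2_pow hs, e1]
      push_cast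
      ring
    · have hd := sub_ne_zero.2 e
      have := a2_comb (k := fun t => t ^ (α - 1) * rk 0 s s' t) (a := -s ^ 2 / (s - s'))
        (b := s' ^ 2 / (s - s')) (a2_F h1 h0 hs) (a2_F h1 h0 hs') fun t ht => by
          rw [e1, a2_pow ht, rk]
          field_simp
          ring
      refine ⟨this.1, this.2.trans ?_⟩
      rw [show s ^ (α - 1) = s ^ p * s ^ 2 by rw [e1, a2_pow hs],
        show s' ^ (α - 1) = s' ^ p * s' ^ 2 by rw [e1, a2_pow hs']]
      field_simp
      ring
  · have e1 : α - 1 = p + (3 : ℕ) := by rw [hp]; push_cast; ring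
    have e2 : α - 2 = p + (2 : ℕ) := by rw [hp]; push_cast; ring
    split_ifs with e
    · subst e
      have := a2_comb (k := fun t => t ^ (α - 1) * rk 1 s s t) (a := 2 * s ^ 2) (b := s ^ 2)
        (a2_F h1 h0 hs) (a2_G h1 h0 hs) fun t ht => by
          rw [e1, a2_pow ht, rk]
          field_simp
          ring
      refine ⟨this.1, this.2.trans ?_⟩
      rw [e2, a2_pow hs, e1]
      push_cast
      ring
    · have hd := sub_ne_zero.2 e
      have := a2_comb (k := fun t => t ^ (α - 1) * rk 1 s s' t) (a := s ^ 3 / (s - s'))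
        (b := -s' ^ 3 / (s - s')) (a2_F h1 h0 hs) (a2_F h1 h0 hs') fun t ht => by
          rw [e1, a2_pow ht, rk]
          field_simp
          ring
      refine ⟨this.1, this.2.trans ?_⟩
      rw [show s ^ (α - 1) = s ^ p * s ^ 3 by rw [e1, a2_pow hs],
        show s' ^ (α - 1) = s' ^ p * s' ^ 3 by rw [e1, a2_pow hs']]
      field_simp
      ring

theorem a2S : A2S := by
  intro α c h s s' hs hs'
  refine ⟨(a2_main h hs hs').1, ?_⟩
  rw [(a2_main h hs hs').2, rho, (a2_main h one_pos one_pos).2]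
  simp [dd]

end Pool.Agent.MP_560646_mp.One
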