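import Pool.Agent.MP_560646_mp.One.Sc

set_option autoImplicit false

namespace Pool.Agent.MP_560646_mp.One

open Real Set MeasureTheory

theorem a3_w {y : ℝ} (h : y < 1) :
    0 ≤ log (1 - y) + y + y ^ 2 / (1 - y) ∧ log (1 - y) + y ≤ 0 := by
  have p : 0 < 1 - y := by linarith
  have a := one_sub_inv_le_log_of_pos p
  have b := log_le_sub_one_of_pos p
  have c : 1 - (1 - y)⁻¹ + y + y ^ 2 / (1 - y) = 0 := by field_simp; ring
  constructor <;> linarith

theorem a3_bd {v l z : ℝ} (hv : v ∈ Icc (0 : ℝ) 1) (l0 : 0 ≤ l) (l1 : l ≤ 1) (z0 : 0 ≤ z)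
    (z1 : z < 1) : |ph v l z - z * pd v l z| ≤ z ^ 2 / (1 - z) := by
  have h1 : v * z ≤ z := mul_le_of_le_one_left z0 hv.2
  have a := a3_w (h1.trans_lt z1)
  have b := a3_w z1
  have c : (v * z) ^ 2 / (1 - v * z) ≤ z ^ 2 / (1 - z) :=
    div_le_div₀ (sq_nonneg z) (pow_le_pow_left₀ (mul_nonneg hv.1 z0) h1 2) (by linarith)
      (by linarith)
  have d : 0 ≤ (v * z) ^ 2 / (1 - v * z) := div_nonneg (sq_nonneg _) (by linarith)
  have e : ph v l z - z * pd v l z = (log (1 - v * z) + v * z + (v * z) ^ 2 / (1 - v * z)) -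
      l * (log (1 - z) + z + z ^ 2 / (1 - z)) := by
    unfold ph pd
    ring
  have f := mul_nonneg l0 b.1
  have g := mul_le_of_le_one_left b.1 l1
  rw [e, abs_le]
  constructor <;> linarith [a.1, a.2, b.2]

theorem a3_z {u t : ℝ} (hu : u ∈ Icc (0 : ℝ) 1) (ht : 0 < t) :
    0 ≤ zz u 1 t ∧ zz u 1 t < 1 ∧ zz u 1 t * (1 + t) ^ 2 ≤ 1 := by
  have a : zz u 1 t * (1 + t) ^ 2 = u := by
    unfold zz
    field_simp
  have b : 0 ≤ zz u 1 t := by
    have := hu.1
    unfold zz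
    positivity
  refine ⟨b, ?_, a.trans_le hu.2⟩
  by_contra n
  nlinarith [hu.2, mul_le_mul_of_nonneg_right (not_lt.1 n) (sq_nonneg (1 + t))]

theorem a3S : A3S := by
  intro α v l u a2 a4 hv hl l1 hu s hs
  have l0 : 0 ≤ l := (sq_nonneg v).trans hl
  rcases hs.eq_or_lt with rfl | hs
  · simp [zz, ph, zero_rpow (by linarith : α ≠ 0)]
  have hb : ∀ t, 0 < t → |t ^ (α - 1) * (ph v l (zz u 1 t) - zz u 1 t * pd v l (zz u 1 t))| ≤
      t ^ (α - 1) * (zz u 1 t ^ 2 / (1 - zz u 1 t)) := fun t ht => by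
    rw [abs_mul, abs_of_pos (rpow_pos_of_pos ht _)]
    exact mul_le_mul_of_nonneg_left (a3_bd hv l0 l1 (a3_z hu ht).1 (a3_z hu ht).2.1)
      (rpow_pos_of_pos ht _).le
  have hi : IntegrableOn
      (fun t => t ^ (α - 1) * (ph v l (zz u 1 t) - zz u 1 t * pd v l (zz u 1 t))) (Ioi 0) := by
    refine integ_of_bound (C := 2) (p := α - 1 - 1) (q := α - 1 - (4 : ℕ)) ?_ (by linarith)
      (by push_cast; linarith) (fun t ht t1 => (hb t ht).trans ?_) fun t t1 => ?_
    · have hz : ContinuousOn (fun t => zz u 1 t) (Ioi 0) := by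
        unfold zz
        exact continuousOn_const.div (by fun_prop) fun t (ht : 0 < t) => by positivity
      have n1 : ∀ t ∈ Ioi (0 : ℝ), 1 - zz u 1 t ≠ 0 := fun t ht =>
        (sub_pos.2 (a3_z hu ht).2.1).ne'
      have n2 : ∀ t ∈ Ioi (0 : ℝ), 1 - v * zz u 1 t ≠ 0 := fun t ht =>
        (sub_pos.2 ((mul_le_of_le_one_left (a3_z hu ht).1 hv.2).trans_lt (a3_z hu ht).2.1)).ne'
      refine (continuousOn_id.rpow_const fun t ht => Or.inl (ne_of_gt ht)).mul ?_
      unfold ph pd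
      fun_prop (disch := assumption)
    · obtain ⟨z0, z1, z2⟩ := a3_z hu ht
      rw [rpow_sub_one ht.ne' (α - 1), mul_comm 2, div_mul_eq_mul_div, mul_div_assoc]
      refine mul_le_mul_of_nonneg_left ?_ (rpow_pos_of_pos ht _).le
      rw [div_le_div_iff₀ (by linarith) ht]
      nlinarith [mul_nonneg z0 ht.le, mul_nonneg (mul_nonneg z0 ht.le) ht.le,
        mul_nonneg (mul_nonneg z0 ht.le) (sub_nonneg.2 z1.le)]
    · have ht : 0 < t := by linarith
      obtain ⟨z0, z1, z2⟩ := a3_z hu ht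
      refine (hb t ht).trans ?_
      rw [rpow_sub_natCast ht.ne' (α - 1), mul_comm 2, div_mul_eq_mul_div, mul_div_assoc]
      refine mul_le_mul_of_nonneg_left ?_ (rpow_pos_of_pos ht _).le
      rw [div_le_div_iff₀ (by linarith) (by positivity)]
      have b1 : zz u 1 t * t ^ 2 ≤ 1 := by nlinarith [mul_nonneg z0 ht.le]
      have b2 : zz u 1 t ≤ 1 / 4 := by
        nlinarith [mul_le_mul_of_nonneg_left (show 4 ≤ (1 + t) ^ 2 by nlinarith) z0]
      nlinarith [pow_le_one₀ (n := 2) (by positivity) b1]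
  have := integ_scale (k := s ^ (α - 1)) (f := fun t => t ^ (α - 1) *
    (ph v l (zz u s t) - zz u s t * pd v l (zz u s t))) hs hi fun t ht => by
      have e : zz u s (s * t) = zz u 1 t := by
        unfold zz
        field_simp
      simp only [e]
      rw [mul_rpow hs.le ht.le, mul_assoc]
  refine ⟨this.1, this.2.trans ?_⟩
  rw [rpow_sub_one hs.ne', mul_div_cancel₀ _ hs.ne']
  rfl

end Pool.Agent.MP_560646_mp.One
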