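import Pool.Agent.MP_560646_mp.One.Sc

/-! A supporting line for the two-point kernel at the order divided by four. -/

set_option autoImplicit false

namespace Pool.Agent.MP_560646_mp.One

open Real Set MeasureTheory

theorem a4_tan {x y : ℝ} (hx : 0 < x) (hy : 0 < y) : 1 / y - (x - y) / y ^ 2 ≤ 1 / x := by
  have : 1 / x - (1 / y - (x - y) / y ^ 2) = (x - y) ^ 2 / (x * y ^ 2) := by
    field_simp; ring
  have h2 : 0 ≤ (x - y) ^ 2 / (x * y ^ 2) := by positivity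
  linarith

theorem a4_bern {r e : ℝ} (hr : 0 < r) (h0 : 0 ≤ e) (h1 : e ≤ 1) : r ^ e ≤ 1 - e * (1 - r) := by
  have := rpow_one_add_le_one_add_mul_self (s := r - 1) (by linarith) h0 h1
  rw [add_sub_cancel] at this
  linarith

theorem a4_p2 {r a : ℝ} (hr : 0 < r) (hr1 : r < 1) (ha : 1 / 2 < a) (ha1 : a < 1) :
    r ^ (4 * a - 1) * (r * (1 - a) + a) ^ 2 ≤ (1 - a + r * a) ^ 2 := by
  have h1 := a4_bern hr (e := 1 / 2) (by norm_num) (by norm_num)
  have h2 := a4_bern hr (e := 2 * a - 1) (by linarith) (by linarith)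
  have h3 := mul_le_mul h1 h2 (rpow_nonneg hr.le _) (by linarith)
  rw [← rpow_add hr] at h3
  have e : r ^ (4 * a - 1) = (r ^ (1 / 2 + (2 * a - 1))) ^ 2 := by
    rw [sq, ← rpow_add hr]; congr 1; ring
  have hX : 0 ≤ r * (1 - a) + a := by nlinarith
  rw [e, ← mul_pow]
  refine pow_le_pow_left₀ (mul_nonneg (rpow_nonneg hr.le _) hX) ?_ 2
  refine (mul_le_mul_of_nonneg_right h3 hX).trans ?_
  have h4 : 0 ≤ (1 - r) * ((1 - r) * ((1 - a) ^ 2 + r * (a / 2 + (2 * a - 1) * (1 - a) * r / 2))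
      + r * ((1 - a) ^ 2 + r * (a / 2 + (2 * a - 1) * (1 - a) * r / 2))) := by
    have : 0 < 1 - r := by linarith
    have : 0 < 1 - a := by linarith
    have : 0 < 2 * a - 1 := by linarith
    have : 0 < a := by linarith
    positivity
  nlinarith

theorem a4_p1 {r a : ℝ} (hr : 0 < r) (hr1 : r < 1) (ha : 1 / 2 < a) (ha1 : a < 1) :
    (2 - (1 + 2 * a) * (1 - r)) * (1 - a * (1 - r)) ≤
      r ^ (4 * a - 1) * ((1 - (1 - a) * (1 - r)) * (2 + (2 * a - 1) * (1 - r))) := by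
  have hV : ∀ t, r ≤ t → t ≤ 1 → 0 < (1 - (1 - a) * (1 - t)) * (2 + (2 * a - 1) * (1 - t)) :=
    fun t h0 h1 => mul_pos (by nlinarith) (by nlinarith)
  have hd : ∀ t, r ≤ t → t ≤ 1 → HasDerivAt (fun t : ℝ => t ^ (-(4 * a - 1)) *
      ((2 - (1 + 2 * a) * (1 - t)) * (1 - a * (1 - t)) /
        ((1 - (1 - a) * (1 - t)) * (2 + (2 * a - 1) * (1 - t)))))
      (t ^ (-(4 * a - 1) - 1) * ((1 - t) ^ 2 * a * (2 * a - 1) * (4 * a - 1) *
        (2 * t + (1 - t) ^ 2 * (1 - a) * (1 + 2 * a)) /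
        ((1 - (1 - a) * (1 - t)) * (2 + (2 * a - 1) * (1 - t))) ^ 2)) t := by
    intro t h0 h1
    have ht : 0 < t := by linarith
    have d0 : HasDerivAt (fun t : ℝ => 1 - t) (-1) t := (hasDerivAt_id' t).const_sub 1
    have dU := ((d0.const_mul (1 + 2 * a)).const_sub 2).fun_mul ((d0.const_mul a).const_sub 1)
    have dV := ((d0.const_mul (1 - a)).const_sub 1).fun_mul ((d0.const_mul (2 * a - 1)).const_add 2)
    have hv := (hV t h0 h1).ne'
    refine ((hasDerivAt_rpow_const (p := -(4 * a - 1)) (Or.inl ht.ne')).fun_mul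
      (dU.fun_div dV hv)).congr_deriv ?_
    have e : t ^ (-(4 * a - 1)) = t ^ (-(4 * a - 1) - 1) * t := by
      rw [← rpow_add_one ht.ne']; congr 1; ring
    rw [e]
    generalize t ^ (-(4 * a - 1) - 1) = w
    obtain ⟨h2, h3⟩ := mul_ne_zero_iff.1 hv
    field_simp
    ring
  obtain ⟨c, hc, e⟩ := exists_hasDerivAt_eq_slope _ _ hr1
    (fun t ht => (hd t ht.1 ht.2).continuousAt.continuousWithinAt)
    fun t ht => hd t ht.1.le ht.2.le
  have hc0 : 0 < c := hr.trans hc.1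
  have h1 : 0 < 1 - a := by linarith
  have h2 : 0 < 2 * a - 1 := by linarith
  have h3 : 0 < 4 * a - 1 := by linarith
  have h4 : 0 < a := by linarith
  have h5 : 0 ≤ c ^ (-(4 * a - 1) - 1) * ((1 - c) ^ 2 * a * (2 * a - 1) * (4 * a - 1) *
        (2 * c + (1 - c) ^ 2 * (1 - a) * (1 + 2 * a)) /
        ((1 - (1 - a) * (1 - c)) * (2 + (2 * a - 1) * (1 - c))) ^ 2) := by positivity
  rw [e, le_div_iff₀ (by linarith), zero_mul, sub_nonneg, rpow_neg hr.le] at h5
  simp only [one_rpow, sub_self, mul_zero, sub_zero, add_zero, mul_one, one_mul] at h5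
  rw [div_self two_ne_zero, inv_mul_le_iff₀ (rpow_pos_of_pos hr _), mul_one,
    div_le_iff₀ (hV r le_rfl hr1.le)] at h5
  exact h5

theorem a4_core {r b : ℝ} (hr : 0 < r) (hr1 : r < 1) (hb : 1 / 2 < b) (hb1 : b < 1) :
    ∃ κ : ℝ, 0 ≤ κ ∧ ∀ a ∈ Icc (0 : ℝ) 1,
      2 * ((1 - r ^ (4 * b - 1)) / ((4 * b - 1) * (1 - r))) + κ * (b - a) ≤
        1 / (r * (1 - a) + a) + r ^ (4 * b - 1) * (1 / (1 - a + r * a)) := by
  have p1 := a4_p1 hr hr1 hb hb1
  have p2 := a4_p2 hr hr1 hb hb1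
  have hR := rpow_pos_of_pos hr (4 * b - 1)
  generalize r ^ (4 * b - 1) = R at p1 p2 hR
  have hX : 0 < r * (1 - b) + b := by nlinarith
  have hY : 0 < 1 - b + r * b := by nlinarith
  have hd : 0 < 1 - r := by linarith
  have h4 : 0 < 4 * b - 1 := by linarith
  refine ⟨(1 - r) * (1 / (r * (1 - b) + b) ^ 2 - R / (1 - b + r * b) ^ 2), ?_, fun a ha => ?_⟩
  · refine mul_nonneg hd.le (sub_nonneg.2 ?_)
    rw [div_le_div_iff₀ (by positivity) (by positivity)]
    linarith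
  · have hX' : 0 < r * (1 - a) + a := by nlinarith [ha.1, ha.2]
    have hY' : 0 < 1 - a + r * a := by nlinarith [ha.1, ha.2]
    have t1 := a4_tan hX' hX
    have t2 := mul_le_mul_of_nonneg_left (a4_tan hY' hY) hR.le
    have t3 : 2 * ((1 - R) / ((4 * b - 1) * (1 - r))) ≤
        1 / (r * (1 - b) + b) + R * (1 / (1 - b + r * b)) := by
      rw [mul_one_div, div_add_div _ _ hX.ne' hY.ne', ← mul_div_assoc,
        div_le_div_iff₀ (by positivity) (by positivity)]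
      linarith
    have e : (1 - r) * (1 / (r * (1 - b) + b) ^ 2 - R / (1 - b + r * b) ^ 2) * (b - a) =
        -((r * (1 - a) + a - (r * (1 - b) + b)) / (r * (1 - b) + b) ^ 2) -
          R * ((1 - a + r * a - (1 - b + r * b)) / (1 - b + r * b) ^ 2) := by ring
    rw [e]
    linarith

theorem a4_lt {α s s' : ℝ} (h2 : 2 < α) (h4 : α < 4) (hs' : 0 < s') (h : s' < s) :
    ∃ κ : ℝ, 0 ≤ κ ∧ ∀ a ∈ Icc (0 : ℝ) 1,
      2 * ((s ^ (α - 1) - s' ^ (α - 1)) / ((α - 1) * (s - s'))) + κ * (α / 4 - a) ≤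
        s ^ (α - 1) / (s' * (1 - a) + s * a) + s' ^ (α - 1) / (s * (1 - a) + s' * a) := by
  have hs : 0 < s := hs'.trans h
  obtain ⟨r, rfl⟩ : ∃ r, s' = r * s := ⟨s' / s, by field_simp⟩
  have hr : 0 < r := (mul_pos_iff_of_pos_right hs).1 hs'
  have hr1 : r < 1 := by nlinarith
  obtain ⟨κ, hκ, H⟩ := a4_core (b := α / 4) hr hr1 (by linarith) (by linarith)
  rw [show 4 * (α / 4) - 1 = α - 1 by ring] at H
  have hS := rpow_pos_of_pos hs (α - 1)
  rw [mul_rpow hr.le hs.le]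
  refine ⟨s ^ (α - 1) / s * κ, by positivity, fun a ha => ?_⟩
  have h1 := mul_le_mul_of_nonneg_left (H a ha) (div_pos hS hs).le
  have hX : 0 < r * (1 - a) + a := by nlinarith [ha.1, ha.2]
  have hY : 0 < 1 - a + r * a := by nlinarith [ha.1, ha.2]
  have hd : 0 < 1 - r := by linarith
  have h5 : 0 < α - 1 := by linarith
  generalize s ^ (α - 1) = S at h1
  generalize r ^ (α - 1) = R at h1
  rw [show s - r * s = s * (1 - r) by ring, show r * s * (1 - a) + s * a = s * (r * (1 - a) + a) by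
    ring, show s * (1 - a) + r * s * a = s * (1 - a + r * a) by ring]
  refine le_trans (le_of_eq ?_) (h1.trans (le_of_eq ?_))
  · field_simp
  · field_simp

theorem a4S : A4S := by
  intro α s s' h2 h4 hs hs'
  rcases lt_trichotomy s' s with h | rfl | h
  · rw [dd, if_neg h.ne']
    exact a4_lt h2 h4 hs' h
  · refine ⟨0, le_rfl, fun a _ => le_of_eq ?_⟩
    rw [dd, if_pos rfl, show s' * (1 - a) + s' * a = s' by ring,
      show α - 2 = α - 1 - 1 by ring, rpow_sub_one hs.ne' (α - 1)]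
    ring
  · obtain ⟨κ, hκ, H⟩ := a4_lt h2 h4 hs h
    refine ⟨κ, hκ, fun a ha => ?_⟩
    rw [dd, if_neg h.ne, ← neg_div_neg_eq, neg_sub, ← mul_neg, neg_sub, add_comm (_ / _)]
    exact H a ha

end Pool.Agent.MP_560646_mp.One
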