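import Pool.Agent.MP_560646_mp.One.Sc

set_option autoImplicit false

namespace Pool.Agent.MP_560646_mp.One

open Real Set MeasureTheory Filter Topology

noncomputable def a5_X (v l z : ℝ) : ℝ := l / (1 - z) - v ^ 2 / (1 - v * z)

noncomputable def a5_w (α v l u t : ℝ) : ℝ :=
  t ^ (α - 1) * (pd v l (zz u 1 t) * ((1 + t) * (1 + t))⁻¹)

noncomputable def a5_b (α t : ℝ) : ℝ := t ^ (α - 1) * ((1 + t) ^ 4)⁻¹ * (α / 4 - t / (1 + t))

theorem a5_pd (v l z : ℝ) : pd v l z = z * a5_X v l z := by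
  rw [pd, a5_X]; ring

theorem a5_den {v z : ℝ} (hv : v ∈ Icc (0 : ℝ) 1) (h0 : 0 ≤ z) : 1 - z ≤ 1 - v * z := by
  nlinarith [hv.2]

theorem a5_mono {v l y z : ℝ} (hv : v ∈ Icc (0 : ℝ) 1) (hl : v ^ 2 ≤ l) (h0 : 0 ≤ y)
    (h : y ≤ z) (h1 : z < 1) : a5_X v l y ≤ a5_X v l z := by
  have p1 : 0 < 1 - z := by linarith
  have p2 : 0 < 1 - y := by linarith
  have q1 := a5_den hv (h0.trans h)
  have q2 := a5_den hv h0
  have p3 : 0 < 1 - v * z := by linarith
  have p4 : 0 < 1 - v * y := by linarith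
  have e : a5_X v l z - a5_X v l y =
      (z - y) * (l / ((1 - z) * (1 - y)) - v ^ 3 / ((1 - v * z) * (1 - v * y))) := by
    have f1 : 1 / (1 - z) - 1 / (1 - y) = (z - y) / ((1 - z) * (1 - y)) := by
      rw [div_sub_div _ _ p1.ne' p2.ne']; congr 1; ring
    have f2 : 1 / (1 - v * z) - 1 / (1 - v * y) = v * (z - y) / ((1 - v * z) * (1 - v * y)) := by
      rw [div_sub_div _ _ p3.ne' p4.ne']; congr 1; ring
    rw [a5_X, a5_X]
    linear_combination l * f1 - v ^ 2 * f2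
  have v3 : v ^ 3 ≤ l := by nlinarith [hv.1, hv.2, sq_nonneg v]
  have l0 : 0 ≤ l := (sq_nonneg v).trans hl
  have : v ^ 3 / ((1 - v * z) * (1 - v * y)) ≤ l / ((1 - z) * (1 - y)) :=
    div_le_div₀ l0 v3 (mul_pos p1 p2) (mul_le_mul q1 q2 p2.le p3.le)
  have := mul_nonneg (sub_nonneg.2 h) (sub_nonneg.2 this)
  linarith

theorem a5_zz {u t : ℝ} (hu : u ∈ Icc (0 : ℝ) 1) (ht : 0 < t) :
    0 ≤ zz u 1 t ∧ zz u 1 t < 1 ∧ zz u 1 t * (1 + t) ^ 2 = u := by
  have p : 0 < (1 + t) ^ 2 := by positivity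
  rw [zz, one_pow, mul_one]
  refine ⟨div_nonneg hu.1 p.le, ?_, div_mul_cancel₀ _ p.ne'⟩
  rw [div_lt_one p]
  nlinarith [hu.2]

theorem a5_pdb {v l u t : ℝ} (hv : v ∈ Icc (0 : ℝ) 1) (hl : v ^ 2 ≤ l) (hl1 : l ≤ 1)
    (hu : u ∈ Icc (0 : ℝ) 1) (ht : 0 < t) :
    0 ≤ pd v l (zz u 1 t) ∧ pd v l (zz u 1 t) * (t * (2 + t)) ≤ 1 := by
  obtain ⟨z0, z1, e⟩ := a5_zz hu ht
  generalize zz u 1 t = z at z0 z1 e
  have x0 : 0 ≤ a5_X v l z := by
    refine le_trans ?_ (a5_mono hv hl le_rfl z0 z1)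
    simp only [a5_X, sub_zero, div_one, mul_zero]
    linarith
  have p1 : 0 < 1 - z := by linarith
  have q1 := a5_den hv z0
  have x1 : a5_X v l z * (1 - z) ≤ 1 := by
    have : 0 ≤ v ^ 2 / (1 - v * z) * (1 - z) :=
      mul_nonneg (div_nonneg (sq_nonneg v) (by linarith)) p1.le
    rw [a5_X, sub_mul, div_mul_cancel₀ _ p1.ne']
    linarith
  rw [a5_pd]
  refine ⟨mul_nonneg z0 x0, ?_⟩
  have x2 : z * (t * (2 + t)) ≤ 1 - z := by nlinarith [hu.2]
  have := mul_le_mul_of_nonneg_left x2 x0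
  linarith

theorem a5_rp {t : ℝ} (ht : 0 < t) (α : ℝ) (n : ℕ) :
    t ^ (α - 1 - n) = t ^ (α - 1) * (t ^ n)⁻¹ := by
  rw [rpow_sub ht, rpow_natCast, div_eq_mul_inv]

theorem a5_wpos {α v l u t : ℝ} (hv : v ∈ Icc (0 : ℝ) 1) (hl : v ^ 2 ≤ l) (hl1 : l ≤ 1)
    (hu : u ∈ Icc (0 : ℝ) 1) (ht : 0 < t) : 0 ≤ a5_w α v l u t := by
  have := (a5_pdb hv hl hl1 hu ht).1
  rw [a5_w]
  positivity

theorem a5_wcont {α v l u : ℝ} (hv : v ∈ Icc (0 : ℝ) 1) (hu : u ∈ Icc (0 : ℝ) 1) :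
    ContinuousOn (a5_w α v l u) (Ioi 0) := by
  have hz : ContinuousOn (fun t => zz u 1 t) (Ioi 0) := by
    unfold zz
    exact continuousOn_const.div (by fun_prop) fun t (ht : 0 < t) => by positivity
  unfold a5_w pd
  refine (continuousOn_id.rpow_const fun t ht => Or.inl (ne_of_gt ht)).mul
    ((((continuousOn_const.mul hz).div (continuousOn_const.sub hz) fun t ht => ?_).sub
      ((continuousOn_const.mul hz).div (continuousOn_const.sub (continuousOn_const.mul hz))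
        fun t ht => ?_)).mul
      (ContinuousOn.inv₀ (by fun_prop) fun t (ht : 0 < t) => by positivity))
  · exact (sub_pos.2 (a5_zz hu ht).2.1).ne'
  · exact ((sub_pos.2 (a5_zz hu ht).2.1).trans_le (a5_den hv (a5_zz hu ht).1)).ne'

theorem a5_wint {α v l u : ℝ} (h2 : 2 < α) (h4 : α < 4) (hv : v ∈ Icc (0 : ℝ) 1)
    (hl : v ^ 2 ≤ l) (hl1 : l ≤ 1) (hu : u ∈ Icc (0 : ℝ) 1) :
    IntegrableOn (a5_w α v l u) (Ioi 0) := by
  refine integ_of_bound (C := 1) (p := α - 1 - (1 : ℕ)) (q := α - 1 - (4 : ℕ)) (a5_wcont hv hu)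
    (by push_cast; linarith) (by push_cast; linarith) (fun t ht _ => ?_) (fun t ht => ?_)
  · obtain ⟨a, b⟩ := a5_pdb hv hl hl1 hu ht
    rw [abs_of_nonneg (a5_wpos hv hl hl1 hu ht), one_mul, a5_rp ht, a5_w]
    refine mul_le_mul_of_nonneg_left ?_ (rpow_nonneg ht.le _)
    rw [← div_eq_mul_inv, ← one_div, div_le_div_iff₀ (by positivity) (by positivity)]
    nlinarith [mul_nonneg a ht.le, mul_nonneg (mul_nonneg a ht.le) ht.le]
  · have ht0 : 0 < t := by linarith
    obtain ⟨a, b⟩ := a5_pdb hv hl hl1 hu ht0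
    rw [abs_of_nonneg (a5_wpos hv hl hl1 hu ht0), one_mul, a5_rp ht0, a5_w]
    refine mul_le_mul_of_nonneg_left ?_ (rpow_nonneg ht0.le _)
    rw [← div_eq_mul_inv, ← one_div, div_le_div_iff₀ (by positivity) (by positivity)]
    have c : pd v l (zz u 1 t) * t ^ 2 ≤ 1 := by nlinarith [mul_nonneg a ht0.le]
    have := mul_le_mul_of_nonneg_right c (sq_nonneg t)
    nlinarith

theorem a5_mul {w g : ℝ → ℝ} {M : ℝ} (hw : IntegrableOn w (Ioi 0))
    (hg : ContinuousOn g (Ioi 0)) (hM : ∀ t, 0 < t → |g t| ≤ M) :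
    IntegrableOn (fun t => w t * g t) (Ioi 0) :=
  Integrable.mul_bdd hw (hg.aestronglyMeasurable measurableSet_Ioi)
    ((ae_restrict_mem measurableSet_Ioi).mono fun t ht => hM t ht)

theorem a5_a {t : ℝ} (ht : 0 < t) : t / (1 + t) ∈ Icc (0 : ℝ) 1 :=
  ⟨by positivity, by rw [div_le_one (by positivity)]; linarith⟩

theorem a5_acont : ContinuousOn (fun t : ℝ => t / (1 + t)) (Ioi 0) :=
  continuousOn_id.div (by fun_prop) fun t (ht : 0 < t) => by positivity

theorem a5_scale {α v l u s s' : ℝ} (hw : IntegrableOn (a5_w α v l u) (Ioi 0)) (hs : 0 < s)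
    (hs' : 0 < s') :
    IntegrableOn (fun t => a5_w α v l u t *
      (s ^ (α - 1) / (s' * (1 - t / (1 + t)) + s * (t / (1 + t))))) (Ioi 0) ∧
    IntegrableOn (fun t => t ^ (α - 1) * (pd v l (zz u s t) * ((s + t) * (s' + t))⁻¹)) (Ioi 0) ∧
    ∫ t in Ioi (0 : ℝ), t ^ (α - 1) * (pd v l (zz u s t) * ((s + t) * (s' + t))⁻¹) =
      ∫ t in Ioi (0 : ℝ), a5_w α v l u t *
        (s ^ (α - 1) / (s' * (1 - t / (1 + t)) + s * (t / (1 + t)))) := by
  have m : 0 < min s s' := lt_min hs hs'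
  have lo : ∀ t : ℝ, 0 < t → min s s' ≤ s' * (1 - t / (1 + t)) + s * (t / (1 + t)) := by
    intro t ht
    obtain ⟨a, b⟩ := a5_a ht
    nlinarith [mul_le_mul_of_nonneg_right (min_le_left s s') a,
      mul_le_mul_of_nonneg_right (min_le_right s s') (sub_nonneg.2 b)]
  have i := a5_mul (M := s ^ (α - 1) / min s s') hw
    (g := fun t => s ^ (α - 1) / (s' * (1 - t / (1 + t)) + s * (t / (1 + t))))
    (continuousOn_const.div ((continuousOn_const.mul (continuousOn_const.sub a5_acont)).add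
      (continuousOn_const.mul a5_acont)) fun t ht => (m.trans_le (lo t ht)).ne')
    fun t ht => by
      have := m.trans_le (lo t ht)
      rw [abs_of_nonneg (by positivity)]
      exact div_le_div_of_nonneg_left (by positivity) m (lo t ht)
  have j := integ_scale (k := s⁻¹)
    (f := fun t => t ^ (α - 1) * (pd v l (zz u s t) * ((s + t) * (s' + t))⁻¹)) hs i
    fun t ht => by
      have e1 : zz u s (s * t) = zz u 1 t := by
        rw [zz, zz]
        field_simp
      have e2 : s' * (1 - t / (1 + t)) + s * (t / (1 + t)) = (s' + s * t) / (1 + t) := by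
        field_simp
        ring
      have p : 0 < s' + s * t := by positivity
      simp only [a5_w]
      rw [e1, e2, mul_rpow hs.le ht.le]
      field_simp
  rw [mul_inv_cancel₀ hs.ne', one_mul] at j
  exact ⟨i, j⟩

theorem a5_abs {α t : ℝ} (h2 : 2 < α) (h4 : α < 4) (ht : 0 < t) : |α / 4 - t / (1 + t)| ≤ 1 := by
  obtain ⟨a, b⟩ := a5_a ht
  rw [abs_le]
  constructor <;> linarith

theorem a5_bint {α : ℝ} (h2 : 2 < α) (h4 : α < 4) :
    IntegrableOn (a5_b α) (Ioi 0) ∧ ∫ t in Ioi (0 : ℝ), a5_b α t = 0 := by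
  have i0 : IntegrableOn (fun t : ℝ => t ^ (α - 1) * ((1 + t) ^ 4)⁻¹) (Ioi 0) := by
    refine integ_of_bound (C := 1) (p := α - 1) (q := α - 1 - (4 : ℕ))
      ((continuousOn_id.rpow_const fun t ht => Or.inl (ne_of_gt ht)).mul
        (ContinuousOn.inv₀ (by fun_prop) fun t (ht : 0 < t) => by positivity))
      (by linarith) (by push_cast; linarith) (fun t ht _ => ?_) (fun t ht => ?_)
    · rw [abs_of_nonneg (by positivity), one_mul]
      exact mul_le_of_le_one_right (rpow_nonneg ht.le _)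
        (inv_le_one_of_one_le₀ (one_le_pow₀ (by linarith)))
    · have ht0 : 0 < t := by linarith
      rw [abs_of_nonneg (by positivity), one_mul, a5_rp ht0]
      gcongr
      linarith
  have i : IntegrableOn (a5_b α) (Ioi 0) :=
    a5_mul i0 (continuousOn_const.sub a5_acont) fun t ht => a5_abs h2 h4 ht
  refine ⟨i, ?_⟩
  have z : (0 : ℝ) = 0 - (fun t : ℝ => t ^ α / (1 + t) ^ 4 / 4) 0 := by
    simp [zero_rpow (by linarith : α ≠ 0)]
  rw [z]
  simp only [← z]
  refine (integral_Ioi_of_hasDerivAt_of_tendsto (f := fun t : ℝ => t ^ α / (1 + t) ^ 4 / 4)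
    (m := 0) ?_ (fun t (ht : 0 < t) => ?_) i ?_).trans z.symm
  · exact (((continuousAt_rpow_const 0 α (Or.inr (by linarith))).div (by fun_prop)
      (by norm_num)).div_const 4).continuousWithinAt
  · have p : (1 + t) ≠ 0 := by positivity
    have d1 : HasDerivAt (fun t : ℝ => (1 + t) ^ 4) (4 * (1 + t) ^ 3) t := by
      simpa using ((hasDerivAt_id' t).const_add 1).fun_pow 4
    have d := ((hasDerivAt_rpow_const (p := α) (Or.inl ht.ne')).fun_div d1
      (pow_ne_zero 4 p)).div_const 4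
    have e : t ^ α = t ^ (α - 1) * t := by rw [rpow_sub_one ht.ne', div_mul_cancel₀ _ ht.ne']
    refine d.congr_deriv ?_
    rw [a5_b, e]
    field_simp
  · refine squeeze_zero' (g := fun t : ℝ => t ^ (-(4 - α))) ?_ ?_
      (tendsto_rpow_neg_atTop (by linarith))
    · filter_upwards [eventually_gt_atTop 0] with t ht
      positivity
    · filter_upwards [eventually_gt_atTop 0] with t ht
      rw [neg_sub, show α - 4 = α - (4 : ℕ) by norm_num, rpow_sub ht, rpow_natCast]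
      refine (div_le_self (by positivity) (by norm_num)).trans ?_
      gcongr
      linarith

theorem a5_tilt {α v l u : ℝ} (h2 : 2 < α) (h4 : α < 4) (hv : v ∈ Icc (0 : ℝ) 1)
    (hl : v ^ 2 ≤ l) (hu : u ∈ Icc (0 : ℝ) 1)
    (hi : IntegrableOn (fun t => a5_w α v l u t * (α / 4 - t / (1 + t))) (Ioi 0)) :
    0 ≤ ∫ t in Ioi (0 : ℝ), a5_w α v l u t * (α / 4 - t / (1 + t)) := by
  obtain ⟨bi, b0⟩ := a5_bint h2 h4
  have p4 : 0 < 4 - α := by linarith
  obtain ⟨r, hr⟩ : ∃ r : ℝ, r = α / (4 - α) := ⟨_, rfl⟩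
  have r0 : 0 < r := by rw [hr]; exact div_pos (by linarith) p4
  have ra : α / 4 = r / (1 + r) := by rw [hr]; field_simp; ring
  calc (0 : ℝ) = ∫ t in Ioi (0 : ℝ), u * a5_X v l (zz u 1 r) * a5_b α t := by
        rw [integral_const_mul, b0, mul_zero]
    _ ≤ _ := by
      refine setIntegral_mono_on (bi.const_mul _) hi measurableSet_Ioi fun t (ht : 0 < t) => ?_
      have anti : ∀ x y : ℝ, 0 < x → x ≤ y → a5_X v l (zz u 1 y) ≤ a5_X v l (zz u 1 x) ∧
          x / (1 + x) ≤ y / (1 + y) := fun x y hx hxy => by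
        have hy := hx.trans_le hxy
        refine ⟨a5_mono hv hl (a5_zz hu hy).1 ?_ (a5_zz hu hx).2.1, ?_⟩
        · rw [zz, zz]
          have := hu.1
          gcongr
        · rw [div_le_div_iff₀ (by positivity) (by positivity)]
          nlinarith
      have k : 0 ≤ (a5_X v l (zz u 1 t) - a5_X v l (zz u 1 r)) * (α / 4 - t / (1 + t)) := by
        rw [ra]
        rcases le_total t r with h | h
        · exact mul_nonneg (sub_nonneg.2 (anti t r ht h).1) (sub_nonneg.2 (anti t r ht h).2)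
        · exact mul_nonneg_of_nonpos_of_nonpos (sub_nonpos.2 (anti r t r0 h).1)
            (sub_nonpos.2 (anti r t r0 h).2)
      have e : a5_w α v l u t = u * (t ^ (α - 1) * ((1 + t) ^ 4)⁻¹) * a5_X v l (zz u 1 t) := by
        rw [a5_w, a5_pd]
        generalize a5_X v l (zz u 1 t) = X
        rw [zz]
        field_simp
      have n : 0 ≤ u * (t ^ (α - 1) * ((1 + t) ^ 4)⁻¹) := mul_nonneg hu.1 (by positivity)
      have := mul_nonneg n k
      rw [e, a5_b]
      linarith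

theorem a5S (h4 : A4S) : A5S := by
  intro α v l u a2 a4 hv hl hl1 hu s s' hs hs'
  have hw := a5_wint a2 a4 hv hl hl1 hu
  obtain ⟨i1, j1, e1⟩ := a5_scale hw hs hs'
  obtain ⟨i2, -, e2⟩ := a5_scale hw hs' hs
  obtain ⟨κ, k0, hκ⟩ := h4 α s s' a2 a4 hs hs'
  have i3 : IntegrableOn (fun t => a5_w α v l u t * (α / 4 - t / (1 + t))) (Ioi 0) :=
    a5_mul hw (continuousOn_const.sub a5_acont) fun t ht => a5_abs a2 a4 ht
  have t0 := mul_nonneg k0 (a5_tilt a2 a4 hv hl hu i3)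
  refine ⟨j1, ?_⟩
  rw [e1, e2, ← integral_add i1 i2]
  have g : ga α v l u = ∫ t in Ioi (0 : ℝ), a5_w α v l u t := rfl
  calc 2 * (ga α v l u * dd α s s') ≤ 2 * dd α s s' * (∫ t in Ioi (0 : ℝ), a5_w α v l u t) +
        κ * ∫ t in Ioi (0 : ℝ), a5_w α v l u t * (α / 4 - t / (1 + t)) := by rw [g]; linarith
    _ = ∫ t in Ioi (0 : ℝ), (2 * dd α s s' * a5_w α v l u t +
        κ * (a5_w α v l u t * (α / 4 - t / (1 + t)))) := by
      rw [integral_add (hw.const_mul _) (i3.const_mul _), integral_const_mul, integral_const_mul]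
    _ ≤ _ := by
      refine setIntegral_mono_on ((hw.const_mul _).add (i3.const_mul _)) (i1.add i2)
        measurableSet_Ioi fun t (ht : 0 < t) => ?_
      have := mul_le_mul_of_nonneg_left (hκ _ (a5_a ht)) (a5_wpos (α := α) hv hl hl1 hu ht)
      linarith

end Pool.Agent.MP_560646_mp.One
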