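import Pool.Agent.MP_560646_mp.One.Sc

/-! Signs of the scalar integrals. -/

set_option autoImplicit false

namespace Pool.Agent.MP_560646_mp.One

open Real Set MeasureTheory

theorem a6_zz {u t : ℝ} (hu : u ∈ Icc (0 : ℝ) 1) (ht : 0 < t) :
    0 ≤ zz u 1 t ∧ zz u 1 t < 1 ∧ zz u 1 t / (1 - zz u 1 t) ≤ (t * (2 + t))⁻¹ := by
  have h1 : (0 : ℝ) < (1 + t) ^ 2 := by positivity
  have hz0 : 0 ≤ zz u 1 t := by
    unfold zz
    exact div_nonneg (by nlinarith [hu.1]) h1.le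
  have hzm : zz u 1 t * (1 + t) ^ 2 ≤ 1 := by
    unfold zz
    rw [div_mul_cancel₀ _ h1.ne']
    nlinarith [hu.2]
  have hz1 : zz u 1 t < 1 := by
    by_contra h
    push Not at h
    nlinarith
  refine ⟨hz0, hz1, ?_⟩
  rw [inv_eq_one_div, div_le_div_iff₀ (by linarith) (by positivity)]
  nlinarith

theorem a6_pd_nonneg {v l z : ℝ} (hv : v ∈ Icc (0 : ℝ) 1) (hl : v ^ 2 ≤ l) (hz0 : 0 ≤ z)
    (hz1 : z < 1) : 0 ≤ pd v l z := by
  unfold pd
  have h1 : 0 < 1 - z := by linarith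
  have h2 : 1 - z ≤ 1 - v * z := by nlinarith [hv.2]
  have h3 : v ^ 2 * z ≤ l * z := mul_le_mul_of_nonneg_right hl hz0
  have h4 : 0 ≤ l * z := le_trans (by positivity) h3
  have : v ^ 2 * z / (1 - v * z) ≤ l * z / (1 - z) := div_le_div₀ h4 h3 h1 h2
  linarith

theorem a6_rk0 {t : ℝ} (ht : 0 < t) :
    rk 0 1 1 t = -((1 + 2 * t) / t ^ 2 * ((1 + t) * (1 + t))⁻¹) := by
  unfold rk
  field_simp
  ring

theorem a6_rk1 {t : ℝ} (ht : 0 < t) :
    rk 1 1 1 t = (2 + 3 * t) / t ^ 3 * ((1 + t) * (1 + t))⁻¹ := by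
  unfold rk
  field_simp
  ring

theorem a6_pd01 {u t : ℝ} (hu : u ∈ Icc (0 : ℝ) 1) (ht : 0 < t) :
    pd 0 1 (zz u 1 t) < (1 + 2 * t) / t ^ 2 := by
  obtain ⟨-, -, h⟩ := a6_zz hu ht
  have e : pd 0 1 (zz u 1 t) = zz u 1 t / (1 - zz u 1 t) := by
    unfold pd
    simp
  rw [e]
  refine h.trans_lt ?_
  rw [inv_eq_one_div, div_lt_div_iff₀ (by positivity) (by positivity)]
  nlinarith [mul_pos ht ht, mul_pos ht (mul_pos ht ht)]

theorem a6_pdv {u t v : ℝ} (hu : u ∈ Icc (0 : ℝ) 1) (ht : 0 < t) (hv : v ∈ Icc (0 : ℝ) 1) :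
    pd v (v ^ 2) (zz u 1 t) ≤ (v - v ^ 2) * ((2 + 3 * t) / t ^ 3) := by
  obtain ⟨hz0, hz1, h⟩ := a6_zz hu ht
  set z := zz u 1 t
  have h1 : 0 < 1 - z := by linarith
  have h2 : 1 - z ≤ 1 - v * z := by nlinarith [hv.2]
  have h3 : 0 < 1 - v * z := h1.trans_le h2
  have e : pd v (v ^ 2) z = (v - v ^ 2) * (z / (1 - z) * (v * z / (1 - v * z))) := by
    unfold pd
    field_simp
    ring
  rw [e]
  refine mul_le_mul_of_nonneg_left ?_ (by nlinarith [hv.1, hv.2])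
  have h4 : v * z / (1 - v * z) ≤ z / (1 - z) :=
    div_le_div₀ hz0 (by nlinarith [hv.2]) h1 h2
  have h5 : 0 ≤ v * z / (1 - v * z) := div_nonneg (mul_nonneg hv.1 hz0) h3.le
  have h6 : z / (1 - z) * (v * z / (1 - v * z)) ≤ (t * (2 + t))⁻¹ * (t * (2 + t))⁻¹ :=
    mul_le_mul h (h4.trans h) h5 (by positivity)
  refine h6.trans ?_
  rw [← mul_inv, inv_eq_one_div, div_le_div_iff₀ (by positivity) (by positivity)]
  have p2 := pow_pos ht 2
  have p3 := pow_pos ht 3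
  have p4 := pow_pos ht 4
  have p5 := pow_pos ht 5
  nlinarith

theorem a6S (h2 : A2S) (h5 : A5S) : A6S := by
  intro α u hu
  refine ⟨fun v l hv hl => ?_, fun hR => ?_, fun hR => ?_⟩
  · refine setIntegral_nonneg measurableSet_Ioi fun t ht => ?_
    have ht' : (0 : ℝ) < t := ht
    obtain ⟨hz0, hz1, -⟩ := a6_zz hu ht'
    exact mul_nonneg (rpow_nonneg ht'.le _)
      (mul_nonneg (a6_pd_nonneg hv hl hz0 hz1) (by positivity))
  · have hα : 2 < α ∧ α < 4 := by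
      rcases hR with ⟨-, h, h'⟩ | ⟨-, h, h'⟩ <;> constructor <;> linarith
    have i1 := (h2 α 0 hR 1 1 one_pos one_pos).1
    have i2 := (h5 α 0 1 u hα.1 hα.2 ⟨le_rfl, zero_le_one⟩ (by norm_num) le_rfl hu 1 1
      one_pos one_pos).1
    have p := integ_pos (f := fun t => -(t ^ (α - 1) * (pd 0 1 (zz u 1 t) * ((1 + t) * (1 + t))⁻¹)
      + t ^ (α - 1) * rk 0 1 1 t)) (i2.add i1).neg fun t ht => by
        rw [a6_rk0 ht]
        have a := a6_pd01 hu ht
        have b : 0 < t ^ (α - 1) := rpow_pos_of_pos ht _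
        have c : 0 < ((1 + t) * (1 + t))⁻¹ := by positivity
        have d := mul_pos (mul_pos b c) (sub_pos.2 a)
        linarith
    rw [integral_neg, integral_add i2 i1] at p
    unfold ga rho
    linarith
  · have hα : 2 < α ∧ α < 4 := by
      rcases hR with ⟨-, h, h'⟩ | ⟨-, h, h'⟩ <;> constructor <;> linarith
    have i1 := (h2 α 1 hR 1 1 one_pos one_pos).1
    refine ⟨integ_pos i1 fun t ht => ?_, fun v hv => ?_⟩
    · rw [a6_rk1 ht]
      have b : 0 < t ^ (α - 1) := rpow_pos_of_pos ht _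
      positivity
    · have i2 := (h5 α v (v ^ 2) u hα.1 hα.2 hv le_rfl (by nlinarith [hv.1, hv.2]) hu 1 1
        one_pos one_pos).1
      unfold ga rho
      rw [← integral_const_mul]
      refine setIntegral_mono_on i2 (i1.const_mul _) measurableSet_Ioi fun t ht => ?_
      have ht' : (0 : ℝ) < t := ht
      rw [a6_rk1 ht']
      have a := a6_pdv hu ht' hv
      have b : 0 < t ^ (α - 1) := rpow_pos_of_pos ht' _
      have c : 0 < ((1 + t) * (1 + t))⁻¹ := by positivity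
      have d := mul_nonneg (mul_pos b c).le (sub_nonneg.2 a)
      linarith

end Pool.Agent.MP_560646_mp.One
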