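import Pool.Agent.MP_560646_mp.One.Sc

/-! The two integral representations for orders between 1 and 2. -/

set_option autoImplicit false

namespace Pool.Agent.MP_560646_mp.One

open Real Set MeasureTheory

theorem a7_eq {s : ℝ} (hs : 0 < s) : gk 1 s = (1 + s) * log ((1 + s) / s) - 1 := by
  rw [log_div (by positivity) hs.ne', gk]; ring

theorem a7_pos {s : ℝ} (hs : 0 < s) : 0 < gk 1 s := by
  have h1 : (0 : ℝ) < 1 + s := by positivity
  have h := log_lt_sub_one_of_pos (div_pos hs h1) ((div_lt_one h1).2 (by linarith)).ne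
  rw [a7_eq hs, ← inv_div, log_inv]
  have e : (1 + s) * (s / (1 + s) - 1) = -1 := by field_simp; ring
  nlinarith [mul_lt_mul_of_pos_left h h1]

theorem a7_far {s : ℝ} (hs : 0 < s) : gk 1 s ≤ s⁻¹ := by
  have h1 : (0 : ℝ) < 1 + s := by positivity
  have h := log_le_sub_one_of_pos (div_pos h1 hs)
  have e : (1 + s) * ((1 + s) / s - 1) = s⁻¹ + 1 := by field_simp; ring
  rw [a7_eq hs]
  linarith [mul_le_mul_of_nonneg_left h h1.le]

theorem a7_near {s e : ℝ} (hs : 0 < s) (h1 : s ≤ 1) (he : 0 < e) (he1 : e ≤ 1) :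
    gk 1 s ≤ 4 / e * s ^ (-e) := by
  have p1 : 0 < (1 + s) / s := by positivity
  have l0 : 0 ≤ log ((1 + s) / s) := log_nonneg ((one_le_div hs).2 (by linarith))
  have h := log_le_rpow_div p1.le he
  have h2 : ((1 + s) / s) ^ e ≤ 2 * s ^ (-e) := by
    rw [div_rpow (by positivity) hs.le, rpow_neg hs.le, div_eq_mul_inv]
    refine mul_le_mul_of_nonneg_right ?_ (by positivity)
    calc (1 + s) ^ e ≤ (1 + s) ^ (1 : ℝ) := rpow_le_rpow_of_exponent_le (by linarith) he1
      _ ≤ 2 := by rw [rpow_one]; linarith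
  have h3 := h.trans (div_le_div_of_nonneg_right h2 he.le)
  rw [a7_eq hs, show 4 / e * s ^ (-e) = 2 * (2 * s ^ (-e) / e) by ring]
  nlinarith

theorem a7_int {α : ℝ} (h1 : 1 < α) (h2 : α < 2) :
    IntegrableOn (fun s : ℝ => s ^ (α - 2) * gk 1 s) (Ioi 0) := by
  have he : 0 < (α - 1) / 2 := by linarith
  have hC : 1 ≤ 4 / ((α - 1) / 2) := (one_le_div he).2 (by linarith)
  refine integ_of_bound (C := 4 / ((α - 1) / 2)) (p := α - 2 + -((α - 1) / 2)) (q := α - 2 + -1)
    (fun s hs => ?_) (by linarith) (by linarith) (fun t ht ht1 => ?_) fun t ht => ?_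
  · have hs0 : s ≠ 0 := ne_of_gt hs
    have hs1 : 1 + s ≠ 0 := by have : 0 < s := hs; positivity
    refine ContinuousAt.continuousWithinAt ((continuousAt_rpow_const _ _ (Or.inl hs0)).mul ?_)
    unfold gk
    fun_prop (disch := assumption)
  · rw [abs_of_pos (mul_pos (rpow_pos_of_pos ht _) (a7_pos ht)), rpow_add ht, mul_left_comm]
    exact mul_le_mul_of_nonneg_left (a7_near ht ht1 he (by linarith)) (rpow_nonneg ht.le _)
  · have t0 : 0 < t := by linarith
    rw [abs_of_pos (mul_pos (rpow_pos_of_pos t0 _) (a7_pos t0)), rpow_add t0, mul_left_comm,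
      rpow_neg_one]
    exact mul_le_mul_of_nonneg_left ((a7_far t0).trans (le_mul_of_one_le_left (by positivity) hC))
      (rpow_nonneg t0.le _)

theorem a7_scale {x t : ℝ} (hx : 0 < x) (ht : 0 < t) : gk x (x * t) = x * gk 1 t := by
  rw [gk, gk, show x + x * t = x * (1 + t) by ring, log_mul hx.ne' (by positivity),
    log_mul hx.ne' ht.ne']
  ring

theorem a7_hock {α d r : ℝ} (h1 : 1 < α) (hd : 0 < d) (hr : 0 < r) :
    IntegrableOn (fun s : ℝ => s ^ (α - 2) * max (d - r * s) 0) (Ioi 0) ∧
    ∫ s in Ioi (0 : ℝ), s ^ (α - 2) * max (d - r * s) 0 =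
      r ^ (1 - α) * d ^ α / (α * (α - 1)) := by
  have hb : 0 < d / r := div_pos hd hr
  have e : EqOn ((Ioc 0 (d / r)).indicator fun s : ℝ => d * s ^ (α - 2) - r * s ^ (α - 1))
      (fun s : ℝ => s ^ (α - 2) * max (d - r * s) 0) (Ioi 0) := fun s hs => by
    have hs0 : 0 < s := hs
    by_cases c : s ≤ d / r
    · have c' : r * s ≤ d := by rwa [le_div_iff₀' hr] at c
      rw [indicator_of_mem (show s ∈ Ioc 0 (d / r) from ⟨hs0, c⟩)]
      simp only
      rw [max_eq_left (by linarith), show α - 1 = α - 2 + 1 by ring, rpow_add_one hs0.ne']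
      ring
    · have c' : d < r * s := by rwa [not_le, div_lt_iff₀' hr] at c
      rw [indicator_of_notMem fun h => c h.2]
      simp only
      rw [max_eq_right (by linarith), mul_zero]
  have i1 : IntervalIntegrable (fun s : ℝ => d * s ^ (α - 2)) volume 0 (d / r) :=
    (intervalIntegral.intervalIntegrable_rpow' (by linarith)).const_mul d
  have i2 : IntervalIntegrable (fun s : ℝ => r * s ^ (α - 1)) volume 0 (d / r) :=
    (intervalIntegral.intervalIntegrable_rpow' (by linarith)).const_mul r
  have i3 := (intervalIntegrable_iff_integrableOn_Ioc_of_le hb.le).1 (i1.sub i2)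
  refine ⟨((i3.integrable_indicator measurableSet_Ioc).integrableOn).congr_fun e
    measurableSet_Ioi, ?_⟩
  rw [← setIntegral_congr_fun measurableSet_Ioi e, setIntegral_indicator measurableSet_Ioc,
    inter_eq_right.2 Ioc_subset_Ioi_self, ← intervalIntegral.integral_of_le hb.le,
    intervalIntegral.integral_sub i1 i2, intervalIntegral.integral_const_mul,
    intervalIntegral.integral_const_mul, integral_rpow (Or.inl (by linarith)),
    integral_rpow (Or.inl (by linarith)), zero_rpow (by linarith), zero_rpow (by linarith),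
    show α - 2 + 1 = α - 1 by ring, rpow_add_one hb.ne', div_rpow hd.le hr.le,
    show 1 - α = -(α - 1) by ring, rpow_neg hr.le, rpow_sub_one hd.ne']
  have a0 : α ≠ 0 := by linarith
  have a1 : α - 1 ≠ 0 := by linarith
  have r1 : r ^ (α - 1) ≠ 0 := (rpow_pos_of_pos hr _).ne'
  rw [sub_add_cancel]
  field_simp
  ring

theorem a7S : A7S := by
  intro α h1 h2
  have hi := a7_int h1 h2
  have a0 : α ≠ 0 := by linarith
  refine ⟨integ_pos hi fun t ht => mul_pos (rpow_pos_of_pos ht _) (a7_pos ht), fun x hx => ?_,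
    fun d r hr => ?_⟩
  · rcases hx.eq_or_lt with rfl | hx
    · simp [gk, zero_rpow a0]
    · obtain ⟨i, e⟩ := integ_scale (f := fun s => s ^ (α - 2) * gk x s) (k := x ^ (α - 2) * x)
        hx hi fun t ht => by
          rw [a7_scale hx ht, mul_rpow hx.le ht.le]
          ring
      refine ⟨i, ?_⟩
      rw [e, J1, show x ^ α = x ^ (α - 2 + 1 + 1) by congr 1; ring, rpow_add_one hx.ne',
        rpow_add_one hx.ne']
      ring
  · rcases le_or_gt d 0 with hd | hd
    · have e : EqOn (fun _ : ℝ => (0 : ℝ)) (fun s : ℝ => s ^ (α - 2) * max (d - r * s) 0)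
          (Ioi 0) := fun s hs => by
        have := mul_pos hr (show 0 < s from hs)
        simp only
        rw [max_eq_right (by linarith), mul_zero]
      refine ⟨integrableOn_zero.congr_fun e measurableSet_Ioi, ?_⟩
      rw [← setIntegral_congr_fun measurableSet_Ioi e, max_eq_right hd, zero_rpow a0]
      simp
    · rw [max_eq_left hd.le]
      exact a7_hock h1 hd hr

end Pool.Agent.MP_560646_mp.One
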