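import Pool.Agent.MP_560646_mp.One.Stm

/-! The tangent-line bound for the scalar kernel and its matrix form. -/

set_option autoImplicit false

namespace Pool.Agent.MP_560646_mp.One

open Matrix Kronecker Real Set MeasureTheory
open scoped ComplexOrder MatrixOrder

theorem b_der {v l x : ℝ} (hv : v ∈ Icc (0 : ℝ) 1) (hx : x ∈ Ico (0 : ℝ) 1) :
    HasDerivAt (ph v l) (pd v l x) x := by
  have h1 : 0 < 1 - x := by linarith [hx.2]
  have h2 : 0 < 1 - v * x := by nlinarith [hv.1, hv.2, hx.1]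
  have a := (((hasDerivAt_id x).const_mul v).const_sub 1).log (by simpa using h2.ne')
  have b := ((hasDerivAt_id x).const_sub 1).log (by simpa using h1.ne')
  have c := (a.sub (b.const_mul l)).add ((hasDerivAt_id x).const_mul (v - l))
  refine HasDerivAt.congr_deriv (f := ph v l) c ?_
  simp only [pd, id]
  field_simp
  ring

theorem b_mono {v l a b : ℝ} (hv : v ∈ Icc (0 : ℝ) 1) (hl : v ^ 2 ≤ l) (ha : 0 ≤ a) (hab : a ≤ b)
    (hb : b < 1) : pd v l a ≤ pd v l b := by
  have h1 : 0 < 1 - a := by linarith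
  have h2 : 0 < 1 - b := by linarith
  have h3 : 1 - a ≤ 1 - v * a := by nlinarith [hv.2]
  have h4 : 1 - b ≤ 1 - v * b := by nlinarith [hv.2]
  have h5 : 0 < 1 - v * a := by linarith
  have h6 : 0 < 1 - v * b := by linarith
  have e : pd v l b - pd v l a =
      (b - a) * (l / ((1 - a) * (1 - b)) - v ^ 2 / ((1 - v * a) * (1 - v * b))) := by
    have h7 : 1 - a * v ≠ 0 := by rw [mul_comm]; exact h5.ne'
    have h8 : 1 - b * v ≠ 0 := by rw [mul_comm]; exact h6.ne'
    simp only [pd]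
    field_simp
    ring
  have k : v ^ 2 / ((1 - v * a) * (1 - v * b)) ≤ l / ((1 - a) * (1 - b)) :=
    div_le_div₀ ((sq_nonneg v).trans hl) hl (mul_pos h1 h2) (mul_le_mul h3 h4 h2.le h5.le)
  have := mul_nonneg (sub_nonneg.2 hab) (sub_nonneg.2 k)
  linarith

theorem a8S : A8S := by
  intro v l z x hv hl hz hx
  have mv : ∀ a b : ℝ, 0 ≤ a → a < b → b < 1 → ∃ c ∈ Ioo a b,
      pd v l c * (b - a) = ph v l b - ph v l a := by
    intro a b ha hab hb
    obtain ⟨c, hc, e⟩ := exists_hasDerivAt_eq_slope (ph v l) (pd v l) hab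
      (fun u hu => (b_der hv ⟨ha.trans hu.1, hu.2.trans_lt hb⟩).continuousAt.continuousWithinAt)
      (fun u hu => b_der hv ⟨ha.trans hu.1.le, hu.2.trans hb⟩)
    exact ⟨c, hc, by rw [e, div_mul_cancel₀ _ (sub_pos.2 hab).ne']⟩
  rcases lt_trichotomy z x with h | rfl | h
  · obtain ⟨c, hc, e⟩ := mv z x hz.1 h hx.2
    have := mul_le_mul_of_nonneg_right (b_mono hv hl hz.1 hc.1.le (hc.2.trans hx.2))
      (sub_pos.2 h).le
    linarith
  · simp
  · obtain ⟨c, hc, e⟩ := mv x z hx.1 h hz.2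
    have := mul_le_mul_of_nonneg_right (b_mono hv hl (hx.1.trans hc.1.le) hc.2.le hz.2)
      (sub_pos.2 h).le
    linarith

theorem bS : BS := by
  intro n _ _ V s D hs hD h₁ h₂ y hy l hl t ht z hz
  have ha : ∀ i, 0 < s i + t := fun i => by have := hs i; positivity
  set S := ud V s with hS
  have e : S + t • (1 : Matrix n n ℂ) = ud V fun i => s i + t := ud_shift V s t
  set Y := ud V fun i => √(s i + t) with hY
  set Z := ud V fun i => (√(s i + t))⁻¹ with hZ
  have hZh : Z.IsHermitian := ud_herm _ _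
  have yz : Y * Z = 1 := by
    rw [hY, hZ, ud_mul, ← ud_one V]
    simp only [mul_inv_cancel₀ (sqrt_pos.2 (ha _)).ne']
  have yy : Y * Y = S + t • 1 := by
    rw [hY, ud_mul, e]
    simp only [mul_self_sqrt (ha _).le]
  have y0 : det Y ≠ 0 := left_ne_zero_of_mul_eq_one (by rw [← det_mul, yz, det_one])
  have hA : (Z * D * Z).IsHermitian := by
    have := isHermitian_mul_mul_conjTranspose Z hD
    rwa [hZh.eq] at this
  obtain ⟨W, μ, hμ⟩ := herm_ud hA
  have key : ∀ x c : ℝ, x • (S + t • 1) + c • D = Y * ud W (fun i => c * μ i + x) * Y := by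
    intro x c
    rw [← ud_shift, ← ud_smul, ← hμ, mul_add, add_mul, mul_smul_comm, smul_mul_assoc,
      mul_smul_comm, smul_mul_assoc, mul_one, yy, ← mul_assoc, ← mul_assoc, yz, one_mul, mul_assoc,
      mul_eq_one_comm.1 yz, mul_one, add_comm]
  have pos : ∀ c : ℝ, (S + c • D).PosSemidef → ∀ i, 0 < c * μ i + 1 := by
    intro c hc i
    have p := shift_pd hc ht
    rw [add_right_comm, ← one_smul ℝ (S + t • 1), key] at p
    have q := psd_sandwich hZh p.posSemidef
    rw [← mul_assoc, ← mul_assoc, mul_eq_one_comm.1 yz, one_mul, mul_assoc, yz, mul_one] at q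
    have r := dg_nonneg W q i
    rw [dg_self] at r
    refine r.lt_of_ne' fun h => p.det_pos.ne' ?_
    rw [det_mul, det_mul, det_ud W, Finset.prod_eq_zero (Finset.mem_univ i) h]
    simp
  have lt : ∀ i, |μ i| < 1 := fun i => by
    have a := pos 1 (by simpa using h₁) i
    have b := pos (-1) (by simpa [sub_eq_add_neg] using h₂) i
    exact abs_lt.2 ⟨by linarith, by linarith⟩
  have sm : ∀ c : ℝ, |c| ≤ 1 → ∀ i, |c * μ i| < 1 := fun c hc i => by
    rw [abs_mul]
    nlinarith [lt i, abs_nonneg c, abs_nonneg (μ i)]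
  have lds : ∀ c : ℝ, |c| ≤ 1 → ld (S + c • D + t • 1) = 2 * ld Y + ∑ i, log (c * μ i + 1) := by
    intro c hc
    have nz : ∀ i, c * μ i + 1 ≠ 0 := fun i => by linarith [(abs_lt.1 (sm c hc i)).1]
    have dz : det (ud W fun i => c * μ i + 1) ≠ 0 := by
      rw [det_ud, Complex.ofReal_ne_zero]
      exact Finset.prod_ne_zero_iff.2 fun i _ => nz i
    rw [add_right_comm, ← one_smul ℝ (S + t • 1), key,
      ld_mul (by rw [det_mul]; exact mul_ne_zero y0 dz) y0, ld_mul y0 dz, ld_ud W nz]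
    ring
  have two : ∀ c : ℝ, |c| ≤ 1 → ld (S + c • D + t • 1) + ld (S - c • D + t • 1) -
      2 * ld (S + t • 1) = ∑ i, log (1 - c ^ 2 * μ i ^ 2) := by
    intro c hc
    have z0 := lds 0 (by simp)
    rw [zero_smul, add_zero] at z0
    rw [sub_eq_add_neg S, ← neg_smul, lds c hc, lds (-c) (by rwa [abs_neg]), z0]
    have x : ∀ i, log (1 - c ^ 2 * μ i ^ 2) = log (c * μ i + 1) + log (-c * μ i + 1) := fun i => by
      have := abs_lt.1 (sm c hc i)
      rw [← log_mul (by linarith [this.1]) (by linarith [this.2])]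
      congr 1
      ring
    simp only [x, Finset.sum_add_distrib, zero_mul, zero_add, log_one, Finset.sum_const_zero]
    ring
  have ovA : ∀ i j, ov V V (Z * D * Z) i j = ov V V D i j * ((s i + t) * (s j + t))⁻¹ := by
    intro i j
    unfold ov
    rw [← tw_mul V V V, ← tw_mul V V V, hZ, tw_ud, mul_diagonal, diagonal_mul, map_mul, map_mul,
      Complex.normSq_ofReal, Complex.normSq_ofReal, ← mul_inv, ← mul_inv,
      mul_self_sqrt (ha i).le, mul_self_sqrt (ha j).le, mul_inv]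
    ring
  have row : ∀ i, ∑ j, ov V V D i j * ((s i + t) * (s j + t))⁻¹ =
      ∑ k, ov V W 1 i k * μ k ^ 2 := by
    intro i
    simp only [← ovA]
    rw [ov_row V V hA, hμ, ud_mul, dg_ud]
    refine Finset.sum_congr rfl fun k _ => ?_
    simp only [ov, tw, mul_one, sq]
  have col : ∀ f : n → ℝ, ∑ i, ∑ k, ov V W 1 i k * f k = ∑ k, f k := fun f => by
    rw [Finset.sum_comm]
    refine Finset.sum_congr rfl fun k _ => ?_
    rw [← Finset.sum_mul, ov_one_col, one_mul]
  have y1 : |y| ≤ 1 := abs_le.2 ⟨by linarith [hy.1], hy.2⟩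
  have hv : y ^ 2 ∈ Icc (0 : ℝ) 1 := ⟨sq_nonneg y, by nlinarith [hy.1, hy.2]⟩
  have t1 := two 1 (by simp)
  simp only [one_smul, one_pow, one_mul] at t1
  rw [two y y1, t1]
  simp only [row]
  rw [col fun k => μ k ^ 2, Finset.mul_sum, Finset.mul_sum, ← Finset.sum_sub_distrib,
    ← Finset.sum_add_distrib, ← Finset.sum_add_distrib]
  refine le_trans (Finset.sum_le_sum fun i _ => ?_) (col fun k => ph (y ^ 2) l (μ k ^ 2)).le
  have r : ∑ j, ov V V D i j * (pd (y ^ 2) l (z i) * ((s i + t) * (s j + t))⁻¹) =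
      pd (y ^ 2) l (z i) * ∑ k, ov V W 1 i k * μ k ^ 2 := by
    rw [← row, Finset.mul_sum]
    exact Finset.sum_congr rfl fun j _ => by ring
  have q : ph (y ^ 2) l (z i) - z i * pd (y ^ 2) l (z i) =
      ∑ k, ov V W 1 i k * (ph (y ^ 2) l (z i) - z i * pd (y ^ 2) l (z i)) := by
    rw [← Finset.sum_mul, ov_one_row, one_mul]
  rw [r, q, Finset.mul_sum, ← Finset.sum_add_distrib]
  refine Finset.sum_le_sum fun k _ => ?_
  have m : μ k ^ 2 ∈ Ico (0 : ℝ) 1 := ⟨sq_nonneg _, (sq_lt_one_iff_abs_lt_one _).2 (lt k)⟩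
  have := mul_le_mul_of_nonneg_left (a8S (y ^ 2) l (z i) (μ k ^ 2) hv hl (hz i) m)
    (Complex.normSq_nonneg (tw V W 1 i k))
  unfold ov
  linarith

end Pool.Agent.MP_560646_mp.One
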