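import Pool.Agent.MP_560646_mp.One.Stm

/-! Low moments of the pencil, zero rows, and the equality cases at orders two and three. -/

set_option autoImplicit false

namespace Pool.Agent.MP_560646_mp.One

open Matrix Kronecker Real Set MeasureTheory
open scoped ComplexOrder MatrixOrder

section
variable {n : Type} [Fintype n] [DecidableEq n]

theorem c_sq (U : unitary (Matrix n n ℂ)) (p : n → ℝ) :
    ∑ i, p i ^ 2 = rt (ud U p * ud U p) := by
  rw [ud_mul, rt_ud]
  exact Finset.sum_congr rfl fun i _ => by ring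

theorem c_cube (U : unitary (Matrix n n ℂ)) (p : n → ℝ) :
    ∑ i, p i ^ 3 = rt (ud U p * (ud U p * ud U p)) := by
  rw [ud_mul, ud_mul, rt_ud]
  exact Finset.sum_congr rfl fun i _ => by ring

omit [DecidableEq n] in
theorem c_exp2 (S E : Matrix n n ℂ) :
    rt ((S + E) * (S + E)) + rt ((S - E) * (S - E)) = 2 * rt (S * S) + 2 * rt (E * E) := by
  simp only [mul_add, add_mul, mul_sub, sub_mul, rt_add, rt_sub]
  ring

omit [DecidableEq n] in
theorem c_exp3 (S E : Matrix n n ℂ) :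
    rt ((S + E) * ((S + E) * (S + E))) + rt ((S - E) * ((S - E) * (S - E))) =
      2 * rt (S * (S * S)) + 6 * rt (S * (E * E)) := by
  have h₁ : rt (E * (S * E)) = rt (S * (E * E)) := by rw [rt_comm, mul_assoc]
  have h₂ : rt (E * (E * S)) = rt (S * (E * E)) := by rw [← mul_assoc, rt_comm]
  simp only [mul_add, add_mul, mul_sub, sub_mul, rt_add, rt_sub]
  linarith

theorem c_dd (V : unitary (Matrix n n ℂ)) {D : Matrix n n ℂ} (hD : D.IsHermitian) :
    ∑ i, ∑ j, ov V V D i j = rt (D * D) := by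
  rw [← sum_dg V]
  exact Finset.sum_congr rfl fun i _ => ov_row V V hD i

theorem c_sdd (V : unitary (Matrix n n ℂ)) (s : n → ℝ) {D : Matrix n n ℂ} (hD : D.IsHermitian) :
    ∑ i, ∑ j, ov V V D i j * (s i + s j) = 2 * rt (ud V s * (D * D)) := by
  have h₁ : ∑ i, ∑ j, ov V V D i j * s i = rt (ud V s * (D * D)) := by
    rw [rt_ud_mul]
    refine Finset.sum_congr rfl fun i _ => ?_
    rw [← Finset.sum_mul, ov_row V V hD, mul_comm]
  have h₂ : ∑ i, ∑ j, ov V V D i j * s j = rt (ud V s * (D * D)) := by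
    rw [← h₁, Finset.sum_comm]
    exact Finset.sum_congr rfl fun i _ => Finset.sum_congr rfl fun j _ => by
      rw [ov_symm V V hD]
  simp only [mul_add, Finset.sum_add_distrib, h₁, h₂]
  ring

theorem c_row {M : Matrix n n ℂ} (hM : M.PosSemidef) {i : n} (h : (M i i).re = 0) (j : n) :
    M i j = 0 := by
  obtain ⟨R, hR, e⟩ := exists_root hM
  have h₁ : ∑ l, Complex.normSq (R i l) = 0 := by
    rw [← row_normSq, hR.eq, e, h]
  have h₂ : ∀ l, R i l = 0 := fun l =>
    Complex.normSq_eq_zero.1 ((Finset.sum_eq_zero_iff_of_nonneg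
      fun l _ => Complex.normSq_nonneg _).1 h₁ l (Finset.mem_univ l))
  rw [← e, Matrix.mul_apply]
  simp [h₂]

end

theorem cS : CS := by
  intro n _ _ V s D hD
  refine ⟨fun U W p q y hp hq => ⟨?_, ?_, ?_⟩, fun h₁ h₂ i j hi => ?_⟩
  · rw [← rt_ud U, ← rt_ud W, ← rt_ud V, ← hp, ← hq, rt_add, rt_sub]
    ring
  · rw [c_sq U, c_sq W, c_sq V, ← hp, ← hq, c_exp2, c_dd V hD, smul_mul_smul_comm, rt_smul]
    ring
  · rw [c_cube U, c_cube W, c_cube V, ← hp, ← hq, c_exp3, c_sdd V s hD, smul_mul_smul_comm,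
      mul_smul_comm, rt_smul]
    ring
  · have a₁ := dg_nonneg V h₁ i
    have a₂ := dg_nonneg V h₂ i
    have a₃ := dg_add V (ud V s - D) D i
    have a₄ := dg_add V (ud V s) D i
    rw [sub_add_cancel, dg_self] at a₃
    rw [dg_self] at a₄
    have hM : (tw V V (ud V s + D)).PosSemidef :=
      h₁.conjTranspose_mul_mul_same (V : Matrix n n ℂ)
    have hz : (tw V V (ud V s + D) i i).re = 0 := by
      change dg V (ud V s + D) i = 0
      linarith
    have hr := c_row hM hz j
    have e : tw V V (ud V s + D) = tw V V (ud V s) + tw V V D := by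
      simp only [tw, mul_add, add_mul]
    rw [e, tw_ud, Matrix.add_apply] at hr
    have hd : (diagonal fun i => (s i : ℂ)) i j = 0 := by
      by_cases hij : i = j
      · subst hij
        simp [hi]
      · exact diagonal_apply_ne _ hij
    rw [hd, zero_add] at hr
    simp [ov, hr]

theorem c_pencil {n : Type} [Fintype n] [DecidableEq n] {S D : Matrix n n ℂ} (hS : S.IsHermitian)
    (hD : D.IsHermitian) : ∃ T T' : ℝ, ∀ y : ℝ,
      tp 2 (S + y • D) + tp 2 (S - y • D) = 2 * tp 2 S + 2 * y ^ 2 * T ∧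
      tp 3 (S + y • D) + tp 3 (S - y • D) = 2 * tp 3 S + 3 * y ^ 2 * T' := by
  obtain ⟨V, s, rfl⟩ := herm_ud hS
  refine ⟨∑ i, ∑ j, ov V V D i j, ∑ i, ∑ j, ov V V D i j * (s i + s j), fun y => ?_⟩
  obtain ⟨U, p, hp⟩ := herm_ud (hS.add (herm_smul hD y))
  obtain ⟨W, q, hq⟩ := herm_ud (hS.sub (herm_smul hD y))
  obtain ⟨-, h₂, h₃⟩ := (cS n V s D hD).1 U W p q y hp hq
  rw [hp, hq]
  simp only [tp_ud, Real.rpow_ofNat]
  exact ⟨h₂, h₃⟩

theorem gS : GS := by
  intro sg
  constructor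
  · intro n _ _ S D hS hD _ _ h₁ e _ y _ hk
    obtain ⟨T, T', h⟩ := c_pencil hS.1 hD
    have a := (h 1).1
    rw [one_smul, hk, h₁] at a
    rw [(h y).1, h₁]
    simp only [kk, Real.rpow_ofNat] at a ⊢
    have : T = e ^ 2 := by linarith
    rw [this]
    exact le_of_eq (by ring)
  · intro n _ _ S D hS hD _ _ h₁ e _ y _ hk
    obtain ⟨T, T', h⟩ := c_pencil hS.1 hD
    have a := (h 1).2
    rw [one_smul, hk, h₁] at a
    rw [(h y).2, h₁]
    simp only [kk, Real.rpow_ofNat] at a ⊢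
    have : T' = 2 * e ^ 2 := by linarith
    rw [this]
    exact le_of_eq (by ring)

end Pool.Agent.MP_560646_mp.One
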