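import Pool.Agent.MP_560646_mp.One.Stm

/-! Calculus for the comparison of the two branches. -/

set_option autoImplicit false

namespace Pool.Agent.MP_560646_mp.One

open Real Set

noncomputable def od (γ v : ℝ) : ℝ := (1 + v) ^ γ - (1 - v) ^ γ

theorem od_zero (γ : ℝ) : od γ 0 = 0 := by simp [od]

theorem kk_deriv (γ : ℝ) {v : ℝ} (h₀ : 0 ≤ v) (h₁ : v < 1) :
    HasDerivAt (kk γ) (γ * od (γ - 1) v) v := by
  have a := ((hasDerivAt_id' v).const_add 1).rpow_const (p := γ) (Or.inl (by linarith))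
  have b := ((hasDerivAt_id' v).const_sub 1).rpow_const (p := γ) (Or.inl (by linarith))
  exact (a.add b).congr_deriv (by unfold od; ring)

theorem od_deriv (γ : ℝ) {v : ℝ} (h₀ : 0 ≤ v) (h₁ : v < 1) :
    HasDerivAt (od γ) (γ * kk (γ - 1) v) v := by
  have a := ((hasDerivAt_id' v).const_add 1).rpow_const (p := γ) (Or.inl (by linarith))
  have b := ((hasDerivAt_id' v).const_sub 1).rpow_const (p := γ) (Or.inl (by linarith))
  exact (a.sub b).congr_deriv (by unfold kk; ring)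

theorem kk_pos (γ : ℝ) {v : ℝ} (h₀ : 0 ≤ v) (h₁ : v ≤ 1) : 0 < kk γ v :=
  add_pos_of_pos_of_nonneg (rpow_pos_of_pos (by linarith) _) (rpow_nonneg (by linarith) _)

theorem od_pos {γ v : ℝ} (hγ : 0 < γ) (h₀ : 0 < v) (h₁ : v ≤ 1) : 0 < od γ v :=
  sub_pos.2 (rpow_lt_rpow (by linarith) (by linarith) hγ)

theorem od_nonneg {γ v : ℝ} (hγ : 0 ≤ γ) (h₀ : 0 ≤ v) (h₁ : v ≤ 1) : 0 ≤ od γ v :=
  sub_nonneg.2 (rpow_le_rpow (by linarith) (by linarith) hγ)

theorem od_nonpos {γ v : ℝ} (hγ : γ ≤ 0) (h₀ : 0 ≤ v) (h₁ : v < 1) : od γ v ≤ 0 :=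
  sub_nonpos.2 (rpow_le_rpow_of_nonpos (by linarith) (by linarith) hγ)

theorem mono_ab {f f' : ℝ → ℝ} {a b : ℝ} (hab : a ≤ b)
    (hd : ∀ t ∈ Icc a b, HasDerivAt f (f' t) t) (h : ∀ t ∈ Ioo a b, 0 ≤ f' t) : f a ≤ f b :=
  monotoneOn_of_hasDerivWithinAt_nonneg (convex_Icc a b)
    (fun t ht => (hd t ht).continuousAt.continuousWithinAt)
    (fun t ht => (hd t (interior_subset ht)).hasDerivWithinAt)
    (fun t ht => h t (by rwa [interior_Icc] at ht)) (left_mem_Icc.2 hab) (right_mem_Icc.2 hab) hab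

/-- The monotone form of the rule of l'Hospital. -/
theorem lhop {A B A' B' : ℝ → ℝ} (hA : ∀ t, 0 ≤ t → t < 1 → HasDerivAt A (A' t) t)
    (hB : ∀ t, 0 ≤ t → t < 1 → HasDerivAt B (B' t) t) (a0 : A 0 = 0) (b0 : B 0 = 0)
    (bp : ∀ t, 0 < t → t < 1 → 0 < B' t)
    (h : ∀ s t, 0 < s → s ≤ t → t < 1 → A' s * B' t ≤ A' t * B' s) {w v : ℝ} (h₀ : 0 ≤ w)
    (hw : w ≤ v) (h₁ : v < 1) : A w * B v ≤ A v * B w := by
  rcases h₀.eq_or_lt with rfl | w0
  · simp [a0, b0]
  have w1 := hw.trans_lt h₁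
  have p := bp w w0 w1
  have k₁ := mono_ab (f := fun t => A' w * B t - B' w * A t) h₀
    (fun t ht => ((hB t ht.1 (ht.2.trans_lt w1)).const_mul _).sub
      ((hA t ht.1 (ht.2.trans_lt w1)).const_mul _))
    fun t ht => by linarith [h t w ht.1 ht.2.le w1]
  have k₂ := mono_ab (f := fun t => B' w * A t - A' w * B t) hw
    (fun t ht => ((hA t (h₀.trans ht.1) (ht.2.trans_lt h₁)).const_mul _).sub
      ((hB t (h₀.trans ht.1) (ht.2.trans_lt h₁)).const_mul _))
    fun t ht => by linarith [h w t w0 ht.1.le (ht.2.trans h₁)]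
  have k₃ := mono_ab h₀ (fun t ht => hB t ht.1 (ht.2.trans_lt w1))
    fun t ht => (bp t ht.1 (ht.2.trans w1)).le
  have k₄ := mono_ab hw (fun t ht => hB t (h₀.trans ht.1) (ht.2.trans_lt h₁))
    fun t ht => (bp t (w0.trans ht.1) (ht.2.trans h₁)).le
  simp only [a0, b0, mul_zero, sub_zero] at k₁ k₂ k₃
  refine le_of_mul_le_mul_left ?_ p
  nlinarith [mul_nonneg k₁ (sub_nonneg.2 k₄), mul_nonneg k₃ (sub_nonneg.2 k₂)]

theorem cross_neg {g s t : ℝ} (hg : g ≤ 0) (h₀ : 0 < s) (h : s ≤ t) (h₁ : t < 1) :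
    s * -od (g - 1) s * kk g t ≤ t * -od (g - 1) t * kk g s := by
  have s1 : 0 < 1 - s := by linarith
  have t1 : 0 < 1 - t := by linarith
  have a := rpow_le_rpow_of_nonpos (by linarith : 0 < 1 + s) (by linarith : 1 + s ≤ 1 + t) hg
  have b := rpow_le_rpow_of_nonpos t1 (by linarith : 1 - t ≤ 1 - s) hg
  have c := rpow_le_rpow_of_nonpos s1 (by linarith : 1 - s ≤ 1 + s) hg
  have a0 := rpow_pos_of_pos (by linarith : 0 < 1 + t) g
  unfold od kk
  rw [rpow_sub_one (by linarith), rpow_sub_one s1.ne', rpow_sub_one (by linarith),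
    rpow_sub_one t1.ne']
  generalize (1 + s) ^ g = x at *
  generalize (1 - s) ^ g = y at *
  generalize (1 + t) ^ g = x' at *
  generalize (1 - t) ^ g = y' at *
  have d : 0 ≤ x * y' - x' * y := by nlinarith
  have e₁ : 0 ≤ t / (1 + t) - s / (1 + s) := by
    rw [sub_nonneg, div_le_div_iff₀ (by linarith) (by linarith)]
    linarith
  have e₂ : t / (1 + t) - s / (1 + s) ≤ t / (1 - t) - s / (1 - s) := by
    rw [div_sub_div _ _ (by linarith) (by linarith), div_sub_div _ _ t1.ne' s1.ne']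
    exact div_le_div₀ (by nlinarith) (by nlinarith) (mul_pos t1 s1) (by nlinarith)
  have e₃ : 0 ≤ t / (1 - t) + t / (1 + t) := by
    have : 0 < t := by linarith
    positivity
  have f : (t / (1 + t) - s / (1 + s)) * x ≤ (t / (1 - t) - s / (1 - s)) * y :=
    mul_le_mul e₂ c (by linarith) (e₁.trans e₂)
  have k := mul_nonneg (sub_nonneg.2 f) (by linarith : 0 ≤ x' + y')
  have k' := mul_nonneg e₃ d
  calc _ = (s / (1 - s) * y - s / (1 + s) * x) * (x' + y') := by ring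
    _ ≤ (t / (1 - t) * y' - t / (1 + t) * x') * (x + y) := by linarith
    _ = _ := by ring

/-- The numerator of the elasticity of the odd part minus one. -/
noncomputable def qq (β v : ℝ) : ℝ := β * v * kk (β - 1) v - od β v

noncomputable def oo (β v : ℝ) : ℝ := β * (β - 1) * od (β - 2) v

theorem qq_deriv (β : ℝ) {v : ℝ} (h₀ : 0 ≤ v) (h₁ : v < 1) :
    HasDerivAt (qq β) (v * oo β v) v := by
  refine ((((hasDerivAt_id' v).const_mul β).mul (kk_deriv (β - 1) h₀ h₁)).sub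
    (od_deriv β h₀ h₁)).congr_deriv ?_
  rw [oo, show β - 1 - 1 = β - 2 by ring]
  ring

theorem oo_deriv (β : ℝ) {v : ℝ} (h₀ : 0 ≤ v) (h₁ : v < 1) :
    HasDerivAt (oo β) (β * (β - 1) * (β - 2) * kk (β - 3) v) v := by
  refine ((od_deriv (β - 2) h₀ h₁).const_mul _).congr_deriv ?_
  rw [show β - 2 - 1 = β - 3 by ring]
  ring

section
variable {β sg : ℝ} (h3 : β ≤ 3) (hs : 0 < sg * (β * (β - 1) * (β - 2)))
include h3 hs

omit h3 in
theorem oo_pos {v : ℝ} (h₀ : 0 < v) (h₁ : v < 1) : 0 < sg * oo β v := by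
  have k : ∀ t ∈ Icc 0 v, HasDerivAt (fun t => sg * oo β t)
      (sg * (β * (β - 1) * (β - 2) * kk (β - 3) t)) t := fun t ht =>
    (oo_deriv β ht.1 (ht.2.trans_lt h₁)).const_mul sg
  have := strictMonoOn_of_hasDerivWithinAt_pos (convex_Icc 0 v)
    (fun t ht => (k t ht).continuousAt.continuousWithinAt)
    (fun t ht => (k t (interior_subset ht)).hasDerivWithinAt)
    (fun t ht => by
      have ht := interior_subset ht
      rw [← mul_assoc]
      exact mul_pos hs (kk_pos _ ht.1 (ht.2.trans h₁.le)))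
    (left_mem_Icc.2 h₀.le) (right_mem_Icc.2 h₀.le) h₀
  simpa [oo, od_zero] using this

omit h3 in
theorem qq_pos {v : ℝ} (h₀ : 0 < v) (h₁ : v < 1) : 0 < sg * qq β v := by
  have k : ∀ t ∈ Icc 0 v, HasDerivAt (fun t => sg * qq β t) (sg * (t * oo β t)) t := fun t ht =>
    (qq_deriv β ht.1 (ht.2.trans_lt h₁)).const_mul sg
  have := strictMonoOn_of_hasDerivWithinAt_pos (convex_Icc 0 v)
    (fun t ht => (k t ht).continuousAt.continuousWithinAt)
    (fun t ht => (k t (interior_subset ht)).hasDerivWithinAt)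
    (fun t ht => by
      rw [interior_Icc] at ht
      rw [mul_left_comm]
      exact mul_pos ht.1 (oo_pos hs ht.1 (ht.2.trans h₁)))
    (left_mem_Icc.2 h₀.le) (right_mem_Icc.2 h₀.le) h₀
  simpa [qq, od_zero] using this

theorem vo_deriv {v : ℝ} (h₀ : 0 ≤ v) (h₁ : v < 1) :
    HasDerivAt (fun t => t * (sg * (β * (β - 1) * (β - 2)) * kk (β - 3) t))
      (sg * (β * (β - 1) * (β - 2)) * kk (β - 3) v +
        sg * (β * (β - 1) * (β - 2)) * (3 - β) * (v * -od (β - 3 - 1) v)) v :=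
  ((hasDerivAt_id' v).mul ((kk_deriv (β - 3) h₀ h₁).const_mul _)).congr_deriv (by ring)

theorem oo_cross {s t : ℝ} (h₀ : 0 ≤ s) (h : s ≤ t) (h₁ : t < 1) :
    s * (sg * (β * (β - 1) * (β - 2)) * kk (β - 3) s) * (sg * oo β t) ≤
      t * (sg * (β * (β - 1) * (β - 2)) * kk (β - 3) t) * (sg * oo β s) :=
  lhop (B := fun t => sg * oo β t) (B' := fun t => sg * (β * (β - 1) * (β - 2)) * kk (β - 3) t)
    (fun _ a b => vo_deriv h3 hs a b)
    (fun _ a b => ((oo_deriv β a b).const_mul sg).congr_deriv (by ring)) (by simp)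
    (by simp [oo, od_zero]) (fun _ a b => mul_pos hs (kk_pos _ a.le b.le))
    (fun s t a b c => by
      have := mul_le_mul_of_nonneg_left (cross_neg (by linarith : β - 3 ≤ 0) a b c)
        (mul_nonneg (mul_pos hs hs).le (by linarith : 0 ≤ 3 - β))
      linarith) h₀ h h₁

theorem rr_deriv {v : ℝ} (h₀ : 0 ≤ v) (h₁ : v < 1) :
    HasDerivAt (fun t => t ^ 2 * (sg * oo β t)) (2 * (v * (sg * oo β v)) +
      v * (v * (sg * (β * (β - 1) * (β - 2)) * kk (β - 3) v))) v :=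
  ((hasDerivAt_pow 2 v).mul ((oo_deriv β h₀ h₁).const_mul sg)).congr_deriv (by norm_num; ring)

theorem m_two {w v : ℝ} (h₀ : 0 ≤ w) (h : w ≤ v) (h₁ : v < 1) :
    w ^ 2 * (sg * oo β w) * (sg * qq β v) ≤ v ^ 2 * (sg * oo β v) * (sg * qq β w) :=
  lhop (B := fun t => sg * qq β t) (B' := fun t => t * (sg * oo β t))
    (fun _ a b => rr_deriv h3 hs a b)
    (fun _ a b => ((qq_deriv β a b).const_mul sg).congr_deriv (by ring)) (by simp)
    (by simp [qq, od_zero]) (fun _ a b => mul_pos a (oo_pos hs a b))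
    (fun s t a b c => by
      have := mul_le_mul_of_nonneg_left (oo_cross h3 hs a.le b c)
        (mul_nonneg a.le (a.le.trans b))
      linarith) h₀ h h₁

theorem three_q {v : ℝ} (h₀ : 0 ≤ v) (h₁ : v < 1) : 3 * (sg * qq β v) ≤ v ^ 2 * (sg * oo β v) := by
  have k : ∀ t, 0 ≤ t → t < 1 →
      sg * oo β t ≤ t * (sg * (β * (β - 1) * (β - 2)) * kk (β - 3) t) := fun t a b => by
    have := mono_ab a (fun x hx => (vo_deriv h3 hs hx.1 (hx.2.trans_lt b)).sub
      ((oo_deriv β hx.1 (hx.2.trans_lt b)).const_mul sg)) fun x hx => by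
        have := mul_nonneg (mul_nonneg hs.le (by linarith : 0 ≤ 3 - β)) (mul_nonneg hx.1.le
          (neg_nonneg.2 (od_nonpos (by linarith : β - 3 - 1 ≤ 0) hx.1.le (hx.2.trans b))))
        linarith
    simpa [oo, od_zero] using this
  have := mono_ab h₀ (fun x hx => (rr_deriv h3 hs hx.1 (hx.2.trans_lt h₁)).sub
    (((qq_deriv β hx.1 (hx.2.trans_lt h₁)).const_mul sg).const_mul 3)) fun x hx => by
      have := mul_le_mul_of_nonneg_left (k x hx.1.le (hx.2.trans h₁)) hx.1.le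
      linarith
  simpa [qq, od_zero] using this

end

end Pool.Agent.MP_560646_mp.One
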