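import Pool.Agent.MP_560646_mp.One.Cp

/-! The two one-variable inequalities behind the comparison of the branches. -/

set_option autoImplicit false

namespace Pool.Agent.MP_560646_mp.One

open Real Set

theorem poly_form (β : ℝ) {v : ℝ} (h₀ : 0 ≤ v) (h₁ : v < 1) :
    kk (β - 1) v = (1 + v) * (1 + v) ^ (β - 2) + (1 - v) * (1 - v) ^ (β - 2) ∧
      od β v = (1 + v) ^ 2 * (1 + v) ^ (β - 2) - (1 - v) ^ 2 * (1 - v) ^ (β - 2) ∧
      kk (β + 1) v = (1 + v) ^ 3 * (1 + v) ^ (β - 2) + (1 - v) ^ 3 * (1 - v) ^ (β - 2) := by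
  have k : ∀ x : ℝ, 0 < x → x ^ (β - 1) = x * x ^ (β - 2) ∧ x ^ β = x ^ 2 * x ^ (β - 2) ∧
      x ^ (β + 1) = x ^ 3 * x ^ (β - 2) := fun x hx => by
    refine ⟨?_, ?_, ?_⟩
    · rw [mul_comm, ← rpow_add_one hx.ne']; congr 1; ring
    · rw [← rpow_natCast, ← rpow_add hx]; congr 1; push_cast; ring
    · rw [← rpow_natCast, ← rpow_add hx]; congr 1; push_cast; ring
  obtain ⟨a, b, c⟩ := k (1 + v) (by linarith)
  obtain ⟨a', b', c'⟩ := k (1 - v) (by linarith)
  exact ⟨by rw [kk, a, a'], by rw [od, b, b'], by rw [kk, c, c']⟩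

/-- The two inequalities. -/
def HH (β sg : ℝ) : Prop := ∀ v : ℝ, 0 < v → v < 1 →
  β * v * kk (β - 1) v * (sg * qq β v) ≤ v ^ 2 * (sg * oo β v) * od β v ∧
    (3 * (β * v * kk (β - 1) v) * kk (β + 1) v - 3 * (β + 1) / 2 * v * od β v ^ 2) * (sg * qq β v) ≤
      kk (β + 1) v * od β v * (v ^ 2 * (sg * oo β v))

theorem hh_low {β : ℝ} (b₀ : 0 < β) (b₁ : β < 1) : HH β 1 := by
  have hs : 0 < 1 * (β * (β - 1) * (β - 2)) := by
    rw [one_mul, mul_assoc]
    exact mul_pos b₀ (mul_pos_of_neg_of_neg (by linarith) (by linarith))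
  have ode : ∀ t, 0 ≤ t → t < 1 → (1 - t ^ 2) * oo β t =
      (1 - β) * (2 * t * β * kk (β - 1) t - β * od β t) := fun t a b => by
    obtain ⟨e₁, e₂, -⟩ := poly_form β a b
    rw [e₁, e₂, oo, od]
    ring
  intro v v₀ v₁
  have q := qq_pos hs v₀ v₁
  have P := od_pos b₀ v₀ v₁.le
  have K := kk_pos (β + 1) v₀.le v₁.le
  have h := mono_ab (f := fun t => (1 - β) * (2 - β) / 3 * (t ^ 2 * od β t) - (1 - t ^ 2) * qq β t)
    v₀.le (fun t ht => (((hasDerivAt_pow 2 t).mul (od_deriv β ht.1 (ht.2.trans_lt v₁))).const_mul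
      _).sub (((hasDerivAt_pow 2 t).const_sub 1).mul (qq_deriv β ht.1 (ht.2.trans_lt v₁))))
    fun t ht => by
      have k := mul_nonneg (mul_nonneg ht.1.le (by positivity : 0 ≤ (β + 1) * (β + 2) / 3))
        (qq_pos hs ht.1 (ht.2.trans v₁)).le
      have o := ode t ht.1.le (ht.2.trans v₁)
      simp only [qq, Nat.cast_ofNat, Nat.add_one_sub_one, pow_one] at k ⊢
      refine k.trans_eq ?_
      linear_combination t * o
  simp only [od_zero, qq, mul_zero, zero_mul, sub_zero, one_mul] at h q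
  have o := ode v v₀.le v₁
  have w : 0 < 1 - v ^ 2 := by nlinarith
  have G : 3 * (β * v * kk (β - 1) v) * qq β v ≤ v ^ 2 * oo β v * od β v := by
    refine le_of_mul_le_mul_left ?_ w
    have x : 0 ≤ β * v * kk (β - 1) v := by linarith
    have k₁ := mul_nonneg x h
    have k₂ : 0 ≤ v ^ 2 * od β v * ((1 - β) * β) * (β * v * kk (β - 1) v - od β v) :=
      mul_nonneg (mul_nonneg (by positivity) (mul_nonneg (by linarith) b₀.le)) q.le
    simp only [qq]
    linear_combination 3 * k₁ + k₂ - v ^ 2 * od β v * o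
  have x : 0 ≤ β * v * kk (β - 1) v * qq β v := mul_nonneg (by linarith) q.le
  simp only [one_mul]
  refine ⟨by linarith, ?_⟩
  have k₁ := mul_le_mul_of_nonneg_left G K.le
  have k₂ : 0 ≤ 3 * (β + 1) / 2 * v * od β v ^ 2 * qq β v := mul_nonneg (by positivity) q.le
  linarith

theorem hh_mid {β : ℝ} (b₀ : 1 < β) (b₁ : β < 2) : HH β (-1) := by
  have hs : 0 < -1 * (β * (β - 1) * (β - 2)) := by
    have := mul_pos (mul_pos (by linarith : 0 < β) (by linarith : 0 < β - 1))
      (by linarith : 0 < 2 - β)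
    linarith
  intro v v₀ v₁
  have q := qq_pos hs v₀ v₁
  have P := od_pos (by linarith : 0 < β) v₀ v₁.le
  have K := kk_pos (β + 1) v₀.le v₁.le
  have r := three_q (by linarith) hs v₀.le v₁
  have e : β * v * kk (β - 1) v = od β v - -1 * qq β v := by rw [qq]; ring
  rw [e]
  generalize -1 * qq β v = q' at *
  generalize v ^ 2 * (-1 * oo β v) = r' at *
  have k₁ := mul_le_mul_of_nonneg_right r P.le
  have k₂ := mul_pos q q
  have k₃ := mul_pos q P
  refine ⟨by linarith, ?_⟩
  have k₄ := mul_le_mul_of_nonneg_left k₁ K.le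
  have k₅ := mul_pos k₂ K
  have k₆ : 0 ≤ 3 * (β + 1) / 2 * v * od β v ^ 2 * q' := by
    have : 0 < β + 1 := by linarith
    positivity
  linarith

theorem hh_high {β : ℝ} (b₀ : 2 < β) (b₁ : β < 3) : HH β 1 := by
  have hs : 0 < 1 * (β * (β - 1) * (β - 2)) := by
    have := mul_pos (mul_pos (by linarith : 0 < β) (by linarith : 0 < β - 1))
      (by linarith : 0 < β - 2)
    linarith
  have bd : ∀ t, 0 < t → t < 1 → oo β t ≤ 2 * od β t ∧ t * kk (β + 1) t ≤ 2 * od β t :=
    fun t t₀ t₁ => by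
    obtain ⟨-, e₂, e₃⟩ := poly_form β t₀.le t₁
    have a₁ : (1 + t) ^ (β - 2) ≤ 1 + t := rpow_le_self_of_one_le (by linarith) (by linarith)
    have a₂ : 1 ≤ (1 + t) ^ (β - 2) := one_le_rpow (by linarith) (by linarith)
    have a₃ : 1 - t ≤ (1 - t) ^ (β - 2) :=
      self_le_rpow_of_le_one (by linarith) (by linarith) (by linarith)
    have a₄ : (1 - t) ^ (β - 2) ≤ 1 := rpow_le_one (by linarith) (by linarith) (by linarith)
    rw [e₂, e₃, oo, od]
    generalize (1 + t) ^ (β - 2) = a at *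
    generalize (1 - t) ^ (β - 2) = b at *
    constructor
    · have c : β * (β - 1) * (a - b) ≤ 6 * (a - b) :=
        mul_le_mul_of_nonneg_right (by nlinarith) (by linarith)
      have d := mul_le_mul_of_nonneg_right a₃ (by nlinarith : 0 ≤ 6 - 2 * (1 - t) ^ 2)
      have t3 := pow_pos t₀ 3
      rcases le_total 0 (2 * (1 + t) ^ 2 - 6) with k | k
      · have := mul_nonneg k (by linarith : 0 ≤ a)
        have := mul_nonneg (by linarith : 0 ≤ 1 - t) (by nlinarith : 0 ≤ 6 - 2 * (1 - t) ^ 2)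
        linarith
      · have := mul_le_mul_of_nonneg_right a₁ (neg_nonneg.2 k)
        linarith
    · have c : 0 ≤ (1 + t) * (1 - t) := mul_nonneg (by linarith) (by linarith)
      have d : b * ((1 - t) * (2 - t)) ≤ a * ((1 + t) * (2 + t)) :=
        mul_le_mul (by linarith) (by nlinarith) (by nlinarith) (by linarith)
      have := mul_le_mul_of_nonneg_left d c
      linarith
  intro v v₀ v₁
  have q := qq_pos hs v₀ v₁
  have P := od_pos (by linarith : 0 < β) v₀ v₁.le
  have K := kk_pos (β + 1) v₀.le v₁.le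
  have r := three_q (by linarith) hs v₀.le v₁
  have h := mono_ab (f := fun t => 2 / 3 * (t ^ 2 * od β t) - qq β t)
    v₀.le (fun t ht => (((hasDerivAt_pow 2 t).mul (od_deriv β ht.1 (ht.2.trans_lt v₁))).const_mul
      _).sub (qq_deriv β ht.1 (ht.2.trans_lt v₁)))
    fun t ht => by
      have k := mul_nonneg ht.1.le (qq_pos hs ht.1 (ht.2.trans v₁)).le
      have o := mul_le_mul_of_nonneg_left (bd t ht.1 (ht.2.trans v₁)).1 ht.1.le
      simp only [qq, Nat.cast_ofNat, Nat.add_one_sub_one, pow_one] at k ⊢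
      linarith
  have z : qq β 0 = 0 := by simp [qq, od_zero]
  simp only [od_zero, z, mul_zero, sub_zero] at h
  have e : β * v * kk (β - 1) v = od β v + qq β v := by rw [qq]; ring
  have k := (bd v v₀ v₁).2
  rw [e]
  simp only [one_mul] at *
  generalize qq β v = q' at *
  generalize v ^ 2 * oo β v = r' at *
  generalize od β v = p at *
  generalize kk (β + 1) v = κ at *
  have k₁ := mul_le_mul_of_nonneg_right r P.le
  have v2 : v ^ 2 * p ≤ p := mul_le_of_le_one_left P.le (by nlinarith)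
  have k₂ := mul_le_mul_of_nonneg_right (by linarith : q' ≤ 2 * p) q.le
  refine ⟨by linarith, ?_⟩
  have k₃ := mul_le_mul_of_nonneg_left k₁ K.le
  have k₄ := mul_nonneg K.le h
  have k₅ := mul_le_mul_of_nonneg_left k (mul_pos v₀ P).le
  have k₆ : 0 ≤ (β - 2) * (v * p ^ 2) := mul_nonneg (by linarith) (by positivity)
  have k₇ : 0 ≤ v * p ^ 2 := by positivity
  have k₈ := mul_le_mul_of_nonneg_right
    (by linarith : 3 * (κ * q') ≤ 3 * (β + 1) / 2 * v * p ^ 2) q.le
  linarith

end Pool.Agent.MP_560646_mp.One
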