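import Pool.Agent.MP_560646_mp.One.Cq

/-! Comparison of the two branches of the bound for orders between 1 and 4. -/

set_option autoImplicit false

namespace Pool.Agent.MP_560646_mp.One

open Real Set

theorem three_sg {F R X a b : ℝ → ℝ} {c w : ℝ} (cont : ContinuousOn F (Icc 0 1))
    (dF : ∀ v ∈ Ioo (0 : ℝ) 1, HasDerivAt F (a v * R v) v) (ha : ∀ v ∈ Ioo (0 : ℝ) 1, 0 < a v)
    (dR : ∀ v ∈ Ioo (0 : ℝ) 1, HasDerivAt R (b v * (c - X v)) v) (hb : ∀ v ∈ Ioo (0 : ℝ) 1, 0 < b v)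
    (hX : MonotoneOn X (Ioo 0 1)) (hw : w ∈ Ioo (0 : ℝ) 1) (h₀ : F 0 = 0) (h₁ : F w = 0)
    (h₂ : F 1 = 0) {z : ℝ} (hz : z ∈ Icc (0 : ℝ) 1) : (z ≤ w → F z ≤ 0) ∧ (w ≤ z → 0 ≤ F z) := by
  have dip : ∀ p q r : ℝ, 0 < p → p < q → q < r → r < 1 → R q < R p → R q < R r → False := by
    intro p q r a₁ a₂ a₃ a₄ k₁ k₂
    have mv : ∀ p q : ℝ, 0 < p → p < q → q < 1 → ∃ t ∈ Ioo p q,
        b t * (c - X t) = (R q - R p) / (q - p) := fun p q a₁ a₂ a₃ =>
      exists_hasDerivAt_eq_slope R _ a₂ (fun t ht => (dR t ⟨a₁.trans_le ht.1,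
        ht.2.trans_lt a₃⟩).continuousAt.continuousWithinAt) fun t ht =>
          dR t ⟨a₁.trans ht.1, ht.2.trans a₃⟩
    obtain ⟨s, hs, e⟩ := mv p q a₁ a₂ (a₃.trans a₄)
    obtain ⟨t, ht, e'⟩ := mv q r (a₁.trans a₂) a₃ a₄
    have ms : s ∈ Ioo (0 : ℝ) 1 := ⟨a₁.trans hs.1, by linarith [hs.2]⟩
    have mt : t ∈ Ioo (0 : ℝ) 1 := ⟨by linarith [ht.1], ht.2.trans a₄⟩
    have x := neg_of_mul_neg_right (e ▸ div_neg_of_neg_of_pos (by linarith) (by linarith))
      (hb s ms).le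
    have y := pos_of_mul_pos_right (e' ▸ div_pos (by linarith) (by linarith)) (hb t mt).le
    have := hX ms mt (hs.2.trans ht.1).le
    linarith
  have mv : ∀ p q : ℝ, 0 ≤ p → p < q → q ≤ 1 → ∃ t ∈ Ioo p q, (F p < F q → 0 < R t) ∧
      (F q < F p → R t < 0) ∧ (F p = F q → R t = 0) := fun p q a₁ a₂ a₃ => by
    obtain ⟨t, ht, e⟩ := exists_hasDerivAt_eq_slope F _ a₂ (cont.mono (Icc_subset_Icc a₁ a₃))
      fun t ht => dF t ⟨a₁.trans_lt ht.1, ht.2.trans_le a₃⟩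
    have l := ha t ⟨a₁.trans_lt ht.1, ht.2.trans_le a₃⟩
    refine ⟨t, ht, fun k => pos_of_mul_pos_right (e ▸ div_pos (by linarith) (by linarith)) l.le,
      fun k => neg_of_mul_neg_right (e ▸ div_neg_of_neg_of_pos (by linarith) (by linarith)) l.le,
      fun k => ?_⟩
    rw [k, sub_self, zero_div] at e
    exact (mul_eq_zero.1 e).resolve_left l.ne'
  constructor
  · intro k
    by_contra x
    have z₀ : 0 < z := hz.1.lt_of_ne (by rintro rfl; linarith)
    have z₁ : z < w := k.lt_of_ne (by rintro rfl; linarith)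
    obtain ⟨p, hp, a, -, -⟩ := mv 0 z le_rfl z₀ hz.2
    obtain ⟨q, hq, -, b, -⟩ := mv z w hz.1 z₁ hw.2.le
    obtain ⟨r, hr, -, -, c⟩ := mv w 1 hw.1.le hw.2 le_rfl
    have a := a (by linarith)
    have b := b (by linarith)
    have c := c (by linarith)
    exact dip p q r hp.1 (hp.2.trans hq.1) (hq.2.trans hr.1) hr.2 (by linarith) (by linarith)
  · intro k
    by_contra x
    have z₀ : w < z := k.lt_of_ne (by rintro rfl; linarith)
    have z₁ : z < 1 := hz.2.lt_of_ne (by rintro rfl; linarith)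
    obtain ⟨p, hp, -, -, a⟩ := mv 0 w le_rfl hw.1 hw.2.le
    obtain ⟨q, hq, -, b, -⟩ := mv w z hw.1.le z₀ hz.2
    obtain ⟨r, hr, c, -, -⟩ := mv z 1 hz.1 z₁ le_rfl
    have a := a (by linarith)
    have b := b (by linarith)
    have c := c (by linarith)
    exact dip p q r hp.1 (hp.2.trans hq.1) (hq.2.trans hr.1) hr.2 (by linarith) (by linarith)

noncomputable def nw (β u v : ℝ) : ℝ :=
  od β (u * v) * kk (β - 1) v - u * kk (β - 1) (u * v) * od β v

theorem uv_mem {u v : ℝ} (hu : u ∈ Icc (0 : ℝ) 1) (hv : v ∈ Ioo (0 : ℝ) 1) :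
    0 ≤ u * v ∧ u * v ≤ v ∧ u * v < 1 :=
  ⟨mul_nonneg hu.1 hv.1.le, mul_le_of_le_one_left hv.1.le hu.2,
    (mul_le_of_le_one_left hv.1.le hu.2).trans_lt hv.2⟩

theorem nw_deriv (β : ℝ) {u v : ℝ} (hu : u ∈ Icc (0 : ℝ) 1) (hv : v ∈ Ioo (0 : ℝ) 1) :
    HasDerivAt (nw β u) ((β - 1) * (od β (u * v) * od (β - 2) v -
      u ^ 2 * od (β - 2) (u * v) * od β v)) v := by
  obtain ⟨a, -, b⟩ := uv_mem hu hv
  have d := (hasDerivAt_id' v).const_mul u
  refine ((((od_deriv β a b).comp v d).mul (kk_deriv (β - 1) hv.1.le hv.2)).sub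
    ((((kk_deriv (β - 1) a b).comp v d).const_mul u).mul (od_deriv β hv.1.le hv.2))).congr_deriv ?_
  simp only [Function.comp, show β - 1 - 1 = β - 2 by ring]
  ring

theorem sq_deriv (β : ℝ) {v : ℝ} (hv : v ∈ Ioo (0 : ℝ) 1) :
    HasDerivAt (fun t => √(kk (β + 1) t)) ((β + 1) * od β v / (2 * √(kk (β + 1) v))) v := by
  have := (kk_deriv (β + 1) hv.1.le hv.2).sqrt (kk_pos _ hv.1.le hv.2.le).ne'
  rwa [add_sub_cancel_right] at this

section
variable {β sg : ℝ} (b₀ : 0 < β) (h3 : β ≤ 3) (hs : 0 < sg * (β * (β - 1) * (β - 2)))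
  (hH : HH β sg)
include b₀ h3 hs hH

theorem xi_mon {u : ℝ} (hu : u ∈ Icc (0 : ℝ) 1) :
    MonotoneOn (fun v => sg * (√(kk (β + 1) v) ^ 3 * nw β u v / od β v ^ 3)) (Ioo 0 1) := by
  have hd := fun v (hv : v ∈ Ioo (0 : ℝ) 1) => ((((sq_deriv β hv).pow 3).mul (nw_deriv β hu hv)).div
    ((od_deriv β hv.1.le hv.2).pow 3) (pow_pos (od_pos b₀ hv.1 hv.2.le) 3).ne').const_mul sg
  refine monotoneOn_of_hasDerivWithinAt_nonneg (convex_Ioo 0 1)
    (fun t ht => (hd t ht).continuousAt.continuousWithinAt)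
    (fun t ht => (hd t (interior_subset ht)).hasDerivWithinAt) fun v hv => ?_
  replace hv := interior_subset hv
  obtain ⟨w₀, w₁, w₂⟩ := uv_mem hu hv
  have P := od_pos b₀ hv.1 hv.2.le
  have K := kk_pos (β + 1) hv.1.le hv.2.le
  have q := qq_pos hs hv.1 hv.2
  have m₁ : sg * qq β (u * v) * od β v ≤ sg * qq β v * od β (u * v) := by
    rcases w₀.eq_or_lt with z | z
    · simp [← z, qq, od_zero]
    have := mono_ab (f := fun t => sg * qq β t / od β t) w₁
      (fun t ht => ((qq_deriv β (w₀.trans ht.1) (ht.2.trans_lt hv.2)).const_mul sg).div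
        (od_deriv β (w₀.trans ht.1) (ht.2.trans_lt hv.2))
        (od_pos b₀ (z.trans_le ht.1) (ht.2.trans hv.2.le)).ne') fun t ht => by
      refine div_nonneg ?_ (sq_nonneg _)
      have t0 := z.trans ht.1
      refine nonneg_of_mul_nonneg_right ?_ t0
      linarith [(hH t t0 (ht.2.trans hv.2)).1]
    rwa [div_le_div_iff₀ (od_pos b₀ z w₂.le) P] at this
  have m₂ := m_two h3 hs w₀ w₁ hv.2
  have m₃ := (hH v hv.1 hv.2).2
  have r : 0 ≤ v ^ 2 * (sg * oo β v) := mul_nonneg (sq_nonneg v) (oo_pos hs hv.1 hv.2).le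
  have key : (3 * (β * v * kk (β - 1) v) * kk (β + 1) v - 3 * (β + 1) / 2 * v * od β v ^ 2) *
      (sg * qq β v * od β (u * v) - sg * qq β (u * v) * od β v) ≤ kk (β + 1) v * od β v *
      (v ^ 2 * (sg * oo β v) * od β (u * v) - (u * v) ^ 2 * (sg * oo β (u * v)) * od β v) := by
    refine le_of_mul_le_mul_left ?_ q
    have k₁ := mul_le_mul_of_nonneg_right m₃ (sub_nonneg.2 m₁)
    have k₂ := mul_le_mul_of_nonneg_left m₂ (mul_pos (mul_pos K P) P).le
    linarith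
  have s0 : 0 < √(kk (β + 1) v) := sqrt_pos.2 K
  have s2 := sq_sqrt K.le
  simp only [Pi.mul_apply, Pi.pow_apply, Nat.cast_ofNat, Nat.add_one_sub_one]
  rw [← s2] at key
  simp only [qq, oo] at key
  generalize √(kk (β + 1) v) = s at *
  have v0 := hv.1
  refine le_of_le_of_eq (mul_nonneg (by positivity : 0 ≤ s / (od β v ^ 4 * β * v ^ 2))
    (sub_nonneg.2 key)) ?_
  simp only [nw]
  field_simp
  ring

theorem three_kk {u w A B C : ℝ} (hu : u ∈ Icc (0 : ℝ) 1) (hw : w ∈ Ioo (0 : ℝ) 1) {F : ℝ → ℝ}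
    (hF : F = fun v => sg * (kk (β + 1) (u * v) - A - B * kk (β + 1) v - C * √(kk (β + 1) v)))
    (h₀ : F 0 = 0) (h₁ : F w = 0) (h₂ : F 1 = 0) {z : ℝ} (hz : z ∈ Icc (0 : ℝ) 1) :
    (z ≤ w → F z ≤ 0) ∧ (w ≤ z → 0 ≤ F z) := by
  have ck : Continuous (kk (β + 1)) :=
    ((continuous_rpow_const (by linarith)).comp (continuous_const.add continuous_id)).add
      ((continuous_rpow_const (by linarith)).comp (continuous_const.sub continuous_id))
  refine three_sg (a := fun v => (β + 1) * od β v)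
    (R := fun v => sg * (u * od β (u * v) / od β v - B - C / (2 * √(kk (β + 1) v))))
    (b := fun v => (β + 1) * od β v / √(kk (β + 1) v) ^ 3) (c := sg * C / 4)
    (X := fun v => β * u / (β + 1) * (sg * (√(kk (β + 1) v) ^ 3 * nw β u v / od β v ^ 3)))
    (by rw [hF]; fun_prop) (fun v hv => ?_)
    (fun v hv => mul_pos (by linarith) (od_pos b₀ hv.1 hv.2.le)) (fun v hv => ?_)
    (fun v hv => div_pos (mul_pos (by linarith) (od_pos b₀ hv.1 hv.2.le))
      (pow_pos (sqrt_pos.2 (kk_pos _ hv.1.le hv.2.le)) 3))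
    (fun s a t b c => mul_le_mul_of_nonneg_left (xi_mon b₀ h3 hs hH hu a b c)
      (div_nonneg (mul_nonneg b₀.le hu.1) (by linarith))) hw h₀ h₁ h₂ hz
  · obtain ⟨w₀, -, w₂⟩ := uv_mem hu hv
    have P := (od_pos b₀ hv.1 hv.2.le).ne'
    rw [hF]
    refine ((((((kk_deriv (β + 1) w₀ w₂).comp v ((hasDerivAt_id' v).const_mul u)).sub_const A).sub
      ((kk_deriv (β + 1) hv.1.le hv.2).const_mul B)).sub
      ((sq_deriv β hv).const_mul C)).const_mul sg).congr_deriv ?_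
    rw [add_sub_cancel_right]
    field_simp
  · obtain ⟨w₀, -, w₂⟩ := uv_mem hu hv
    have P := (od_pos b₀ hv.1 hv.2.le).ne'
    have s0 := (sqrt_pos.2 (kk_pos (β + 1) hv.1.le hv.2.le)).ne'
    have b1 : β + 1 ≠ 0 := by linarith
    refine (((((((od_deriv β w₀ w₂).comp v ((hasDerivAt_id' v).const_mul u)).const_mul u).div
      (od_deriv β hv.1.le hv.2) P).sub_const B).sub ((hasDerivAt_const v C).div
        ((sq_deriv β hv).const_mul 2) (mul_ne_zero two_ne_zero s0))).const_mul sg).congr_deriv ?_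
    simp only [nw, Function.comp]
    field_simp
    ring

end

end Pool.Agent.MP_560646_mp.One
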