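import Pool.Agent.MP_560646_mp.One.Cr

/-! The comparison of the branches in final form. -/

set_option autoImplicit false

namespace Pool.Agent.MP_560646_mp.One

open Real Set

/-- The comparison of the branches, with a sign. -/
def CP (α sg : ℝ) : Prop := ∀ x ∈ Icc (0 : ℝ) 1, ∀ y ∈ Icc (0 : ℝ) 1, ∀ x' ∈ Icc (0 : ℝ) 1,
  ∀ y' ∈ Icc (0 : ℝ) 1, kk α x * kk α x' = 2 * 2 ^ α → kk α y * kk α y' = 2 * 2 ^ α →
    2 * 2 ^ α ≤ kk α x * kk α y →
    sg * (kk α x * kk α y * kk α (x' * y')) ≤ sg * (2 * 2 ^ α * kk α (x * y))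

theorem kk_zero (α : ℝ) : kk α 0 = 2 := by rw [kk, add_zero, sub_zero, one_rpow]; norm_num

theorem kk_one {α : ℝ} (h : α ≠ 0) : kk α 1 = 2 ^ α := by
  rw [kk, sub_self, zero_rpow h]; norm_num

theorem kk_strict {α : ℝ} (h : 1 < α) : StrictMonoOn (kk α) (Icc 0 1) := by
  have ck : Continuous (kk α) :=
    ((continuous_rpow_const (by linarith)).comp (continuous_const.add continuous_id)).add
      ((continuous_rpow_const (by linarith)).comp (continuous_const.sub continuous_id))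
  refine strictMonoOn_of_hasDerivWithinAt_pos (f' := fun t => α * od (α - 1) t) (convex_Icc 0 1)
    ck.continuousOn (fun t ht => ?_) fun t ht => ?_ <;> rw [interior_Icc] at ht
  · exact (kk_deriv α ht.1.le ht.2).hasDerivWithinAt
  · exact mul_pos (by linarith) (od_pos (by linarith) ht.1 ht.2.le)

theorem exists_quad {a b c : ℝ} (h₁ : a < b) (h₂ : b < c) (p q r : ℝ) : ∃ A B C : ℝ,
    p - A - B * a ^ 2 - C * a = 0 ∧ q - A - B * b ^ 2 - C * b = 0 ∧ r - A - B * c ^ 2 - C * c = 0 := by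
  have k₁ : b - a ≠ 0 := by linarith
  have k₂ : c - b ≠ 0 := by linarith
  have k₃ : c - a ≠ 0 := by linarith
  obtain ⟨B, hB⟩ : ∃ B, B = ((r - q) / (c - b) - (q - p) / (b - a)) / (c - a) := ⟨_, rfl⟩
  obtain ⟨C, hC⟩ : ∃ C, C = (q - p) / (b - a) - B * (a + b) := ⟨_, rfl⟩
  refine ⟨p - B * a ^ 2 - C * a, B, C, by ring, ?_, ?_⟩
  · rw [hC]
    field_simp
    ring
  · rw [hC, hB]
    field_simp
    ring

theorem cp_gen {β sg : ℝ} (b₀ : 0 < β) (h3 : β ≤ 3) (hs : 0 < sg * (β * (β - 1) * (β - 2)))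
    (hH : HH β sg) : CP (β + 1) sg := by
  intro x hx y hy x' hx' y' hy' e e' h
  have o : (1 : ℝ) ∈ Icc (0 : ℝ) 1 := right_mem_Icc.2 zero_le_one
  have z : (0 : ℝ) ∈ Icc (0 : ℝ) 1 := left_mem_Icc.2 zero_le_one
  have st := kk_strict (by linarith : 1 < β + 1)
  have k0 := kk_zero (β + 1)
  have k1 := kk_one (by linarith : β + 1 ≠ 0)
  have px := kk_pos (β + 1) hx.1 hx.2
  have py := kk_pos (β + 1) hy.1 hy.2
  have px' := kk_pos (β + 1) hx'.1 hx'.2
  have py' := kk_pos (β + 1) hy'.1 hy'.2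
  have p2 : (0 : ℝ) < 2 ^ (β + 1) := rpow_pos_of_pos two_pos _
  have a : y' ≤ x := (st.le_iff_le hy' hx).1 (le_of_mul_le_mul_left (by linarith) py)
  have a' : x' ≤ y := (st.le_iff_le hx' hy).1 (le_of_mul_le_mul_left (by linarith) px)
  rcases hx.1.eq_or_lt with rfl | x₀
  · rw [le_antisymm a hy'.1] at e' ⊢
    rw [mul_zero, zero_mul, ← e', mul_comm (kk (β + 1) 0)]
  rcases hx'.1.eq_or_lt with rfl | x₀'
  · have : x = 1 := st.injOn hx o (by rw [k0] at e; linarith)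
    rw [this, one_mul, zero_mul, k0, k1]
    exact le_of_eq (by ring)
  have l₁ := st z hx x₀
  have l₂ := st z hx' x₀'
  have x₁ : x < 1 := hx.2.lt_of_ne (by rintro rfl; rw [k1] at e; nlinarith)
  have x₁' : x' < 1 := hx'.2.lt_of_ne (by rintro rfl; rw [k1] at e; nlinarith)
  have l₃ := st hx o x₁
  have s : ∀ t ∈ Icc (0 : ℝ) 1, 0 < √(kk (β + 1) t) ∧ √(kk (β + 1) t) ^ 2 = kk (β + 1) t :=
    fun t ht => ⟨sqrt_pos.2 (kk_pos _ ht.1 ht.2), sq_sqrt (kk_pos _ ht.1 ht.2).le⟩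
  obtain ⟨A, B, C, c₀, c₁, c₂⟩ := exists_quad (sqrt_lt_sqrt (by linarith) l₁)
    (sqrt_lt_sqrt px.le l₃) (kk (β + 1) (x' * 0)) (kk (β + 1) (x' * x)) (kk (β + 1) (x' * 1))
  have m₀ : √(kk (β + 1) 0) * √(kk (β + 1) 1) = √(2 * 2 ^ (β + 1)) := by
    rw [← sqrt_mul (by linarith), k0, k1]
  have m₁ : √(kk (β + 1) x) * √(kk (β + 1) x') = √(2 * 2 ^ (β + 1)) := by
    rw [← sqrt_mul px.le, e]
  have m₂ : √(kk (β + 1) y) * √(kk (β + 1) y') = √(2 * 2 ^ (β + 1)) := by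
    rw [← sqrt_mul py.le, e']
  have m₃ := sq_sqrt (by linarith : (0 : ℝ) ≤ 2 * 2 ^ (β + 1))
  have m₄ := sqrt_pos.2 (by linarith : (0 : ℝ) < 2 * 2 ^ (β + 1))
  have t₁ := (three_kk b₀ h3 hs hH (A := A) (B := B) (C := C) hx' ⟨x₀, x₁⟩ rfl
    (by rw [(s 0 z).2] at c₀; exact mul_eq_zero_of_right _ c₀)
    (by rw [(s x hx).2] at c₁; simp only [c₁, mul_zero])
    (by rw [(s 1 o).2] at c₂; simp only [c₂, mul_zero]) hy').1 a
  rw [← m₃]
  generalize √(2 * 2 ^ (β + 1)) = m at *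
  have T : ∀ g σ τ : ℝ, 0 < τ → σ * τ = m → g - A - B * σ ^ 2 - C * σ = 0 →
      kk (β + 1) x * τ ^ 2 * g / m ^ 2 - kk (β + 1) x * B - kk (β + 1) x * A / m ^ 2 * τ ^ 2 -
        kk (β + 1) x * C / m * τ = 0 := fun g σ τ τ0 k k' => by
    have : σ ≠ 0 := by
      rintro rfl
      linarith
    rw [show g = A + B * σ ^ 2 + C * σ by linarith, ← k]
    field_simp
    ring
  have t₂ := (three_kk b₀ h3 hs hH (A := kk (β + 1) x * B) (B := kk (β + 1) x * A / m ^ 2)
    (C := kk (β + 1) x * C / m) hx ⟨x₀', x₁'⟩ rfl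
    (by
      have := T _ _ _ (s 0 z).1 ((mul_comm _ _).trans m₀) c₂
      rw [(s 0 z).2, mul_one, mul_right_comm, e, ← m₃, mul_div_cancel_left₀ _ (by positivity)] at this
      simp only [mul_zero, this])
    (by
      have := T _ _ _ (s x' hx').1 m₁ c₁
      rw [(s x' hx').2, e, ← m₃, mul_div_cancel_left₀ _ (by positivity), mul_comm x'] at this
      simp only [mul_zero, this])
    (by
      have := T _ _ _ (s 1 o).1 m₀ c₀
      rw [(s 1 o).2, mul_zero, mul_assoc, k0, k1, mul_comm _ 2, ← m₃,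
        mul_div_cancel_right₀ _ (by positivity), ← k1] at this
      simp only [mul_zero, mul_one, this]) hy).2 a'
  rw [← (s y hy).2] at t₂ ⊢
  rw [← (s y' hy').2, sqrt_sq (s y' hy').1.le] at t₁
  rw [sqrt_sq (s y hy).1.le] at t₂
  have u := (s y hy).1
  have u' := (s y' hy').1
  generalize √(kk (β + 1) y) = σ at *
  generalize √(kk (β + 1) y') = τ at *
  subst m₂
  have k₁ := mul_le_mul_of_nonneg_left t₁ (mul_pos px (pow_pos u 2)).le
  have k₂ := mul_le_mul_of_nonneg_left t₂ (pow_pos m₄ 2).le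
  have k₃ : (σ * τ) ^ 2 * (sg * (kk (β + 1) (x * y) - kk (β + 1) x * B -
      kk (β + 1) x * A / (σ * τ) ^ 2 * σ ^ 2 - kk (β + 1) x * C / (σ * τ) * σ)) =
      sg * ((σ * τ) ^ 2 * kk (β + 1) (x * y)) -
        kk (β + 1) x * σ ^ 2 * (sg * (A + B * τ ^ 2 + C * τ)) := by
    field_simp
    ring
  linarith

theorem cp_two (sg : ℝ) : CP 2 sg := by
  intro x _ y _ x' _ y' _ e e' _
  simp only [kk, rpow_two] at *
  refine le_of_eq (congrArg _ ?_)
  linear_combination (2 + 2 * y ^ 2) * (2 * y' ^ 2) / 2 * e + (2 - 2 * x ^ 2) * e'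

theorem cp_three (sg : ℝ) : CP 3 sg := by
  intro x _ y _ x' _ y' _ e e' _
  simp only [kk, rpow_ofNat] at *
  refine le_of_eq (congrArg _ ?_)
  linear_combination (2 + 6 * y ^ 2) * y' ^ 2 * e + (2 - 2 * x ^ 2) * e'

theorem cp_pos {α : ℝ} (h₁ : 1 < α) (h₄ : α < 4) (h : α ≤ 2 ∨ 3 ≤ α) : CP α 1 := by
  rw [← sub_add_cancel α 1]
  rcases h with h | h
  · rcases h.eq_or_lt with rfl | h
    · rw [sub_add_cancel]
      exact cp_two 1
    · refine cp_gen (by linarith) (by linarith) ?_ (hh_low (by linarith) (by linarith))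
      rw [one_mul, mul_assoc]
      exact mul_pos (by linarith) (mul_pos_of_neg_of_neg (by linarith) (by linarith))
  · rcases h.eq_or_lt with rfl | h
    · rw [sub_add_cancel]
      exact cp_three 1
    · refine cp_gen (by linarith) (by linarith) ?_ (hh_high (by linarith) (by linarith))
      rw [one_mul]
      exact mul_pos (mul_pos (by linarith) (by linarith)) (by linarith)

theorem cp_neg {α : ℝ} (h₂ : 2 ≤ α) (h₃ : α ≤ 3) : CP α (-1) := by
  rcases h₂.eq_or_lt with rfl | h₂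
  · exact cp_two _
  rcases h₃.eq_or_lt with rfl | h₃
  · exact cp_three _
  rw [← sub_add_cancel α 1]
  refine cp_gen (by linarith) (by linarith) ?_ (hh_mid (by linarith) (by linarith))
  have := mul_pos (mul_pos (by linarith : 0 < α - 1) (by linarith : 0 < α - 1 - 1))
    (by linarith : 0 < 2 - (α - 1))
  linarith

end Pool.Agent.MP_560646_mp.One
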