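import Pool.Agent.MP_560646_mp.One.Stm

/-! The function `r ↦ th r ^ (1 / α) + r` is monotone. -/

set_option autoImplicit false

namespace Pool.Agent.MP_560646_mp.One

open Matrix Real
open scoped ComplexOrder MatrixOrder

variable {n : Type} [Fintype n] [DecidableEq n]

theorem d1_young {α q l : ℝ} (h : α.HolderConjugate q) (hl : 0 < l) {X : Matrix n n ℂ}
    (hX : X.IsHermitian) (V : unitary (Matrix n n ℂ)) {y : n → ℝ} (hy : ∀ i, 0 ≤ y i) :
    rt (X * ud V y) ≤ l * (pa α X / l ^ α / α + (∑ k, y k ^ q) / q) := by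
  obtain ⟨U, d, rfl⟩ := herm_ud hX
  have e : ∀ i k, Complex.normSq ((star (U : Matrix n n ℂ) * (V : Matrix n n ℂ)) i k) =
      ov U V 1 i k := fun i k => by simp [ov, tw, star_eq_conjTranspose]
  have h1 : ∀ i k, d i * (ov U V 1 i k * y k) ≤
      l * (ov U V 1 i k * (max (d i) 0 ^ α / l ^ α / α) + ov U V 1 i k * (y k ^ q / q)) := by
    intro i k
    have h2 := Real.young_inequality_of_nonneg (div_nonneg (le_max_right (d i) 0) hl.le) (hy k) h
    rw [div_rpow (le_max_right _ _) hl.le] at h2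
    have h3 : d i * y k ≤ l * (max (d i) 0 / l * y k) := by
      rw [← mul_assoc, mul_div_cancel₀ _ hl.ne']
      exact mul_le_mul_of_nonneg_right (le_max_left _ _) (hy k)
    have h4 := mul_le_mul_of_nonneg_left (h3.trans (mul_le_mul_of_nonneg_left h2 hl.le))
      (ov_nonneg U V 1 i k)
    linarith
  rw [rt_ud_mul, pa_ud]
  simp only [dg_ud, e, Finset.mul_sum]
  refine (Finset.sum_le_sum fun i _ => Finset.sum_le_sum fun k _ => h1 i k).trans (le_of_eq ?_)
  simp only [← Finset.mul_sum, Finset.sum_add_distrib]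
  rw [Finset.sum_comm (f := fun i k => ov U V 1 i k * (y k ^ q / q))]
  simp only [← Finset.sum_mul, ov_one_row, ov_one_col, one_mul, Finset.sum_div]

theorem d1_pa_nonneg (α : ℝ) {X : Matrix n n ℂ} (hX : X.IsHermitian) : 0 ≤ pa α X := by
  obtain ⟨U, d, rfl⟩ := herm_ud hX
  rw [pa_ud]
  positivity

theorem d1_hold {α q : ℝ} (h : α.HolderConjugate q) {X X' : Matrix n n ℂ}
    (hX : X.IsHermitian) (hX' : X'.IsHermitian) (V V' : unitary (Matrix n n ℂ)) {y y' : n → ℝ}
    (hy : ∀ i, 0 ≤ y i) (hy' : ∀ i, 0 ≤ y' i) (hq : ∑ k, y k ^ q + ∑ k, y' k ^ q ≤ 1) :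
    rt (X * ud V y) + rt (X' * ud V' y') ≤ (pa α X + pa α X') ^ α⁻¹ := by
  have A0 := add_nonneg (d1_pa_nonneg α hX) (d1_pa_nonneg α hX')
  refine le_of_forall_gt_imp_ge_of_dense fun l hl => ?_
  have l0 : 0 < l := (rpow_nonneg A0 _).trans_lt hl
  have h1 : (pa α X + pa α X') / l ^ α ≤ 1 := by
    rw [div_le_one (rpow_pos_of_pos l0 _), ← rpow_inv_rpow A0 h.ne_zero]
    exact rpow_le_rpow (rpow_nonneg A0 _) hl.le h.nonneg
  have h2 := div_le_div_of_nonneg_right h1 h.nonneg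
  have h3 := div_le_div_of_nonneg_right hq h.symm.nonneg
  have h4 := h.one_div_add_one_div
  rw [add_div, add_div] at h2
  rw [add_div] at h3
  have h5 := add_le_add (d1_young h l0 hX V hy) (d1_young h l0 hX' V' hy')
  rw [← mul_add] at h5
  refine h5.trans (mul_le_of_le_one_right l0.le ?_)
  rw [div_one] at h4
  linarith

theorem d1_opt {α q : ℝ} (h : α.HolderConjugate q) (U V : unitary (Matrix n n ℂ)) (d e : n → ℝ) :
    ∃ c : ℝ, 0 ≤ c ∧
      ∑ k, (c * max (d k) 0 ^ (α - 1)) ^ q + ∑ k, (c * max (e k) 0 ^ (α - 1)) ^ q ≤ 1 ∧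
      rt (ud U d * ud U fun k => c * max (d k) 0 ^ (α - 1)) +
        rt (ud V e * ud V fun k => c * max (e k) 0 ^ (α - 1)) =
        (pa α (ud U d) + pa α (ud V e)) ^ α⁻¹ := by
  have A0 := add_nonneg (d1_pa_nonneg α (ud_herm U d)) (d1_pa_nonneg α (ud_herm V e))
  have h1 : ∀ c x : ℝ, x * (c * max x 0 ^ (α - 1)) = c * max x 0 ^ α := fun c x => by
    rcases le_or_gt x 0 with hx | hx
    · rw [max_eq_right hx, zero_rpow h.ne_zero, zero_rpow h.sub_one_ne_zero]
      simp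
    · rw [max_eq_left hx.le, rpow_sub_one hx.ne']
      field_simp
  have h2 : ∀ c x : ℝ, 0 ≤ c → (c * max x 0 ^ (α - 1)) ^ q = c ^ q * max x 0 ^ α := by
    intro c x hc
    rw [mul_rpow hc (by positivity), ← rpow_mul (le_max_right _ _), h.sub_one_mul_conj]
  rw [pa_ud, pa_ud] at *
  generalize hA : ∑ i, max (d i) 0 ^ α + ∑ i, max (e i) 0 ^ α = A at *
  have c0 : 0 ≤ A ^ α⁻¹ / A := by positivity
  refine ⟨A ^ α⁻¹ / A, c0, ?_, ?_⟩
  · simp only [h2 _ _ c0, ← Finset.mul_sum, ← mul_add, hA]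
    rcases A0.eq_or_lt with h0 | h0
    · simp [← h0]
    · rw [← rpow_sub_one h0.ne', ← rpow_mul A0, ← rpow_add_one h0.ne']
      have : (α⁻¹ - 1) * q + 1 = 0 := by
        have h3 := h.inv_add_inv_eq_one
        have h4 := h.symm.ne_zero
        rw [show α⁻¹ - 1 = -q⁻¹ by linarith]
        field_simp
        ring
      rw [this, rpow_zero]
  · simp only [ud_mul, rt_ud, h1, ← Finset.mul_sum, ← mul_add, hA]
    rcases A0.eq_or_lt with h0 | h0
    · simp [← h0, zero_rpow (inv_ne_zero h.ne_zero)]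
    · field_simp

theorem d1S : D1S := by
  intro α hα n _ _ S D hS hD h1 r r' hr hrr
  have h := HolderConjugate.conjExponent hα
  generalize α.conjExponent = q at h
  have hm : ∀ (x : ℝ) {E : Matrix n n ℂ}, E.IsHermitian → (E - x • S).IsHermitian :=
    fun x _ hE => hE.sub (herm_smul hS.1 x)
  have lin : ∀ (x : ℝ) (E Y : Matrix n n ℂ), rt ((E - x • S) * Y) = rt (E * Y) - x * rt (S * Y) :=
    fun x E Y => by rw [sub_mul, rt_sub, smul_mul_assoc, rt_smul]
  have p0 : ∀ {c : ℝ}, 0 ≤ c → ∀ x : ℝ, 0 ≤ c * max x 0 ^ (α - 1) := fun hc x => by positivity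
  have B : th α S D 0 ^ α⁻¹ ≤ th α S D r' ^ α⁻¹ + r' := by
    obtain ⟨U, d, rfl⟩ := herm_ud hD
    have e : -ud U d = ud U fun i => -d i := by
      rw [← neg_one_smul ℝ, ud_smul]
      simp
    obtain ⟨c, c0, k1, k2⟩ := d1_opt h U U d fun i => -d i
    have k3 := d1_hold h (hm r' hD) (hm r' hD.neg) U U (fun i => p0 c0 _) (fun i => p0 c0 _) k1
    have k4 := d1_young h one_pos hS.1 U fun i => add_nonneg (p0 c0 (d i)) (p0 c0 (-d i))
    have k5 : pa α S = 1 := by
      obtain ⟨W, s, hs, rfl⟩ := exists_ud hS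
      rw [← h1, pa_ud, tp_ud]
      exact Finset.sum_congr rfl fun i _ => by rw [max_eq_left (hs i)]
    have k6 : ∑ k, (c * max (d k) 0 ^ (α - 1) + c * max (-d k) 0 ^ (α - 1)) ^ q ≤ 1 := by
      refine le_trans (le_of_eq ?_) k1
      rw [← Finset.sum_add_distrib]
      refine Finset.sum_congr rfl fun k _ => ?_
      rcases le_total (d k) 0 with hk | hk
      · simp [max_eq_right hk, zero_rpow h.sub_one_ne_zero, zero_rpow h.symm.ne_zero]
      · simp [max_eq_right (neg_nonpos.2 hk), zero_rpow h.sub_one_ne_zero,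
          zero_rpow h.symm.ne_zero]
    have k7 := div_le_div_of_nonneg_right k6 h.symm.nonneg
    have k8 := h.one_div_add_one_div
    rw [← ud_add, mul_add, rt_add, k5, one_rpow, one_mul, div_one] at k4
    rw [div_one] at k8
    rw [lin, lin] at k3
    rw [th, th, zero_smul, sub_zero, sub_zero, e, ← k2, ← e]
    nlinarith [mul_le_mul_of_nonneg_left (k4.trans (by linarith : _ ≤ (1 : ℝ))) (hr.trans hrr)]
  rcases hrr.eq_or_lt with rfl | hlt
  · rfl
  have r0 : 0 < r' := hr.trans_lt hlt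
  obtain ⟨U, d, e1⟩ := herm_ud (hm r hD)
  obtain ⟨V, e, e2⟩ := herm_ud (hm r hD.neg)
  obtain ⟨c, c0, k1, k2⟩ := d1_opt h U V d e
  have k3 := d1_hold h (hm r' hD) (hm r' hD.neg) U V (fun i => p0 c0 _) (fun i => p0 c0 _) k1
  have k4 := d1_hold h (hm 0 hD) (hm 0 hD.neg) U V (fun i => p0 c0 _) (fun i => p0 c0 _) k1
  rw [← e1, ← e2] at k2
  rw [lin, lin] at k2 k3 k4
  unfold th at B ⊢
  refine le_of_mul_le_mul_left ?_ r0
  nlinarith [mul_le_mul_of_nonneg_left k3 hr,
    mul_le_mul_of_nonneg_left (k4.trans B) (sub_pos.2 hlt).le]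

end Pool.Agent.MP_560646_mp.One
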