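import Pool.Agent.MP_560646_mp.One.Stm

/-! The integral formula for the second difference of the trace of a power of order in (1, 2). -/

set_option autoImplicit false

namespace Pool.Agent.MP_560646_mp.One

open Matrix Real Set MeasureTheory
open scoped ComplexOrder MatrixOrder

variable {n : Type} [Fintype n] [DecidableEq n]

theorem d2_form (α : ℝ) {S D : Matrix n n ℂ} (hS : S.IsHermitian) (hD : D.IsHermitian) (r : ℝ) :
    ∃ d d' : n → ℝ, (∀ s : ℝ, hk (S + s • 1) D r =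
      ∑ i, max (d i - r * s) 0 + ∑ i, max (d' i - r * s) 0) ∧
      th α S D r = ∑ i, max (d i) 0 ^ α + ∑ i, max (d' i) 0 ^ α := by
  obtain ⟨U, d, hd⟩ := shift_form hS hD r
  obtain ⟨U', d', hd'⟩ := shift_form hS hD.neg r
  refine ⟨d, d', fun s => by rw [hk, hd, hd', pp_ud, pp_ud], ?_⟩
  have a := hd 0
  have b := hd' 0
  simp only [zero_smul, add_zero, mul_zero, sub_zero] at a b
  rw [th, a, b, pa_ud, pa_ud]

omit [DecidableEq n] in
theorem d2_gk (p : n → ℝ) (s : ℝ) : ∑ i, gk (p i) s =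
    -∑ i, negMulLog (p i + s) - ∑ _i : n, s * log s - (log s + 1) * ∑ i, p i := by
  rw [Finset.mul_sum, ← Finset.sum_neg_distrib, ← Finset.sum_sub_distrib, ← Finset.sum_sub_distrib]
  refine Finset.sum_congr rfl fun i _ => ?_
  simp only [gk, negMulLog]
  ring

omit [DecidableEq n] in
theorem d2_sum {α : ℝ} {f : n → ℝ → ℝ} {c : n → ℝ}
    (h : ∀ i, IntegrableOn (fun s => s ^ α * f i s) (Ioi 0) ∧
      ∫ s in Ioi (0 : ℝ), s ^ α * f i s = c i) :
    IntegrableOn (fun s => s ^ α * ∑ i, f i s) (Ioi 0) ∧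
      ∫ s in Ioi (0 : ℝ), s ^ α * ∑ i, f i s = ∑ i, c i := by
  simp only [Finset.mul_sum]
  exact ⟨integrable_finsetSum _ fun i _ => (h i).1, by
    rw [integral_finsetSum _ fun i _ => (h i).1]
    exact Finset.sum_congr rfl fun i _ => (h i).2⟩

theorem d2S (h7 : A7S) : D2S := by
  intro α h1 h2 n _ _ S D hS hD k1 k2 y hy
  obtain ⟨-, hg, hm⟩ := h7 α h1 h2
  obtain ⟨p1, p2⟩ := pencil_psd hS k1 k2 hy
  obtain ⟨V, s0, hs0, eS⟩ := exists_ud hS
  obtain ⟨U, p, hp, eP⟩ := exists_ud p1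
  obtain ⟨W, q, hq, eQ⟩ := exists_ud p2
  have tr : ∑ i, p i + ∑ i, q i = 2 * ∑ i, s0 i := by
    rw [← rt_ud U, ← rt_ud W, ← rt_ud V, ← eP, ← eQ, ← eS, rt_add, rt_sub]
    ring
  have key : ∀ s : ℝ, 0 < s → ∫ r in Ioo (0 : ℝ) 1, wt y r * hk (S + s • 1) D r =
      (∑ i, gk (p i) s + ∑ i, gk (q i) s - 2 * ∑ i, gk (s0 i) s) / 2 := by
    intro s hs
    have o := PosSemidef.one (n := n) (R := ℂ) |>.smul hs.le
    rw [← vn_formula (hS.add o) hD (by rw [add_right_comm]; exact k1.add o)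
      (by rw [add_sub_right_comm]; exact k2.add o) hy, add_right_comm, add_sub_right_comm, eP, eQ]
    conv_lhs => rw [eS]
    rw [ud_shift, ud_shift, ud_shift, vn_ud, vn_ud, vn_ud, d2_gk, d2_gk, d2_gk]
    linear_combination (log s + 1) / 2 * tr
  obtain ⟨i1, j1⟩ := d2_sum fun i => hg (p i) (hp i)
  obtain ⟨i2, j2⟩ := d2_sum fun i => hg (q i) (hq i)
  obtain ⟨i3, j3⟩ := d2_sum fun i => hg (s0 i) (hs0 i)
  let F : ℝ → ℝ → ℝ := fun s r => s ^ (α - 2) * (wt y r * hk (S + max s 0 • 1) D r)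
  have o' : ∀ s : ℝ, (S + max s 0 • (1 : Matrix n n ℂ)).PosSemidef := fun s =>
    hS.add (PosSemidef.one.smul (le_max_right s 0))
  have mG : Measurable (Function.uncurry fun s r : ℝ => hk (S + max s 0 • 1) D r) := by
    refine measurable_uncurry_of_continuous_of_measurable (fun r => ?_)
      fun s => (hk_anti (o' s) hD).measurable
    obtain ⟨d, d', h, -⟩ := d2_form α hS.1 hD r
    simp only [h]
    fun_prop
  have mF : Measurable (Function.uncurry F) :=
    (measurable_fst.pow_const _).mul (((wt_meas y).comp measurable_snd).mul mG)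
  have inner : ∀ s : ℝ, 0 < s → ∫ r in Ioo (0 : ℝ) 1, F s r =
      (s ^ (α - 2) * ∑ i, gk (p i) s + s ^ (α - 2) * ∑ i, gk (q i) s -
        2 * (s ^ (α - 2) * ∑ i, gk (s0 i) s)) / 2 := by
    intro s hs
    simp only [F, max_eq_left hs.le]
    rw [integral_const_mul, key s hs]
    ring
  have iL : IntegrableOn (fun s : ℝ => (s ^ (α - 2) * ∑ i, gk (p i) s +
      s ^ (α - 2) * ∑ i, gk (q i) s - 2 * (s ^ (α - 2) * ∑ i, gk (s0 i) s)) / 2) (Ioi 0) :=
    ((i1.add i2).sub (i3.const_mul 2)).div_const 2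
  have iF : Integrable (Function.uncurry F)
      ((volume.restrict (Ioi (0 : ℝ))).prod (volume.restrict (Ioo (0 : ℝ) 1))) := by
    rw [integrable_prod_iff mF.aestronglyMeasurable]
    refine ⟨Filter.Eventually.of_forall fun s =>
      (whk_int hS hD k1 k2 hy (le_max_right s 0)).const_mul (s ^ (α - 2)), iL.congr_fun (fun s hs => ?_)
        measurableSet_Ioi⟩
    refine (inner s hs).symm.trans (setIntegral_congr_fun measurableSet_Ioo fun r hr => ?_)
    exact (Real.norm_of_nonneg (mul_nonneg (rpow_nonneg (mem_Ioi.1 hs).le _)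
      (mul_nonneg (wt_bd hy hr).1 (hk_nonneg (o' s).1 hD r)))).symm
  have outer : ∀ r ∈ Ioo (0 : ℝ) 1, ∫ s in Ioi (0 : ℝ), F s r =
      (α * (α - 1))⁻¹ * (wt y r * (r ^ (1 - α) * th α S D r)) := by
    intro r hr
    obtain ⟨d, d', h, h'⟩ := d2_form α hS.1 hD r
    obtain ⟨a1, b1⟩ := d2_sum fun i => hm (d i) r hr.1
    obtain ⟨a2, b2⟩ := d2_sum fun i => hm (d' i) r hr.1
    have e : EqOn (fun s => F s r) (fun s : ℝ => wt y r * (s ^ (α - 2) * ∑ i, max (d i - r * s) 0 +
        s ^ (α - 2) * ∑ i, max (d' i - r * s) 0)) (Ioi 0) := by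
      intro s hs
      simp only [F, max_eq_left (mem_Ioi.1 hs).le, h]
      ring
    rw [setIntegral_congr_fun measurableSet_Ioi e, integral_const_mul, integral_add a1 a2, b1, b2,
      h', ← Finset.sum_div, ← Finset.sum_div, ← Finset.mul_sum, ← Finset.mul_sum]
    ring
  have c0 : α * (α - 1) ≠ 0 := (mul_pos (by linarith) (by linarith)).ne'
  have iR : IntegrableOn (fun r => (α * (α - 1))⁻¹ * (wt y r * (r ^ (1 - α) * th α S D r)))
      (Ioo 0 1) := IntegrableOn.congr_fun iF.integral_prod_right outer measurableSet_Ioo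
  refine ⟨by simpa only [mul_inv_cancel_left₀ c0, IntegrableOn] using iR.const_mul (α * (α - 1)), ?_⟩
  have i12 : IntegrableOn (fun s : ℝ => s ^ (α - 2) * ∑ i, gk (p i) s +
      s ^ (α - 2) * ∑ i, gk (q i) s) (Ioi 0) := i1.add i2
  have sw := integral_integral_swap iF
  rw [setIntegral_congr_fun measurableSet_Ioi inner, setIntegral_congr_fun measurableSet_Ioo outer,
    integral_const_mul, integral_div, integral_sub i12 (i3.const_mul 2),
    integral_add i1 i2, integral_const_mul, j1, j2, j3, ← Finset.sum_mul, ← Finset.sum_mul,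
    ← Finset.sum_mul] at sw
  rw [eP, eQ]
  conv_lhs => rw [eS]
  rw [tp_ud, tp_ud, tp_ud]
  linear_combination 2 * sw

end Pool.Agent.MP_560646_mp.One
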