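import Pool.Agent.MP_560646_mp.One.Stm

set_option autoImplicit false
set_option linter.all false

namespace Pool.Agent.MP_560646_mp.One

open Matrix Kronecker Real Set
open scoped ComplexOrder MatrixOrder

section
variable {n m : Type} [Fintype n] [DecidableEq n] [Fintype m] [DecidableEq m]

lemma e_intertwine (U V : unitary (Matrix n n ℂ)) {a b : n → ℝ} {X : Matrix n n ℂ}
    (h : ud U a * X = X * ud V b) (f : ℝ → ℝ) :
    ud U (fun i => f (a i)) * X = X * ud V fun i => f (b i) := by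
  have inj : ∀ {Y Z : Matrix n n ℂ}, tw U V Y = tw U V Z → Y = Z := fun {Y Z} k => by
    have := congrArg (fun W => (U : Matrix n n ℂ) * W * star (V : Matrix n n ℂ)) k
    simpa only [tw, ← mul_assoc, Unitary.mul_star_self_of_mem U.2, one_mul,
      mul_assoc _ (V : Matrix n n ℂ), Unitary.mul_star_self_of_mem V.2, mul_one] using this
  have k := congrArg (tw U V) h
  apply inj
  rw [← tw_mul U U V, ← tw_mul U V V, tw_ud, tw_ud] at k ⊢
  ext i j
  have := congrFun (congrFun k i) j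
  rw [diagonal_mul, mul_diagonal, mul_comm, mul_eq_mul_left_iff] at this ⊢
  exact this.imp_left fun h => by rw [Complex.ofReal_injective h]

lemma e_generic (a b : n → ℝ) : ∃ c : ℝ, c ≠ 0 ∧ ∃ f : ℝ → ℝ, ∀ k j, f (a k + c * b j) = a k := by
  obtain ⟨c, hc⟩ := Infinite.exists_notMem_finset (insert (0 : ℝ) (Finset.univ.image
    fun p : (n × n) × n × n => (a p.1.1 - a p.2.1) / (b p.2.2 - b p.1.2)))
  simp only [Finset.mem_insert, Finset.mem_image, Finset.mem_univ, true_and, not_or,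
    not_exists] at hc
  have F : (fun p : n × n => a p.1).FactorsThrough fun p : n × n => a p.1 + c * b p.2 := by
    intro p q h
    by_cases k : b q.2 - b p.2 = 0
    · have : b q.2 = b p.2 := by linarith
      simp only [this] at h
      simpa using h
    · refine absurd ?_ (hc.2 (p, q))
      simp only at h ⊢
      rw [div_eq_iff k]
      linarith
  exact ⟨c, hc.1, Function.extend (fun p : n × n => a p.1 + c * b p.2) (fun p => a p.1) id,
    fun k j => F.extend_apply id (k, j)⟩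

lemma e_joint {P Q : Matrix n n ℂ} (hP : P.PosSemidef) (hQ : Q.PosSemidef) (h : Commute P Q) :
    ∃ (W : unitary (Matrix n n ℂ)) (a b : n → ℝ), (∀ i, 0 ≤ a i) ∧ (∀ i, 0 ≤ b i) ∧
      P = ud W a ∧ Q = ud W b := by
  obtain ⟨U, a, -, eP⟩ := exists_ud hP
  obtain ⟨V, b, -, eQ⟩ := exists_ud hQ
  obtain ⟨c, hc, f, hf⟩ := e_generic a b
  obtain ⟨W, x, e⟩ := herm_ud (hP.1.add (herm_smul hQ.1 c))
  have h' : ud V b * P = P * ud V b := eQ ▸ h.symm.eq
  have one : ∀ y ∈ Finset.univ.image b, ud W (fun i => f (x i)) *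
      ud V (fun j => if b j = y then 1 else 0) = P * ud V (fun j => if b j = y then 1 else 0) := by
    intro y hy
    obtain ⟨j₀, -, rfl⟩ := Finset.mem_image.1 hy
    have c₁ := e_intertwine V V h' fun x => if x = b j₀ then 1 else 0
    have c₂ : ud W x * ud V (fun j => if b j = b j₀ then 1 else 0) =
        ud V (fun j => if b j = b j₀ then 1 else 0) * ud U fun k => a k + c * b j₀ := by
      rw [← e, ← ud_shift, ← eP, add_mul, mul_add, c₁, eQ, ud_smul, ud_mul, mul_smul_comm, mul_one,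
        ud_smul]
      congr 2
      ext j
      split_ifs with k <;> simp [k]
    rw [e_intertwine W U c₂ f, ← c₁, eP]
    simp only [hf]
  have s : ∑ y ∈ Finset.univ.image b, ud V (fun j => if b j = y then 1 else 0) = 1 := by
    rw [← ud_one V]
    simp only [ud, ← Finset.sum_mul, ← Finset.mul_sum]
    congr 2
    ext i j
    by_cases k : i = j <;> simp [Matrix.sum_apply, k, apply_ite]
  have t : P = ud W fun i => f (x i) := by
    have := Finset.sum_congr rfl one
    rw [← Finset.mul_sum, ← Finset.mul_sum, s, mul_one, mul_one] at this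
    exact this.symm
  have u : Q = ud W fun i => c⁻¹ * (x i + (-1) * f (x i)) := by
    rw [← ud_smul, ← ud_add, ← ud_smul, ← t, ← e, neg_one_smul, add_comm P, add_neg_cancel_right,
      smul_smul, inv_mul_cancel₀ hc, one_smul]
  refine ⟨W, _, _, fun i => ?_, fun i => ?_, t, u⟩
  · have := dg_nonneg W hP i
    rwa [t, dg_self] at this
  · have := dg_nonneg W hQ i
    rwa [u, dg_self] at this

lemma e_kron (α : ℝ) {P Q : Matrix n n ℂ} (hP : P.IsHermitian) (hQ : Q.IsHermitian)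
    (W : unitary (Matrix m m ℂ)) (a b : m → ℝ) :
    tp α (P ⊗ₖ ud W a + Q ⊗ₖ ud W b) = ∑ k, tp α (a k • P + b k • Q) := by
  choose T d e using fun k => herm_ud ((herm_smul hP (a k)).add (herm_smul hQ (b k)))
  have c : P ⊗ₖ (diagonal fun i => (a i : ℂ)) + Q ⊗ₖ (diagonal fun i => (b i : ℂ)) =
      ud (ubl T) fun i => d i.2 i.1 := by
    rw [ud_ubl]
    simp only [← e]
    ext ⟨i, k⟩ ⟨j, l⟩
    by_cases h : k = l <;> simp [blockDiagonal_apply, h, mul_comm]
  have k : ∀ (X : Matrix n n ℂ) (x : m → ℝ), X ⊗ₖ ud W x =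
      (uten (1 : unitary (Matrix n n ℂ)) W : Matrix (n × m) (n × m) ℂ) *
        X ⊗ₖ (diagonal fun i => (x i : ℂ)) *
        star (uten (1 : unitary (Matrix n n ℂ)) W : Matrix (n × m) (n × m) ℂ) := by
    intro X x
    rw [uten_coe, star_eq_conjTranspose, conjTranspose_kronecker, ← mul_kronecker_mul,
      ← mul_kronecker_mul]
    simp [ud, star_eq_conjTranspose]
  have c' : P ⊗ₖ ud W a + Q ⊗ₖ ud W b = ud (uten 1 W * ubl T) fun i => d i.2 i.1 := by
    rw [k, k, ← add_mul, ← mul_add, c]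
    simp only [ud, Submonoid.coe_mul, star_mul, mul_assoc]
  rw [c', tp_ud, Fintype.sum_prod_type, Finset.sum_comm]
  simp only [e, tp_ud]

lemma e_kk (α : ℝ) {r : ℝ} (h₀ : 0 ≤ r) (h₁ : r ≤ 1) : kk α (1 - 2 * r) = 2 ^ α * bs α r := by
  rw [kk, bs, show 1 + (1 - 2 * r) = 2 * (1 - r) by ring, show 1 - (1 - 2 * r) = 2 * r by ring,
    mul_rpow (by norm_num) (by linarith), mul_rpow (by norm_num) h₀]
  ring

lemma e_pl {α sg : ℝ} (H : PL α sg) {P Q : Matrix n n ℂ} (hP : P.PosSemidef) (hQ : Q.PosSemidef)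
    (ht : tp α (P + Q) = 1) {p : ℝ} (hp : p ∈ Icc (0 : ℝ) (1 / 2))
    (e : tp α P + tp α Q = bs α p) {y : ℝ} (hy : y ∈ Icc (0 : ℝ) 1) :
    sg * (tp α (P + Q + y • (P - Q)) + tp α (P + Q - y • (P - Q))) ≤ sg * kk α ((1 - 2 * p) * y) := by
  have e₁ : P + Q + (P - Q) = (2 : ℝ) • P := by module
  have e₂ : P + Q - (P - Q) = (2 : ℝ) • Q := by module
  refine H n (P + Q) (P - Q) (hP.add hQ) (hP.1.sub hQ.1) (e₁ ▸ hP.smul (by norm_num))
    (e₂ ▸ hQ.smul (by norm_num)) ht _ ⟨by linarith [hp.2], by linarith [hp.1]⟩ y hy ?_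
  rw [e₁, e₂, tp_smul α hP (by norm_num), tp_smul α hQ (by norm_num), ← mul_add, e,
    e_kk α hp.1 (by linarith [hp.2])]

lemma e_one {α sg ε : ℝ} {P Q : Matrix n n ℂ} (hP : P.PosSemidef) (hQ : Q.PosSemidef)
    (hε : ε ∈ Icc (0 : ℝ) 1) (H : ∀ y ∈ Icc (0 : ℝ) 1,
      sg * (tp α (P + Q + y • (P - Q)) + tp α (P + Q - y • (P - Q))) ≤ sg * kk α (ε * y))
    {a b : ℝ} (hb : 0 ≤ b) (h : b ≤ a) :
    sg * (2 ^ α * (tp α (a • P + b • Q) + tp α (b • P + a • Q))) ≤
      sg * ((a + b + ε * (a - b)) ^ α + (a + b - ε * (a - b)) ^ α) := by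
  have ha : 0 ≤ a := hb.trans h
  have hs : 0 ≤ a + b := by linarith
  obtain ⟨y, hy, e⟩ : ∃ y ∈ Icc (0 : ℝ) 1, (a + b) * y = a - b := by
    rcases hs.eq_or_lt with k | k
    · exact ⟨0, ⟨le_rfl, zero_le_one⟩, by linarith⟩
    · exact ⟨(a - b) / (a + b), ⟨div_nonneg (by linarith) hs, (div_le_one k).2 (by linarith)⟩,
        by field_simp⟩
  have e₁ : P + Q + (P - Q) = (2 : ℝ) • P := by module
  have e₂ : P + Q - (P - Q) = (2 : ℝ) • Q := by module
  obtain ⟨p₁, p₂⟩ := pencil_psd (hP.add hQ) (e₁ ▸ hP.smul (by norm_num))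
    (e₂ ▸ hQ.smul (by norm_num)) hy
  have f₁ : (2 : ℝ) • (a • P + b • Q) = (a + b) • (P + Q + y • (P - Q)) := by
    rw [smul_add (a + b), smul_smul, e]
    module
  have f₂ : (2 : ℝ) • (b • P + a • Q) = (a + b) • (P + Q - y • (P - Q)) := by
    rw [smul_sub (a + b), smul_smul, e]
    module
  have m₀ : 0 ≤ ε * y := mul_nonneg hε.1 hy.1
  have m₁ : ε * y ≤ 1 := mul_le_one₀ hε.2 hy.1 hy.2
  rw [mul_add (2 ^ α), ← tp_smul α ((hP.smul ha).add (hQ.smul hb)) (by norm_num),
    ← tp_smul α ((hP.smul hb).add (hQ.smul ha)) (by norm_num), f₁, f₂, tp_smul α p₁ hs,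
    tp_smul α p₂ hs, ← e, show a + b + ε * ((a + b) * y) = (a + b) * (1 + ε * y) by ring,
    show a + b - ε * ((a + b) * y) = (a + b) * (1 - ε * y) by ring,
    mul_rpow hs (by linarith), mul_rpow hs (by linarith)]
  have := mul_le_mul_of_nonneg_left (H y hy) (rpow_nonneg hs α)
  rw [kk] at this
  linarith

end

theorem eS : ES := by
  intro α sg _ H n m _ _ _ _ P Q P' Q' hP hQ hP' hQ' ht ht' hc p hp q hq e e'
  have hε : 1 - 2 * p ∈ Icc (0 : ℝ) 1 := ⟨by linarith [hp.2], by linarith [hp.1]⟩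
  have A := e_pl H hP' hQ' ht' hq e' hε
  obtain ⟨W, a, b, ha, hb, rfl, rfl⟩ := e_joint hP' hQ' hc
  have B : ∀ k, sg * (2 ^ α * (tp α (a k • P + b k • Q) + tp α (b k • P + a k • Q))) ≤
      sg * ((a k + b k + (1 - 2 * p) * (a k - b k)) ^ α +
        (a k + b k - (1 - 2 * p) * (a k - b k)) ^ α) := by
    intro k
    have Y := fun y hy => e_pl H hP hQ ht hp e (y := y) hy
    rcases le_total (b k) (a k) with h | h
    · exact e_one hP hQ hε Y (hb k) h
    · have := e_one hP hQ hε Y (ha k) h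
      rw [show b k + a k + (1 - 2 * p) * (b k - a k) = a k + b k - (1 - 2 * p) * (a k - b k) by ring,
        show b k + a k - (1 - 2 * p) * (b k - a k) = a k + b k + (1 - 2 * p) * (a k - b k) by ring]
        at this
      linarith
  have g₁ : ud W a + ud W b + (1 - 2 * p) • (ud W a - ud W b) =
      ud W fun k => a k + b k + (1 - 2 * p) * (a k - b k) := by
    rw [sub_eq_add_neg (ud W a), ← neg_one_smul ℝ (ud W b), ud_smul, ud_add, ud_add, ud_smul, ud_add]
    congr 1
    ext k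
    ring
  have g₂ : ud W a + ud W b - (1 - 2 * p) • (ud W a - ud W b) =
      ud W fun k => a k + b k - (1 - 2 * p) * (a k - b k) := by
    rw [sub_eq_add_neg (ud W a), ← neg_one_smul ℝ (ud W b), sub_eq_add_neg (ud W a + _), ← neg_smul,
      ud_smul, ud_add, ud_add, ud_smul, ud_add]
    congr 1
    ext k
    ring
  have r₀ : 0 ≤ bconv p q := by
    unfold bconv
    nlinarith [hp.1, hp.2, hq.1, hq.2]
  have r₁ : bconv p q ≤ 1 := by
    unfold bconv
    nlinarith [hp.1, hp.2, hq.1, hq.2]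
  rw [g₁, g₂, tp_ud, tp_ud, show (1 - 2 * q) * (1 - 2 * p) = 1 - 2 * bconv p q by unfold bconv; ring,
    e_kk α r₀ r₁, ← Finset.sum_add_distrib, Finset.mul_sum] at A
  have C := (Finset.sum_le_sum fun k (_ : k ∈ Finset.univ) => B k).trans A
  rw [← Finset.mul_sum, ← Finset.mul_sum, Finset.sum_add_distrib, ← e_kron α hP.1 hQ.1 W,
    ← e_kron α hP.1 hQ.1 W] at C
  have two : (0 : ℝ) < 2 ^ α := by positivity
  refine le_of_mul_le_mul_left ?_ two
  linarith

end Pool.Agent.MP_560646_mp.One
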