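import Pool.Agent.MP_560646_mp.One.Fin
import Pool.Agent.MP_560646_mp.One.Cs

/-! The exact bound for real orders between 1 and 4 when one side is classical or flat. -/

set_option autoImplicit false

namespace Pool.Agent.MP_560646_mp.One

open Matrix Kronecker Real Set
open scoped ComplexOrder MatrixOrder

theorem bs_kk (α : ℝ) {p : ℝ} (hp : p ∈ Icc (0 : ℝ) 1) : kk α (1 - 2 * p) = 2 ^ α * bs α p := by
  rw [kk, bs, show 1 + (1 - 2 * p) = 2 * (1 - p) by ring, show 1 - (1 - 2 * p) = 2 * p by ring,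
    mul_rpow zero_le_two (by linarith [hp.2]), mul_rpow zero_le_two hp.1]
  ring

theorem ent_form {α H : ℝ} (hα : 1 < α) (h : H ∈ Icc 0 (log 2)) :
    ∃ F ∈ Icc ((2 : ℝ) ^ (1 - α)) 1, H = log F / (1 - α) := by
  have hneg : 1 - α < 0 := by linarith
  refine ⟨exp (H * (1 - α)), ⟨?_, ?_⟩, by rw [log_exp, mul_div_cancel_right₀ _ hneg.ne]⟩
  · rw [rpow_def_of_pos two_pos]
    exact exp_le_exp.2 (mul_le_mul_of_nonpos_right h.2 hneg.le)
  · exact exp_le_one_iff.2 (mul_nonpos_of_nonneg_of_nonpos h.1 hneg.le)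

theorem cmp_ent {α H₁ H₂ : ℝ} (hα : 1 < α) (h₁ : H₁ ∈ Icc 0 (log 2)) (h₂ : H₂ ∈ Icc 0 (log 2))
    (h : H₁ + H₂ ≤ log 2) :
    (CP α 1 → binH α (bconv (binG α H₁) (binG α H₂)) ≤ H₁ + H₂ - log 2 +
      binH α (bconv (binG α (log 2 - H₁)) (binG α (log 2 - H₂)))) ∧
    (CP α (-1) → H₁ + H₂ - log 2 + binH α (bconv (binG α (log 2 - H₁)) (binG α (log 2 - H₂))) ≤
      binH α (bconv (binG α H₁) (binG α H₂))) := by
  obtain ⟨F, hF, rfl⟩ := ent_form hα h₁
  obtain ⟨G, hG, rfl⟩ := ent_form hα h₂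
  have hneg : 1 - α < 0 := by linarith
  have p2 := rpow_pos_of_pos (by norm_num : (0 : ℝ) < 2) (1 - α)
  have p3 := rpow_pos_of_pos (by norm_num : (0 : ℝ) < 2) α
  have e2 : (2 : ℝ) ^ (1 - α) = 2 / 2 ^ α := by rw [rpow_sub two_pos, rpow_one]
  have F0 := p2.trans_le hF.1
  have G0 := p2.trans_le hG.1
  have fg : 2 ^ (1 - α) ≤ F * G := by
    rw [← add_div, ← log_mul F0.ne' G0.ne', div_le_iff_of_neg hneg, mul_comm,
      ← log_rpow two_pos] at h
    exact (log_le_log_iff p2 (mul_pos F0 G0)).1 h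
  obtain ⟨dF, eF⟩ := dual_log hα hF
  obtain ⟨dG, eG⟩ := dual_log hα hG
  rw [eF, eG]
  obtain ⟨ma, ea⟩ := binG_bs hα hF
  obtain ⟨mb, eb⟩ := binG_bs hα hG
  obtain ⟨mc, ec⟩ := binG_bs hα dF
  obtain ⟨md, ed⟩ := binG_bs hα dG
  generalize binG α (log F / (1 - α)) = p at *
  generalize binG α (log G / (1 - α)) = q at *
  generalize binG α (log (2 ^ (1 - α) / F) / (1 - α)) = p' at *
  generalize binG α (log (2 ^ (1 - α) / G) / (1 - α)) = q' at *
  have x0 := bs_pos α (bconv_mem ma mb)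
  have y0 := bs_pos α (bconv_mem mc md)
  have e : log F / (1 - α) + log G / (1 - α) - log 2 + binH α (bconv p' q') =
      log (F * G / 2 ^ (1 - α) * bs α (bconv p' q')) / (1 - α) := by
    rw [log_mul (by positivity) y0.ne', log_div (by positivity) p2.ne',
      log_mul F0.ne' G0.ne', log_rpow (by norm_num)]
    unfold binH bs
    field_simp [hneg.ne]
  have m : ∀ r ∈ Icc (0 : ℝ) (1 / 2), 1 - 2 * r ∈ Icc (0 : ℝ) 1 ∧
      kk α (1 - 2 * r) = 2 ^ α * bs α r := fun r hr =>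
    ⟨⟨by linarith [hr.2], by linarith [hr.1]⟩, bs_kk α ⟨hr.1, by linarith [hr.2]⟩⟩
  have c : ∀ r s : ℝ, (1 - 2 * r) * (1 - 2 * s) = 1 - 2 * bconv r s := fun r s => by
    unfold bconv
    ring
  have k : ∀ sg : ℝ, CP α sg →
      sg * (F * G / 2 ^ (1 - α) * bs α (bconv p' q')) ≤ sg * bs α (bconv p q) := fun sg hc => by
    have := hc _ (m p ma).1 _ (m q mb).1 _ (m p' mc).1 _ (m q' md).1
      (by rw [(m p ma).2, (m p' mc).2, ea, ec, e2]; field_simp)
      (by rw [(m q mb).2, (m q' md).2, eb, ed, e2]; field_simp)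
      (by
        rw [(m p ma).2, (m q mb).2, ea, eb]
        rw [e2, div_le_iff₀ p3] at fg
        nlinarith)
    rw [c, c, bs_kk α (bconv_mem ma mb), bs_kk α (bconv_mem mc md), (m p ma).2, (m q mb).2, ea,
      eb] at this
    refine le_of_mul_le_mul_left ?_ (by positivity : (0 : ℝ) < 2 * 2 ^ α * 2 ^ α)
    rw [e2, div_div_eq_mul_div]
    linarith
  rw [e, show binH α (bconv p q) = log (bs α (bconv p q)) / (1 - α) from rfl]
  exact ⟨fun hc => div_le_div_of_nonpos_of_le hneg.le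
      (log_le_log (by positivity) (by linarith [k 1 hc])),
    fun hc => div_le_div_of_nonpos_of_le hneg.le (log_le_log x0 (by linarith [k (-1) hc]))⟩

variable {n m : Type} [Fintype n] [DecidableEq n] [Fintype m] [DecidableEq m]

theorem renyi_one_sided {α : ℝ} (hα : 1 < α) (h₄ : α < 4) (σ : ZMod 2 → Matrix n n ℂ)
    (η : ZMod 2 → Matrix m m ℂ) (hσ : ∀ x, (σ x).PosSemidef ∧ trace (σ x) = 1)
    (hη : ∀ x, (η x).PosSemidef ∧ trace (η x) = 1)
    (h : Commute (η 0) (η 1) ∨ ∃ c : ℝ, ∀ x, η x * η x = c • η x) :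
    Hdown α (cq σ) ∈ Icc 0 (log 2) ∧ Hdown α (cq η) ∈ Icc 0 (log 2) ∧
      (α ≤ 2 ∨ 3 ≤ α → bound α (Hdown α (cq σ)) (Hdown α (cq η)) ≤ Hdown α (combine σ η)) ∧
      (2 ≤ α → α ≤ 3 → Hdown α (combine σ η) ≤ bound α (Hdown α (cq σ)) (Hdown α (cq η))) := by
  rcases h with h | h
  · obtain ⟨a, b, c, d⟩ := renyi_branch hα h₄ σ η hσ hη _ (Or.inl ⟨h, rfl⟩)
    refine ⟨a, b, ?_⟩
    unfold bound
    split_ifs with k
    · exact ⟨c, d⟩
    · have := cmp_ent hα (H₁ := log 2 - Hdown α (cq σ)) (H₂ := log 2 - Hdown α (cq η))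
        ⟨by linarith [a.2], by linarith [a.1]⟩ ⟨by linarith [b.2], by linarith [b.1]⟩ (by linarith)
      rw [sub_sub_cancel, sub_sub_cancel] at this
      exact ⟨fun r => by linarith [c r, this.1 (cp_pos hα h₄ r)],
        fun r s => by linarith [d r s, this.2 (cp_neg r s)]⟩
  · obtain ⟨a, b, c, d⟩ := renyi_branch hα h₄ σ η hσ hη _ (Or.inr ⟨h, rfl⟩)
    refine ⟨a, b, ?_⟩
    unfold bound
    split_ifs with k
    · have := cmp_ent hα a b k
      exact ⟨fun r => (this.1 (cp_pos hα h₄ r)).trans (c r),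
        fun r s => (d r s).trans (this.2 (cp_neg r s))⟩
    · exact ⟨c, d⟩

end Pool.Agent.MP_560646_mp.One
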