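import Pool.Agent.MP_560646_mp.One.Stm

/-! Duality: the bound for a commuting pair gives the bound for a pair with commuting dual. -/

set_option autoImplicit false

namespace Pool.Agent.MP_560646_mp.One

open Matrix Kronecker Real Set MeasureTheory
open scoped ComplexOrder MatrixOrder

section
variable {n m : Type} [Fintype n] [DecidableEq n] [Fintype m] [DecidableEq m]

theorem f_nonneg (α : ℝ) {X : Matrix n n ℂ} (hX : X.PosSemidef) : 0 ≤ tp α X := by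
  obtain ⟨U, d, hd, rfl⟩ := exists_ud hX
  rw [tp_ud]
  exact Finset.sum_nonneg fun i _ => rpow_nonneg (hd i) _

theorem f_comm {α : ℝ} (hα : α ≠ 0) (M : Matrix m n ℂ) : tp α (M * Mᴴ) = tp α (Mᴴ * M) := by
  obtain ⟨U, a, a₀, ha⟩ := exists_ud (posSemidef_self_mul_conjTranspose M)
  obtain ⟨V, s, s₀, hs⟩ := exists_ud (posSemidef_conjTranspose_mul_self M)
  have r : ∀ k, a k = ∑ l, Complex.normSq (tw U V M k l) := fun k => by
    rw [← row_normSq, tw_star, tw_mul, ha, tw_ud, diagonal_apply_eq, Complex.ofReal_re]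
  have c : ∀ l, s l = ∑ k, Complex.normSq (tw U V M k l) := fun l => by
    rw [← col_normSq, tw_star, tw_mul, hs, tw_ud, diagonal_apply_eq, Complex.ofReal_re]
  have i : diagonal (fun k => (a k : ℂ)) * tw U V M = tw U V M * diagonal fun l => (s l : ℂ) := by
    rw [← tw_ud U, ← tw_ud V, tw_mul, tw_mul, ← ha, ← hs, Matrix.mul_assoc]
  have j : ∀ k l, Complex.normSq (tw U V M k l) * a k ^ (α - 1) =
      Complex.normSq (tw U V M k l) * s l ^ (α - 1) := by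
    intro k l
    have := congrFun (congrFun i k) l
    rw [diagonal_mul, mul_diagonal, mul_comm, mul_eq_mul_left_iff] at this
    rcases this with h | h
    · rw [Complex.ofReal_injective h]
    · simp [h]
  have p : ∀ x : ℝ, 0 ≤ x → x ^ α = x * x ^ (α - 1) := fun x hx => by
    rw [← rpow_one_add' hx (by simpa using hα), add_sub_cancel]
  rw [ha, hs, tp_ud, tp_ud]
  calc ∑ k, a k ^ α = ∑ k, ∑ l, Complex.normSq (tw U V M k l) * a k ^ (α - 1) := by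
        simp only [← Finset.sum_mul, ← r, ← p _ (a₀ _)]
    _ = ∑ l, ∑ k, Complex.normSq (tw U V M k l) * s l ^ (α - 1) := by
        simp only [j]
        rw [Finset.sum_comm]
    _ = _ := by simp only [← Finset.sum_mul, ← c, ← p _ (s₀ _)]

theorem f_blocks (α : ℝ) {X : Matrix n n ℂ} {Y : Matrix m m ℂ} (hX : X.PosSemidef)
    (hY : Y.PosSemidef) : tp α (fromBlocks X 0 0 Y) = tp α X + tp α Y := by
  obtain ⟨U, d, -, rfl⟩ := exists_ud hX
  obtain ⟨V, e, -, rfl⟩ := exists_ud hY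
  rw [← ud_usum, tp_ud, tp_ud, tp_ud, Fintype.sum_sum_type]
  rfl

theorem f_pair {α : ℝ} (hα : α ≠ 0) {M M' : Matrix m n ℂ} {P Q : Matrix n n ℂ}
    (hP : P.PosSemidef) (hQ : Q.PosSemidef) (h₁ : Mᴴ * M = P + Q) (h₂ : M'ᴴ * M' = P + Q)
    (h₃ : Mᴴ * M' = P - Q) (h₄ : M'ᴴ * M = P - Q) :
    tp α ((1 / 2 : ℝ) • (M * Mᴴ) + (1 / 2 : ℝ) • (M' * M'ᴴ)) = tp α P + tp α Q := by
  have := f_comm hα (fromCols ((1 / 2 : ℝ) • (M + M')) ((1 / 2 : ℝ) • (M - M')))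
  rw [conjTranspose_fromCols_eq_fromRows_conjTranspose, fromCols_mul_fromRows,
    fromRows_mul_fromCols] at this
  simp only [conjTranspose_smul, star_trivial, conjTranspose_add, conjTranspose_sub,
    Matrix.smul_mul, Matrix.mul_smul, Matrix.add_mul, Matrix.mul_add, Matrix.sub_mul,
    Matrix.mul_sub, h₁, h₂, h₃, h₄] at this
  rw [← f_blocks α hP hQ]
  convert this using 2
  · module
  · congr 1 <;> module

omit [DecidableEq n] [DecidableEq m] in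
theorem f_commute {N N' : Matrix m n ℂ} {P Q : Matrix n n ℂ} (hP : P.IsHermitian)
    (hQ : Q.IsHermitian) (h₁ : Nᴴ * N = P + Q) (h₂ : N'ᴴ * N' = P + Q) (h₃ : Nᴴ * N' = P - Q)
    (h₄ : N'ᴴ * N = P - Q) (h : P * (P - Q) * Q = 0) : Commute (N * Nᴴ) (N' * N'ᴴ) := by
  have a : (N + N')ᴴ * (N + N') = (4 : ℝ) • P := by
    simp only [conjTranspose_add, Matrix.add_mul, Matrix.mul_add, h₁, h₂, h₃, h₄]
    module
  have b : (N - N')ᴴ * (N - N') = (4 : ℝ) • Q := by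
    simp only [conjTranspose_sub, Matrix.sub_mul, Matrix.mul_sub, h₁, h₂, h₃, h₄]
    module
  have z : (N + N') * (P - Q) * (N - N')ᴴ = 0 := by
    have hD := (hP.sub hQ).eq
    generalize P - Q = D at h hD ⊢
    generalize N + N' = X at a ⊢
    generalize N - N' = Y at b ⊢
    have u : X * D * Q = 0 := by
      rw [← conjTranspose_mul_self_eq_zero, conjTranspose_mul, conjTranspose_mul, Matrix.mul_assoc,
        Matrix.mul_assoc, Matrix.mul_assoc X, ← Matrix.mul_assoc Xᴴ, a, Matrix.smul_mul,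
        ← Matrix.mul_assoc P, h]
      simp
    rw [← self_mul_conjTranspose_eq_zero, conjTranspose_mul, conjTranspose_conjTranspose,
      Matrix.mul_assoc, ← Matrix.mul_assoc Yᴴ, b, Matrix.smul_mul, Matrix.mul_smul,
      ← Matrix.mul_assoc, u]
    simp
  have z' := congrArg conjTranspose z
  rw [conjTranspose_mul, conjTranspose_mul, conjTranspose_conjTranspose, (hP.sub hQ).eq,
    conjTranspose_zero, ← Matrix.mul_assoc] at z'
  change N * Nᴴ * (N' * N'ᴴ) = N' * N'ᴴ * (N * Nᴴ)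
  rw [Matrix.mul_assoc, ← Matrix.mul_assoc Nᴴ, h₃, Matrix.mul_assoc N', ← Matrix.mul_assoc N'ᴴ, h₄]
  generalize P - Q = D at z z' ⊢
  simp only [conjTranspose_add, conjTranspose_sub, Matrix.add_mul, Matrix.sub_mul, Matrix.mul_add,
    Matrix.mul_sub, Matrix.mul_assoc] at z z'
  have two : (2 : ℝ) • (N * (D * N'ᴴ)) = (2 : ℝ) • (N' * (D * Nᴴ)) := by
    rw [← sub_eq_zero, ← sub_self (0 : Matrix m m ℂ)]
    nth_rewrite 1 [← z']
    rw [← z]
    module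
  exact smul_right_injective _ two_ne_zero two

theorem f_half (α : ℝ) : (1 / 2 : ℝ) ^ α + (1 / 2 : ℝ) ^ α = 2 ^ (1 - α) := by
  rw [one_div, inv_rpow zero_le_two, rpow_sub two_pos, rpow_one]
  ring

theorem f_one {α : ℝ} (hα : α ≠ 0) {M M' : Matrix m n ℂ} {P Q : Matrix n n ℂ}
    (hP : P.PosSemidef) (hQ : Q.PosSemidef) (h₁ : Mᴴ * M = P + Q) (h₂ : M'ᴴ * M' = P + Q)
    (h₃ : Mᴴ * M' = P - Q) (h₄ : M'ᴴ * M = P - Q) (ht : tp α (P + Q) = 1) {b : ℝ}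
    (hb : (tp α P + tp α Q) * b = 2 ^ (1 - α)) :
    ∃ c : ℝ, 0 ≤ c ∧ 0 < tp α P + tp α Q ∧ c ^ α = (tp α P + tp α Q)⁻¹ ∧
      tp α (c • (1 / 2 : ℝ) • (M * Mᴴ) + c • (1 / 2 : ℝ) • (M' * M'ᴴ)) = 1 ∧
      tp α (c • (1 / 2 : ℝ) • (M * Mᴴ)) + tp α (c • (1 / 2 : ℝ) • (M' * M'ᴴ)) = b := by
  have half : (0 : ℝ) ≤ 1 / 2 := by norm_num
  have p := (posSemidef_self_mul_conjTranspose M).smul half
  have p' := (posSemidef_self_mul_conjTranspose M').smul half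
  have F : 0 < tp α P + tp α Q := by
    refine (add_nonneg (f_nonneg α hP) (f_nonneg α hQ)).lt_of_ne fun h => ?_
    rw [← h, zero_mul] at hb
    exact (rpow_pos_of_pos two_pos _).ne hb
  have c₀ := rpow_nonneg (inv_pos.2 F).le α⁻¹
  have e := rpow_inv_rpow (inv_pos.2 F).le hα
  refine ⟨_, c₀, F, e, ?_, ?_⟩
  · rw [← smul_add, tp_smul α (p.add p') c₀, e, f_pair hα hP hQ h₁ h₂ h₃ h₄, inv_mul_cancel₀ F.ne']
  · rw [tp_smul α p c₀, tp_smul α p' c₀, e, tp_smul α (posSemidef_self_mul_conjTranspose _) half,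
      tp_smul α (posSemidef_self_mul_conjTranspose _) half, f_comm hα, f_comm hα, h₁, h₂, ht,
      mul_one, ← mul_add, f_half, ← hb, inv_mul_cancel_left₀ F.ne']

end

theorem fS : FS := by
  intro α sg hα hC n m _ _ _ _ P Q P' Q' hP hQ hP' hQ' ht ht' hc p hp q hq hb hb'
  have α₀ : α ≠ 0 := by positivity
  obtain ⟨M, M', h₁, h₂, h₃, h₄⟩ := exists_dual hP hQ
  obtain ⟨N, N', k₁, k₂, k₃, k₄⟩ := exists_dual hP' hQ'
  have half : (0 : ℝ) ≤ 1 / 2 := by norm_num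
  have ps : ∀ {k l : Type} [Fintype k] [Fintype l] (M : Matrix k l ℂ),
      ((1 / 2 : ℝ) • (M * Mᴴ)).PosSemidef := fun M =>
    (posSemidef_self_mul_conjTranspose M).smul half
  obtain ⟨c, c₀, F, e, a₁, a₂⟩ := f_one α₀ hP hQ h₁ h₂ h₃ h₄ ht hb
  obtain ⟨d, d₀, G, e', b₁, b₂⟩ := f_one α₀ hP' hQ' k₁ k₂ k₃ k₄ ht' hb'
  have hX := (hP.kronecker hP').add (hQ.kronecker hQ')
  have hY := (hP.kronecker hQ').add (hQ.kronecker hP')
  have blk : ∀ {N N' : Matrix (m ⊕ m) m ℂ}, Nᴴ * N = P' + Q' → N'ᴴ * N' = P' + Q' →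
      Nᴴ * N' = P' - Q' → N'ᴴ * N = P' - Q' →
      tp α ((c • (1 / 2 : ℝ) • (M * Mᴴ)) ⊗ₖ (d • (1 / 2 : ℝ) • (N * Nᴴ)) +
        (c • (1 / 2 : ℝ) • (M' * M'ᴴ)) ⊗ₖ (d • (1 / 2 : ℝ) • (N' * N'ᴴ))) =
      (tp α P' + tp α Q')⁻¹ * ((tp α P + tp α Q)⁻¹ * ((1 / 2 : ℝ) ^ α *
        (tp α (P ⊗ₖ P' + Q ⊗ₖ Q') + tp α (P ⊗ₖ Q' + Q ⊗ₖ P')))) := by
    intro N N' k₁ k₂ k₃ k₄
    have c₁ : (M ⊗ₖ N)ᴴ * (M ⊗ₖ N) =
        P ⊗ₖ P' + Q ⊗ₖ Q' + (P ⊗ₖ Q' + Q ⊗ₖ P') := by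
      rw [conjTranspose_kronecker, ← mul_kronecker_mul, h₁, k₁, ← kron_total]
    have c₂ : (M' ⊗ₖ N')ᴴ * (M' ⊗ₖ N') =
        P ⊗ₖ P' + Q ⊗ₖ Q' + (P ⊗ₖ Q' + Q ⊗ₖ P') := by
      rw [conjTranspose_kronecker, ← mul_kronecker_mul, h₂, k₂, ← kron_total]
    have c₃ : (M ⊗ₖ N)ᴴ * (M' ⊗ₖ N') =
        P ⊗ₖ P' + Q ⊗ₖ Q' - (P ⊗ₖ Q' + Q ⊗ₖ P') := by
      rw [conjTranspose_kronecker, ← mul_kronecker_mul, h₃, k₃, kron_minus]
    have c₄ : (M' ⊗ₖ N')ᴴ * (M ⊗ₖ N) =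
        P ⊗ₖ P' + Q ⊗ₖ Q' - (P ⊗ₖ Q' + Q ⊗ₖ P') := by
      rw [conjTranspose_kronecker, ← mul_kronecker_mul, h₄, k₄, kron_minus]
    have s := (ps (M ⊗ₖ N)).add (ps (M' ⊗ₖ N'))
    rw [← f_pair α₀ hX hY c₁ c₂ c₃ c₄, ← tp_smul α s half, ← e, ← e',
      ← tp_smul α (s.smul half) c₀, ← tp_smul α ((s.smul half).smul c₀) d₀]
    congr 1
    simp only [conjTranspose_kronecker, ← mul_kronecker_mul, smul_kronecker, kronecker_smul,
      smul_add]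
    module
  have k := hC _ _ _ _ _ _ ((ps M).smul c₀) ((ps M').smul c₀) ((ps N).smul d₀) ((ps N').smul d₀)
    a₁ b₁ (((((f_commute hP'.1 hQ'.1 k₁ k₂ k₃ k₄ hc).smul_left _).smul_right _).smul_left
      _).smul_right _) p hp q hq a₂ b₂
  rw [blk k₁ k₂ k₃ k₄, blk k₂ k₁ k₄ k₃, ← mul_add, ← mul_add, ← add_mul, f_half] at k
  have w : (0 : ℝ) < 2 ^ (1 - α) := rpow_pos_of_pos two_pos _
  have := mul_le_mul_of_nonneg_left k (div_pos (mul_pos F G) w).le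
  refine le_of_eq_of_le ?_ (this.trans_eq (by ring))
  field_simp

end Pool.Agent.MP_560646_mp.One
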