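import Pool.Agent.MP_560646_mp.One.Stm

set_option autoImplicit false

namespace Pool.Agent.MP_560646_mp.One

open Matrix Kronecker Real Set MeasureTheory
open scoped ComplexOrder MatrixOrder

section
variable {n : Type} [Fintype n] [DecidableEq n]

lemma f2_inter (U V : unitary (Matrix n n ℂ)) {a b : n → ℝ} {X : Matrix n n ℂ}
    (h : ud U a * X = X * ud V b) (f : ℝ → ℝ) :
    ud U (fun i => f (a i)) * X = X * ud V fun i => f (b i) := by
  have inj : ∀ {Y Z : Matrix n n ℂ}, tw U V Y = tw U V Z → Y = Z := fun {Y Z} k => by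
    have := congrArg (fun W => (U : Matrix n n ℂ) * W * star (V : Matrix n n ℂ)) k
    simpa only [tw, ← mul_assoc, Unitary.mul_star_self_of_mem U.2, one_mul,
      mul_assoc _ (V : Matrix n n ℂ), Unitary.mul_star_self_of_mem V.2, mul_one] using this
  have k := congrArg (tw U V) h
  apply inj
  rw [← tw_mul U U V, ← tw_mul U V V, tw_ud, tw_ud] at k ⊢
  ext i j
  have := congrFun (congrFun k i) j
  rw [diagonal_mul, mul_diagonal, mul_comm, mul_eq_mul_left_iff] at this ⊢
  exact this.imp_left fun h => by rw [Complex.ofReal_injective h]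

lemma f2_zero (U : unitary (Matrix n n ℂ)) (d : n → ℝ) (f : ℝ → ℝ) {Z W : Matrix n n ℂ} {c : ℝ}
    (e : Z + W = ud U d) (hZ : Z * Z = c • Z) (hW : W * W = c • W) :
    Z * (ud U (fun i => f (d i)) * (Z - W) * ud U fun i => f (d i)) * W = 0 := by
  have e2 : ud U (fun i => 2 * c - d i) = (2 * c) • (1 : Matrix n n ℂ) - (Z + W) := by
    rw [e, eq_sub_iff_add_eq, ud_add, ← ud_one U, ud_smul]
    simp
  have h : ud U d * (Z - W) = (Z - W) * ud U fun i => 2 * c - d i := by
    rw [e2, ← e]
    simp only [mul_sub, sub_mul, mul_add, add_mul, mul_smul_comm, mul_one, hZ, hW]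
    module
  have h1 := f2_inter U U h f
  have h2 := f2_inter U U h fun y => f (2 * c - y) * f y
  simp only [sub_sub_cancel] at h2
  obtain ⟨s, hs⟩ : ∃ s, s = ud U fun i => f (2 * c - d i) * f (d i) := ⟨_, rfl⟩
  have h3 : Commute s (Z - W) := by
    rw [hs]
    refine h2.trans ?_
    simp only [mul_comm (f (d _))]
  have h4 : Commute s (Z + W) := by
    rw [hs, e, Commute, SemiconjBy, ud_mul, ud_mul]
    simp only [mul_comm (d _)]
  have h5 : Commute s W := by
    have : W = (1 / 2 : ℝ) • ((Z + W) - (Z - W)) := by module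
    rw [this]
    exact (h4.sub_right h3).smul_right _
  have h6 : Z * (Z - W) * W = 0 := by
    rw [mul_sub, sub_mul, mul_assoc Z W, hZ, hW, smul_mul_assoc, mul_smul_comm, sub_self]
  rw [h1, mul_assoc (Z - W), ud_mul, ← hs, ← mul_assoc, mul_assoc _ s, h5.eq, ← mul_assoc, h6,
    zero_mul]

end

theorem f2S : F2S := by
  intro α n _ _ Z W hZ hW
  obtain ⟨U, d, -, e⟩ := exists_ud (hZ.add hW)
  unfold swr
  rw [e, mpow_ud]
  refine ⟨fun hc => ?_, fun c h1 h2 => ?_⟩
  · have a : ud U d * Z = Z * ud U d := by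
      rw [← e]; exact ((Commute.refl Z).add_left hc.symm).eq
    have b : ud U d * W = W * ud U d := by
      rw [← e]; exact (hc.add_left (Commute.refl W)).eq
    have a' : Commute (ud U fun i => d i ^ ((1 - α) / (2 * α))) Z :=
      f2_inter U U a fun y => y ^ ((1 - α) / (2 * α))
    have b' : Commute (ud U fun i => d i ^ ((1 - α) / (2 * α))) W :=
      f2_inter U U b fun y => y ^ ((1 - α) / (2 * α))
    have r := Commute.refl (ud U fun i => d i ^ ((1 - α) / (2 * α)))
    have k1 := (r.mul_right b').mul_right r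
    have k2 := (a'.symm.mul_right hc).mul_right a'.symm
    exact (k1.mul_left k2).mul_left k1
  · have k := f2_zero U d (fun y => y ^ ((1 - α) / (2 * α)) * y ^ ((1 - α) / (2 * α))) e h1 h2
    simp only [← ud_mul] at k
    generalize (ud U fun i => d i ^ ((1 - α) / (2 * α))) = R at k ⊢
    calc R * Z * R * (R * Z * R - R * W * R) * (R * W * R)
        = R * (Z * (R * R * (Z - W) * (R * R)) * W) * R := by noncomm_ring
      _ = 0 := by rw [k, mul_zero, zero_mul]

end Pool.Agent.MP_560646_mp.One
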