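import Pool.Agent.MP_560646_mp.One.Stm

/-! From the trace inequalities to the entropy inequalities. -/

set_option autoImplicit false

namespace Pool.Agent.MP_560646_mp.One

open Matrix Kronecker Real Set MeasureTheory
open scoped ComplexOrder MatrixOrder

variable {n m : Type} [Fintype n] [DecidableEq n] [Fintype m] [DecidableEq m]

theorem reduce_one (h2 : F2S) {α : ℝ} (hα : 0 < α) (σ : ZMod 2 → Matrix n n ℂ)
    (η : ZMod 2 → Matrix m m ℂ) (hσ : ∀ x, (σ x).PosSemidef ∧ trace (σ x) = 1)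
    (hη : ∀ x, (η x).PosSemidef ∧ trace (η x) = 1) :
    ∃ (P Q : Matrix n n ℂ) (P' Q' : Matrix m m ℂ), P.PosSemidef ∧ Q.PosSemidef ∧
      P'.PosSemidef ∧ Q'.PosSemidef ∧ tp α (P + Q) = 1 ∧ tp α (P' + Q') = 1 ∧
      Hdown α (cq σ) = log (tp α P + tp α Q) / (1 - α) ∧
      Hdown α (cq η) = log (tp α P' + tp α Q') / (1 - α) ∧
      Hdown α (combine σ η) = log (tp α (P ⊗ₖ P' + Q ⊗ₖ Q') +
        tp α (P ⊗ₖ Q' + Q ⊗ₖ P')) / (1 - α) ∧
      (Commute (η 0) (η 1) → Commute P' Q') ∧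
      ((∃ c : ℝ, ∀ x, η x * η x = c • η x) → P' * (P' - Q') * Q' = 0) := by
  have hh : (0 : ℂ) ≤ 1 / 2 := by
    rw [show (1 / 2 : ℂ) = ((1 / 2 : ℝ) : ℂ) by push_cast; ring]
    exact Complex.zero_le_real.2 (by norm_num)
  have hX := (hσ 0).1.smul hh
  have hY := (hσ 1).1.smul hh
  have hZ := (hη 0).1.smul hh
  have hW := (hη 1).1.smul hh
  have t1 : trace ((1 / 2 : ℂ) • σ 0 + (1 / 2 : ℂ) • σ 1) = 1 := by
    rw [trace_add, trace_smul, trace_smul, (hσ 0).2, (hσ 1).2]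
    norm_num
  have t2 : trace ((1 / 2 : ℂ) • η 0 + (1 / 2 : ℂ) • η 1) = 1 := by
    rw [trace_add, trace_smul, trace_smul, (hη 0).2, (hη 1).2]
    norm_num
  have c1 : Commute (η 0) (η 1) → Commute ((1 / 2 : ℂ) • η 0) ((1 / 2 : ℂ) • η 1) :=
    fun h => (h.smul_left _).smul_right _
  have c2 : ∀ (c : ℝ) (x : ZMod 2), η x * η x = c • η x →
      (1 / 2 : ℂ) • η x * (1 / 2 : ℂ) • η x = (c / 2) • (1 / 2 : ℂ) • η x := by
    intro c x h
    rw [smul_mul_smul_comm, h]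
    ext i j
    simp only [Matrix.smul_apply, smul_eq_mul, Complex.real_smul]
    push_cast
    ring
  rw [cq_eq, cq_eq, combine_eq]
  set X := (1 / 2 : ℂ) • σ 0
  set Y := (1 / 2 : ℂ) • σ 1
  have f2 := h2 α m _ _ hZ hW
  set Z := (1 / 2 : ℂ) • η 0 with eZ
  set W := (1 / 2 : ℂ) • η 1 with eW
  refine ⟨swr α (X + Y) X, swr α (X + Y) Y, swr α (Z + W) Z, swr α (Z + W) W, swr_psd α _ hX,
    swr_psd α _ hY, swr_psd α _ hZ, swr_psd α _ hW, ?_, ?_,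
    Hdown_blk_real α hX hY, Hdown_blk_real α hZ hW, ?_, fun h => f2.1 (c1 h),
    fun ⟨c, h⟩ => f2.2 (c / 2) (c2 c 0 (h 0)) (c2 c 1 (h 1))⟩
  · rw [tp, ← swr_add, swr_self hα (hX.add hY), rt, t1, Complex.one_re]
  · rw [tp, ← swr_add, swr_self hα (hZ.add hW), rt, t2, Complex.one_re]
  · rw [Hdown_blk_real α ((hX.kronecker hZ).add (hY.kronecker hW))
      ((hX.kronecker hW).add (hY.kronecker hZ)), kron_total]
    simp only [swr_add, swr_kron α (hX.add hY) (hZ.add hW), tp]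

theorem bs_pos (α : ℝ) {p : ℝ} (hp : p ∈ Icc (0 : ℝ) 1) : 0 < bs α p := by
  unfold bs
  rcases le_total p (1 / 2) with h | h
  · exact add_pos_of_nonneg_of_pos (rpow_nonneg hp.1 _) (rpow_pos_of_pos (by linarith) _)
  · exact add_pos_of_pos_of_nonneg (rpow_pos_of_pos (by linarith) _)
      (rpow_nonneg (by linarith [hp.2]) _)

theorem bconv_mem {p q : ℝ} (hp : p ∈ Icc (0 : ℝ) (1 / 2)) (hq : q ∈ Icc (0 : ℝ) (1 / 2)) :
    bconv p q ∈ Icc (0 : ℝ) 1 := by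
  unfold bconv
  constructor <;> nlinarith [hp.1, hp.2, hq.1, hq.2]

theorem binG_bs {α F : ℝ} (hα : 1 < α) (hF : F ∈ Icc ((2 : ℝ) ^ (1 - α)) 1) :
    binG α (log F / (1 - α)) ∈ Icc (0 : ℝ) (1 / 2) ∧ bs α (binG α (log F / (1 - α))) = F := by
  obtain ⟨a, b⟩ := binG_spec hα hF
  exact ⟨⟨by linarith [a.2], by linarith [a.1]⟩, b⟩

theorem dual_log {α x : ℝ} (hα : 1 < α) (hx : x ∈ Icc ((2 : ℝ) ^ (1 - α)) 1) :
    2 ^ (1 - α) / x ∈ Icc ((2 : ℝ) ^ (1 - α)) 1 ∧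
      log 2 - log x / (1 - α) = log (2 ^ (1 - α) / x) / (1 - α) := by
  have hneg : 1 - α < 0 := by linarith
  have p2 := rpow_pos_of_pos (by norm_num : (0 : ℝ) < 2) (1 - α)
  have x0 : 0 < x := p2.trans_le hx.1
  refine ⟨⟨le_div_self p2.le x0 hx.2, (div_le_one x0).2 hx.1⟩, ?_⟩
  rw [log_div p2.ne' x0.ne', log_rpow (by norm_num)]
  field_simp [hneg.ne]

/-- Both branches of the bound, with a sign. -/
theorem glue_one (h2 : F2S) {α : ℝ} (hα : 1 < α) (σ : ZMod 2 → Matrix n n ℂ)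
    (η : ZMod 2 → Matrix m m ℂ) (hσ : ∀ x, (σ x).PosSemidef ∧ trace (σ x) = 1)
    (hη : ∀ x, (η x).PosSemidef ∧ trace (η x) = 1) (B : ℝ)
    (hB : (Commute (η 0) (η 1) ∧
        B = binH α (bconv (binG α (Hdown α (cq σ))) (binG α (Hdown α (cq η))))) ∨
      ((∃ c : ℝ, ∀ x, η x * η x = c • η x) ∧
        B = Hdown α (cq σ) + Hdown α (cq η) - log 2 + binH α
          (bconv (binG α (log 2 - Hdown α (cq σ))) (binG α (log 2 - Hdown α (cq η)))))) :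
    Hdown α (cq σ) ∈ Icc 0 (log 2) ∧ Hdown α (cq η) ∈ Icc 0 (log 2) ∧
      ∃ K x : ℝ, 0 < K ∧ 0 < x ∧ Hdown α (combine σ η) = log K / (1 - α) ∧ B = log x / (1 - α) ∧
        ∀ sg : ℝ, CM α sg → DM α sg → sg * K ≤ sg * x := by
  obtain ⟨P, Q, P', Q', hP, hQ, hP', hQ', h, h', e₁, e₂, e₃, c₁, c₂⟩ :=
    reduce_one h2 (by linarith : 0 < α) σ η hσ hη
  have hneg : 1 - α < 0 := by linarith
  have p2 := rpow_pos_of_pos (by norm_num : (0 : ℝ) < 2) (1 - α)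
  have r₁ : tp α P + tp α Q ∈ Icc ((2 : ℝ) ^ (1 - α)) 1 := rt_range hP hQ hα h
  have r₂ : tp α P' + tp α Q' ∈ Icc ((2 : ℝ) ^ (1 - α)) 1 := rt_range hP' hQ' hα h'
  have h12 : rt (mpow (P ⊗ₖ P' + Q ⊗ₖ Q' + (P ⊗ₖ Q' + Q ⊗ₖ P')) α) = 1 := by
    have := rt_kron_mul (X' := mpow (P' + Q') α) (Y' := 1) (mpow_isHermitian (P + Q) α)
      isHermitian_one
    rw [one_kronecker_one, mul_one, mul_one, mul_one] at this
    rw [kron_total, mpow_kron (hP.add hQ) (hP'.add hQ'), this]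
    exact (congrArg₂ (· * ·) h h').trans (mul_one 1)
  have r₃ := rt_range ((hP.kronecker hP').add (hQ.kronecker hQ'))
    ((hP.kronecker hQ').add (hQ.kronecker hP')) hα h12
  rw [e₁, e₂] at hB ⊢
  refine ⟨entropy_range hα r₁, entropy_range hα r₂,
    tp α (P ⊗ₖ P' + Q ⊗ₖ Q') + tp α (P ⊗ₖ Q' + Q ⊗ₖ P'), ?_⟩
  rcases hB with ⟨c, rfl⟩ | ⟨c, rfl⟩
  · obtain ⟨ma, ea⟩ := binG_bs hα r₁
    obtain ⟨mb, eb⟩ := binG_bs hα r₂
    exact ⟨_, p2.trans_le r₃.1, bs_pos α (bconv_mem ma mb), e₃, rfl, fun sg hc _ =>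
      hc n m P Q P' Q' hP hQ hP' hQ' h h' (c₁ c) _ ma _ mb ea.symm eb.symm⟩
  · obtain ⟨dF, eF⟩ := dual_log hα r₁
    obtain ⟨dG, eG⟩ := dual_log hα r₂
    rw [eF, eG]
    obtain ⟨ma, ea⟩ := binG_bs hα dF
    obtain ⟨mb, eb⟩ := binG_bs hα dG
    have F0 := p2.trans_le r₁.1
    have G0 := p2.trans_le r₂.1
    have y0 := bs_pos α (bconv_mem ma mb)
    refine ⟨_, p2.trans_le r₃.1, ?_, e₃, ?_, fun sg _ hd =>
      hd n m P Q P' Q' hP hQ hP' hQ' h h' (c₂ c) _ ma _ mb (by rw [ea]; field_simp)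
        (by rw [eb]; field_simp)⟩
    · positivity
    · rw [log_mul (by positivity) y0.ne', log_div (by positivity) p2.ne',
        log_mul F0.ne' G0.ne', log_rpow (by norm_num)]
      unfold binH bs
      field_simp [hneg.ne]

end Pool.Agent.MP_560646_mp.One
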