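import Pool.Agent.MP_560646_mp.One.Stm

/-! The pencil bound for orders between 1 and 2. -/

set_option autoImplicit false

namespace Pool.Agent.MP_560646_mp.One

open Matrix Real Set MeasureTheory
open scoped ComplexOrder MatrixOrder

theorem lo_unit (d2 : D2S) {α : ℝ} (a1 : 1 < α) (a2 : α < 2) {e y : ℝ} (he : e ∈ Icc (0 : ℝ) 1)
    (hy : y ∈ Icc (0 : ℝ) 1) :
    IntegrableOn (fun r => wt y r * (r ^ (1 - α) * max (e - r) 0 ^ α)) (Ioo 0 1) ∧
      J1 α * (kk α (e * y) - 2) =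
        2 / (α * (α - 1)) * ∫ r in Ioo (0 : ℝ) 1, wt y r * (r ^ (1 - α) * max (e - r) 0 ^ α) := by
  have v : ∀ x : ℝ, tp α (x • (1 : Matrix Unit Unit ℂ)) = x ^ α := fun x => by
    simp [unit_ud, tp_ud]
  have p : ∀ x : ℝ, pa α (x • (1 : Matrix Unit Unit ℂ)) = max x 0 ^ α := fun x => by
    simp [unit_ud, pa_ud]
  have hD := herm_smul (isHermitian_one (n := Unit) (α := ℂ)) e
  have h₁ : ((1 : Matrix Unit Unit ℂ) + e • 1).PosSemidef :=
    PosSemidef.one.add (PosSemidef.one.smul he.1)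
  have h₂ : ((1 : Matrix Unit Unit ℂ) - e • 1).PosSemidef := by
    convert (PosSemidef.one (n := Unit) (R := ℂ)).smul (sub_nonneg.2 he.2) using 1
    module
  have q : EqOn (fun r => wt y r * (r ^ (1 - α) * th α (1 : Matrix Unit Unit ℂ) (e • 1) r))
      (fun r => wt y r * (r ^ (1 - α) * max (e - r) 0 ^ α)) (Ioo 0 1) := fun r hr => by
    simp only [th, ← neg_smul, ← sub_smul, p]
    rw [max_eq_right (show -e - r ≤ 0 by linarith [he.1, hr.1]), zero_rpow (by linarith), add_zero]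
  obtain ⟨i, f⟩ := d2 α a1 a2 Unit 1 (e • 1) PosSemidef.one hD h₁ h₂ y hy
  refine ⟨i.congr_fun q measurableSet_Ioo, ?_⟩
  have b := v 1
  have c := v (1 + e * y)
  have c' := v (1 - e * y)
  rw [one_smul, one_rpow] at b
  rw [add_smul, one_smul, mul_comm, mul_smul] at c
  rw [sub_smul, one_smul, mul_comm, mul_smul] at c'
  rw [← setIntegral_congr_fun measurableSet_Ioo q, ← f, b, c, c', kk, mul_comm y, mul_one]

theorem lo_cross {α e : ℝ} (a0 : 0 < α) {T : ℝ → ℝ} (h0 : ∀ r, 0 ≤ T r)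
    (hm : ∀ r r' : ℝ, 0 ≤ r → r ≤ r' → T r ^ α⁻¹ + r ≤ T r' ^ α⁻¹ + r') :
    ∃ c ∈ Icc (0 : ℝ) 1, ∀ r ∈ Ioo (0 : ℝ) 1,
      (r < c → T r ≤ max (e - r) 0 ^ α) ∧ (c < r → max (e - r) 0 ^ α ≤ T r) := by
  set A : Set ℝ := {r | r ∈ Icc (0 : ℝ) 1 ∧ (r = 0 ∨ T r ^ α⁻¹ + r ≤ e)} with hA
  have z : (0 : ℝ) ∈ A := ⟨left_mem_Icc.2 zero_le_one, Or.inl rfl⟩
  have bd : BddAbove A := ⟨1, fun r hr => hr.1.2⟩
  have id : ∀ r, (T r ^ α⁻¹) ^ α = T r := fun r => rpow_inv_rpow (h0 r) a0.ne'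
  refine ⟨sSup A, ⟨le_csSup bd z, csSup_le ⟨0, z⟩ fun r hr => hr.1.2⟩, fun r hr =>
    ⟨fun h => ?_, fun h => ?_⟩⟩
  · obtain ⟨r', m, k⟩ := exists_lt_of_lt_csSup ⟨0, z⟩ h
    have := hm r r' hr.1.le k.le
    have := m.2.resolve_left (hr.1.trans k).ne'
    rw [← id r]
    exact rpow_le_rpow (rpow_nonneg (h0 r) _) (le_max_of_le_left (by linarith)) a0.le
  · have : ¬ T r ^ α⁻¹ + r ≤ e := fun k =>
      absurd (le_csSup bd ⟨⟨hr.1.le, hr.2.le⟩, Or.inr k⟩) (not_le.2 h)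
    rw [← id r]
    exact rpow_le_rpow (le_max_right _ _) (max_le (by linarith) (rpow_nonneg (h0 r) _)) a0.le

theorem pl12 (h7 : A7S) (d1 : D1S) (d2 : D2S) {α : ℝ} (a1 : 1 < α) (a2 : α < 2) : PL α 1 := by
  intro n _ _ S D hS hD p₁ p₂ hN e he y hy h
  rw [one_mul, one_mul]
  rcases hy.2.eq_or_lt with rfl | y1
  · rw [one_smul, mul_one, h]
  have o : (1 : ℝ) ∈ Icc (0 : ℝ) 1 := right_mem_Icc.2 zero_le_one
  obtain ⟨c, hc, k⟩ := lo_cross (e := e) (by linarith : 0 < α) (th_nonneg α hS.1 hD)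
    (d1 α a1 n S D hS hD hN)
  obtain ⟨i₁, f₁⟩ := d2 α a1 a2 n S D hS hD p₁ p₂ y hy
  obtain ⟨i₂, f₂⟩ := d2 α a1 a2 n S D hS hD p₁ p₂ 1 o
  obtain ⟨j₁, e₁⟩ := lo_unit d2 a1 a2 he hy
  obtain ⟨j₂, e₂⟩ := lo_unit d2 a1 a2 he o
  rw [one_smul, h, hN, mul_one] at f₂
  rw [mul_one] at e₂
  rw [hN, mul_one] at f₁
  have y2 : y ^ 2 < 1 := by nlinarith [hy.1]
  have dc : 0 < 1 - y ^ 2 * c ^ 2 := by
    have : c ^ 2 ≤ 1 := pow_le_one₀ hc.1 hc.2
    nlinarith [sq_nonneg y, sq_nonneg c]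
  set μ := y ^ 2 * (1 - c ^ 2) / (1 - y ^ 2 * c ^ 2) with hμ
  have key := setIntegral_mono_on (i₁.sub (i₂.const_mul μ)) (j₁.sub (j₂.const_mul μ))
    measurableSet_Ioo fun r hr => by
      have a := wt_den hy hr.1.le hr.2
      have b := wt_den o hr.1.le hr.2
      have w : wt y r - μ * wt 1 r = y ^ 2 * (1 - y ^ 2) * ((c - r) * (c + r)) /
          ((1 - y ^ 2 * r ^ 2) * (1 - y ^ 2 * c ^ 2) * (1 - 1 ^ 2 * r ^ 2)) := by
        rw [hμ]
        unfold wt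
        have := a.ne'
        have := b.ne'
        have := dc.ne'
        generalize hA : 1 - y ^ 2 * r ^ 2 = A at *
        generalize hB : 1 - 1 ^ 2 * r ^ 2 = B at *
        generalize hC : 1 - y ^ 2 * c ^ 2 = C at *
        field_simp
        rw [← hB, ← hC, ← hA]
        ring
      have x := rpow_nonneg hr.1.le (1 - α)
      have u : 0 ≤ y ^ 2 * (1 - y ^ 2) := mul_nonneg (sq_nonneg y) (by linarith)
      have u' : 0 ≤ c + r := by linarith [hc.1, hr.1]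
      have u'' := (mul_pos (mul_pos a dc) b).le
      have g : (wt y r - μ * wt 1 r) * (r ^ (1 - α) * (th α S D r - max (e - r) 0 ^ α)) ≤ 0 := by
        rw [w]
        rcases lt_trichotomy r c with t | t | t
        · exact mul_nonpos_of_nonneg_of_nonpos
            (div_nonneg (mul_nonneg u (mul_nonneg (by linarith) u')) u'')
            (mul_nonpos_of_nonneg_of_nonpos x (sub_nonpos.2 ((k r hr).1 t)))
        · simp [t]
        · exact mul_nonpos_of_nonpos_of_nonneg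
            (div_nonpos_of_nonpos_of_nonneg (mul_nonpos_of_nonneg_of_nonpos u
              (mul_nonpos_of_nonpos_of_nonneg (by linarith) u')) u'')
            (mul_nonneg x (sub_nonneg.2 ((k r hr).2 t)))
      simp only [Pi.sub_apply]
      linear_combination g
  simp only [Pi.sub_apply] at key
  rw [integral_sub i₁ (i₂.const_mul μ), integral_sub j₁ (j₂.const_mul μ), integral_const_mul,
    integral_const_mul] at key
  have B : 0 < 2 / (α * (α - 1)) := div_pos two_pos (mul_pos (by linarith) (by linarith))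
  rw [mul_left_cancel₀ B.ne' (f₂.symm.trans e₂)] at key
  have := mul_le_mul_of_nonneg_left (sub_le_sub_iff_right _ |>.1 key) B.le
  rw [← f₁, ← e₁] at this
  linarith [le_of_mul_le_mul_left this (h7 α a1 a2).1]

end Pool.Agent.MP_560646_mp.One
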