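import Pool.Agent.MP_560646_mp.One.Stm

/-! The pencil bound for orders between 2 and 4. -/

set_option autoImplicit false

namespace Pool.Agent.MP_560646_mp.One

open Matrix Real Set MeasureTheory
open scoped ComplexOrder MatrixOrder

/-- An integrable function on the half line together with its integral. -/
def HI (f : ℝ → ℝ) (a : ℝ) : Prop := IntegrableOn f (Ioi 0) ∧ ∫ t in Ioi (0 : ℝ), f t = a

theorem HI.add {f g : ℝ → ℝ} {a b : ℝ} (h : HI f a) (k : HI g b) :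
    HI (fun t => f t + g t) (a + b) := ⟨h.1.add k.1, by rw [integral_add h.1 k.1, h.2, k.2]⟩

theorem HI.mul {f : ℝ → ℝ} {a : ℝ} (c : ℝ) (h : HI f a) : HI (fun t => c * f t) (c * a) :=
  ⟨h.1.const_mul c, by rw [integral_const_mul, h.2]⟩

theorem HI.sum {ι : Type} [Fintype ι] {f : ι → ℝ → ℝ} {a : ι → ℝ} (h : ∀ i, HI (f i) (a i)) :
    HI (fun t => ∑ i, f i t) (∑ i, a i) :=
  ⟨integrable_finsetSum _ fun i _ => (h i).1, by
    rw [integral_finsetSum _ fun i _ => (h i).1]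
    exact Finset.sum_congr rfl fun i _ => (h i).2⟩

theorem HI.congr {f g : ℝ → ℝ} {a b : ℝ} (h : HI f a) (e : ∀ t, 0 < t → f t = g t) (e' : a = b) :
    HI g b := ⟨h.1.congr_fun e measurableSet_Ioi, by
  rw [← e', ← h.2]
  exact (setIntegral_congr_fun measurableSet_Ioi e).symm⟩

theorem HI.le {f g : ℝ → ℝ} {a b : ℝ} (h : HI f a) (k : HI g b) (e : ∀ t, 0 < t → f t ≤ g t) :
    a ≤ b := by
  rw [← h.2, ← k.2]
  exact setIntegral_mono_on h.1 k.1 measurableSet_Ioi e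

theorem hi_zero : HI (fun _ => 0) 0 := ⟨integrableOn_zero, by simp⟩

section
variable {n : Type} [Fintype n]

theorem int_left (h1 : A1S) (h2 : A2S) {α c : ℝ} (hR : Rg α c) {s p q : n → ℝ} {w : n → n → ℝ}
    {v : ℝ} (hs : ∀ i, 0 ≤ s i) (hp : ∀ i, 0 ≤ p i) (hq : ∀ i, 0 ≤ q i)
    (hw : ∀ i j, s i = 0 ∨ s j = 0 → w i j = 0) (m1 : ∑ i, p i + ∑ i, q i = 2 * ∑ i, s i)
    (m2 : ∑ i, p i ^ 2 + ∑ i, q i ^ 2 = 2 * ∑ i, s i ^ 2 + 2 * v * ∑ i, ∑ j, w i j)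
    (m3 : ∑ i, p i ^ 3 + ∑ i, q i ^ 3 = 2 * ∑ i, s i ^ 3 + 3 * v * ∑ i, ∑ j, w i j * (s i + s j)) :
    HI (fun t => t ^ (α - 1) * (∑ i, log (p i + t) + ∑ i, log (q i + t) - 2 * ∑ i, log (s i + t) +
      v * ∑ i, ∑ j, w i j * ((s i + t) * (s j + t))⁻¹))
      (I1 α c * (∑ i, p i ^ α + ∑ i, q i ^ α - 2 * ∑ i, s i ^ α) +
        v * (rho α c * ∑ i, ∑ j, w i j * dd α (s i) (s j))) := by
  have a : ∀ x : n → ℝ, (∀ i, 0 ≤ x i) → HI (fun t => ∑ i, t ^ (α - 1) * lgk c (x i) t)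
      (∑ i, x i ^ α * I1 α c) := fun x hx => HI.sum fun i => (h1 α c hR).2 _ (hx i)
  have b : ∀ i j, HI (fun t => w i j * (t ^ (α - 1) * rk c (s i) (s j) t))
      (w i j * (rho α c * dd α (s i) (s j))) := fun i j => by
    by_cases z : s i = 0 ∨ s j = 0
    · simpa only [hw i j z, zero_mul] using hi_zero
    · rw [not_or] at z
      exact HI.mul _ (h2 α c hR _ _ ((hs i).lt_of_ne' z.1) ((hs j).lt_of_ne' z.2))
  refine ((((a p hp).add (a q hq)).add ((a s hs).mul (-2))).add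
    ((HI.sum fun i => HI.sum fun j => b i j).mul v)).congr (fun t ht => ?_) ?_
  · have e : ∀ x : n → ℝ, ∑ i, t ^ (α - 1) * lgk c (x i) t = t ^ (α - 1) * (∑ i, log (x i + t) -
        ∑ _i : n, log t - (∑ i, x i) / t + (∑ i, x i ^ 2) / (2 * t ^ 2) -
        c * (∑ i, x i ^ 3) / (3 * t ^ 3)) := fun x => by
      simp only [lgk, ← Finset.mul_sum, Finset.sum_sub_distrib, Finset.sum_add_distrib,
        ← Finset.sum_div]
    have e' : ∑ i, ∑ j, w i j * (t ^ (α - 1) * rk c (s i) (s j) t) = t ^ (α - 1) *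
        (∑ i, ∑ j, w i j * ((s i + t) * (s j + t))⁻¹ - (∑ i, ∑ j, w i j) * (t ^ 2)⁻¹ +
          c * (∑ i, ∑ j, w i j * (s i + s j)) / t ^ 3) := by
      simp only [Finset.mul_sum, Finset.sum_mul, Finset.sum_div, ← Finset.sum_sub_distrib,
        ← Finset.sum_add_distrib, rk]
      exact Finset.sum_congr rfl fun i _ => Finset.sum_congr rfl fun j _ => by ring
    rw [e, e, e, e']
    have t0 := ht.ne'
    linear_combination t ^ (α - 1) * (-(m1 / t) + m2 / (2 * t ^ 2) - c * m3 / (3 * t ^ 3))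
  · simp only [← Finset.sum_mul, mul_left_comm _ (rho α c), ← Finset.mul_sum]
    ring

theorem int_right (h3 : A3S) (h5 : A5S) {α v l u : ℝ} (a2 : 2 < α) (a4 : α < 4)
    (hv : v ∈ Icc (0 : ℝ) 1) (hl : v ^ 2 ≤ l) (l1 : l ≤ 1) (hu : u ∈ Icc (0 : ℝ) 1) {s : n → ℝ}
    {w : n → n → ℝ} (hs : ∀ i, 0 ≤ s i) (w0 : ∀ i j, 0 ≤ w i j) (ws : ∀ i j, w i j = w j i)
    (hw : ∀ i j, s i = 0 ∨ s j = 0 → w i j = 0) : ∃ b : ℝ,
    HI (fun t => t ^ (α - 1) * (∑ i, (ph v l (zz u (s i) t) - zz u (s i) t * pd v l (zz u (s i) t)) +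
      ∑ i, ∑ j, w i j * (pd v l (zz u (s i) t) * ((s i + t) * (s j + t))⁻¹))) b ∧
    (∑ i, s i ^ α) * aa α v l u + ga α v l u * ∑ i, ∑ j, w i j * dd α (s i) (s j) ≤ b := by
  set k : n → n → ℝ := fun i j => ∫ t in Ioi (0 : ℝ),
    t ^ (α - 1) * (pd v l (zz u (s i) t) * ((s i + t) * (s j + t))⁻¹) with hk
  have b : ∀ i j, HI (fun t => w i j *
      (t ^ (α - 1) * (pd v l (zz u (s i) t) * ((s i + t) * (s j + t))⁻¹))) (w i j * k i j) ∧
      w i j * (2 * (ga α v l u * dd α (s i) (s j))) ≤ w i j * k i j + w j i * k j i := fun i j => by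
    by_cases z : s i = 0 ∨ s j = 0
    · simpa only [hw i j z, hw j i z.symm, zero_mul, add_zero, le_refl, and_true] using hi_zero
    · rw [not_or] at z
      have := h5 α v l u a2 a4 hv hl l1 hu _ _ ((hs i).lt_of_ne' z.1) ((hs j).lt_of_ne' z.2)
      exact ⟨HI.mul _ ⟨this.1, rfl⟩, by
        rw [← ws i j, ← mul_add]
        exact mul_le_mul_of_nonneg_left this.2 (w0 i j)⟩
  refine ⟨_, ((HI.sum fun i => h3 α v l u a2 a4 hv hl l1 hu _ (hs i)).add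
    (HI.sum fun i => HI.sum fun j => (b i j).1)).congr (fun t _ => ?_) rfl, ?_⟩
  · simp only [mul_add, Finset.mul_sum, mul_left_comm (t ^ (α - 1))]
  · have := Finset.sum_le_sum fun i (_ : i ∈ Finset.univ) =>
      Finset.sum_le_sum fun j (_ : j ∈ Finset.univ) => (b i j).2
    simp only [Finset.sum_add_distrib] at this
    rw [Finset.sum_comm (f := fun i j => w j i * k j i)] at this
    have e : ∑ i, ∑ j, w i j * (2 * (ga α v l u * dd α (s i) (s j))) =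
        2 * (ga α v l u * ∑ i, ∑ j, w i j * dd α (s i) (s j)) := by
      simp only [Finset.mul_sum]
      exact Finset.sum_congr rfl fun i _ => Finset.sum_congr rfl fun j _ => by ring
    rw [Finset.sum_mul]
    linarith

end

theorem Rg.rng {α c : ℝ} (h : Rg α c) : 2 < α ∧ α < 4 := by
  rcases h with h | h <;> constructor <;> linarith [h.2.1, h.2.2]

theorem zz_mem {u s t : ℝ} (hu : u ∈ Icc (0 : ℝ) 1) (hs : 0 ≤ s) (ht : 0 < t) :
    zz u s t ∈ Ico (0 : ℝ) 1 := by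
  have := hu.1
  refine ⟨by unfold zz; positivity, ?_⟩
  rw [zz, div_lt_one (by positivity)]
  nlinarith [mul_le_of_le_one_left (sq_nonneg s) hu.2, mul_nonneg hs ht.le, mul_pos ht ht]

theorem bsc_eq (h1 : A1S) (h2 : A2S) (h3 : A3S) (h5 : A5S) {α c : ℝ} (hR : Rg α c) {e y l : ℝ}
    (he : e ∈ Icc (0 : ℝ) 1) (hy : y ∈ Icc (0 : ℝ) 1) (hl : (y ^ 2) ^ 2 ≤ l) (l1 : l ≤ 1) :
    I1 α c * (kk α (e * y) - 2 - l * (kk α e - 2)) =
      aa α (y ^ 2) l (e ^ 2) + (ga α (y ^ 2) l (e ^ 2) - (y ^ 2 - l) * rho α c) * e ^ 2 := by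
  have hv : y ^ 2 ∈ Icc (0 : ℝ) 1 := ⟨sq_nonneg y, pow_le_one₀ hy.1 hy.2⟩
  have hu : e ^ 2 ∈ Icc (0 : ℝ) 1 := ⟨sq_nonneg e, pow_le_one₀ he.1 he.2⟩
  have L : ∀ x ∈ Icc (0 : ℝ) 1, HI (fun t => t ^ (α - 1) * (log (1 - x ^ 2 * zz (e ^ 2) 1 t) +
      x ^ 2 * (e ^ 2 * ((1 + t) * (1 + t))⁻¹)))
      (I1 α c * (kk α (e * x) - 2) + x ^ 2 * (rho α c * e ^ 2)) := fun x hx => by
    have a : e * x ≤ 1 := mul_le_one₀ he.2 hx.1 hx.2
    have a' : 0 ≤ e * x := mul_nonneg he.1 hx.1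
    refine (int_left (n := Unit) h1 h2 hR (s := fun _ => 1) (p := fun _ => 1 + e * x)
      (q := fun _ => 1 - e * x) (w := fun _ _ => e ^ 2) (v := x ^ 2) (fun _ => zero_le_one)
      (fun _ => by linarith) (fun _ => by linarith) (by simp) (by simp; ring) (by simp; ring)
      (by simp; ring)).congr (fun t ht => ?_) (by simp [kk, dd])
    simp only [Finset.univ_unique, Finset.sum_singleton]
    have b : 1 - x ^ 2 * zz (e ^ 2) 1 t = (1 + e * x + t) * (1 - e * x + t) / (1 + t) ^ 2 := by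
      unfold zz
      field_simp
      ring
    rw [b, log_div (by apply ne_of_gt; apply mul_pos <;> linarith) (by positivity),
      log_mul (by linarith) (by linarith), log_pow]
    norm_num
  have A := h3 α _ l _ hR.rng.1 hR.rng.2 hv hl l1 hu 1 zero_le_one
  have G := (h5 α _ l _ hR.rng.1 hR.rng.2 hv hl l1 hu 1 1 one_pos one_pos).1
  have X := (L y hy).add ((L 1 (right_mem_Icc.2 zero_le_one)).mul (-l))
  have Y := HI.add A (HI.mul (e ^ 2) (show HI _ (ga α (y ^ 2) l (e ^ 2)) from ⟨G, rfl⟩))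
  have := (X.congr (fun t ht => ?_) rfl).2.symm.trans Y.2
  · rw [one_rpow, mul_one e] at this
    linear_combination this
  · have b : e ^ 2 * ((1 + t) * (1 + t))⁻¹ = zz (e ^ 2) 1 t := by
      unfold zz
      field_simp
    simp only [ph, one_pow, one_mul]
    linear_combination (t ^ (α - 1) * (y ^ 2 - l - pd (y ^ 2) l (zz (e ^ 2) 1 t))) * b

theorem main_ineq (h1 : A1S) (h2 : A2S) (h3 : A3S) (h5 : A5S) (hB : BS) (hC : CS) {α c : ℝ}
    (hR : Rg α c) {n : Type} [Fintype n] [DecidableEq n] {S D : Matrix n n ℂ} (hS : S.PosSemidef)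
    (hD : D.IsHermitian) (p₁ : (S + D).PosSemidef) (p₂ : (S - D).PosSemidef) (hN : tp α S = 1) :
    ∃ M : ℝ, ∀ e ∈ Icc (0 : ℝ) 1, ∀ y ∈ Icc (0 : ℝ) 1, ∀ l : ℝ, (y ^ 2) ^ 2 ≤ l → l ≤ 1 →
      (ga α (y ^ 2) l (e ^ 2) - (y ^ 2 - l) * rho α c) * (M - e ^ 2) ≤
        I1 α c * (tp α (S + y • D) + tp α (S - y • D) - kk α (e * y) -
          l * (tp α (S + D) + tp α (S - D) - kk α e)) := by
  obtain ⟨V, s, hs, rfl⟩ := exists_ud hS
  refine ⟨∑ i, ∑ j, ov V V D i j * dd α (s i) (s j), fun e he y hy l hl l1 => ?_⟩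
  have hv : y ^ 2 ∈ Icc (0 : ℝ) 1 := ⟨sq_nonneg y, pow_le_one₀ hy.1 hy.2⟩
  have hu : e ^ 2 ∈ Icc (0 : ℝ) 1 := ⟨sq_nonneg e, pow_le_one₀ he.1 he.2⟩
  obtain ⟨mom, zer⟩ := hC n V s D hD
  have hw : ∀ i j, s i = 0 ∨ s j = 0 → ov V V D i j = 0 := fun i j z =>
    z.elim (zer p₁ p₂ i j) fun z => by rw [ov_symm V V hD]; exact zer p₁ p₂ j i z
  have L : ∀ x ∈ Icc (0 : ℝ) 1, HI (fun t => t ^ (α - 1) * (ld (ud V s + x • D + t • 1) +
      ld (ud V s - x • D + t • 1) - 2 * ld (ud V s + t • 1) +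
      x ^ 2 * ∑ i, ∑ j, ov V V D i j * ((s i + t) * (s j + t))⁻¹))
      (I1 α c * (tp α (ud V s + x • D) + tp α (ud V s - x • D) - 2) +
        x ^ 2 * (rho α c * ∑ i, ∑ j, ov V V D i j * dd α (s i) (s j))) := fun x hx => by
    obtain ⟨U, p, hp, ep⟩ := exists_ud (pencil_psd hS p₁ p₂ hx).1
    obtain ⟨W, q, hq, eq⟩ := exists_ud (pencil_psd hS p₁ p₂ hx).2
    obtain ⟨m1, m2, m3⟩ := mom U W p q x ep eq
    refine (int_left h1 h2 hR hs hp hq hw m1 m2 m3).congr (fun t ht => ?_) ?_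
    · have z : ∀ a : n → ℝ, (∀ i, 0 ≤ a i) → ∀ i, a i + t ≠ 0 := fun a ha i => by
        have := ha i
        positivity
      rw [ep, eq, ud_shift, ud_shift, ud_shift, ld_ud _ (z p hp), ld_ud _ (z q hq), ld_ud _ (z s hs)]
    · rw [ep, eq, tp_ud, tp_ud, ← tp_ud α V s, hN, mul_one]
  obtain ⟨b, hb, kb⟩ := int_right h3 h5 hR.rng.1 hR.rng.2 hv hl l1 hu hs (ov_nonneg V V D)
    (fun i j => ov_symm V V hD i j) hw
  have X := (L y hy).add ((L 1 (right_mem_Icc.2 zero_le_one)).mul (-l))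
  have k := hb.le X fun t ht => by
    have := mul_le_mul_of_nonneg_left (hB n V s D hs hD p₁ p₂ y hy l hl t ht
      (fun i => zz (e ^ 2) (s i) t) fun i => zz_mem hu (hs i) ht) (rpow_nonneg ht.le (α - 1))
    simp only [one_smul]
    linear_combination this
  rw [← tp_ud α V s, hN] at kb
  have := bsc_eq h1 h2 h3 h5 hR he hy hl l1
  simp only [one_smul] at k
  linear_combination k + kb + this

theorem pl24 (h1 : A1S) (h2 : A2S) (h3 : A3S) (h5 : A5S) (h6 : A6S) (hB : BS) (hC : CS) {α c : ℝ}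
    (hR : Rg α c) : PL α (2 * c - 1) := by
  intro n _ _ S D hS hD p₁ p₂ hN e he y hy h
  obtain ⟨M, hM⟩ := main_ineq h1 h2 h3 h5 hB hC hR hS hD p₁ p₂ hN
  have hv : y ^ 2 ∈ Icc (0 : ℝ) 1 := ⟨sq_nonneg y, pow_le_one₀ hy.1 hy.2⟩
  have hu : e ^ 2 ∈ Icc (0 : ℝ) 1 := ⟨sq_nonneg e, pow_le_one₀ he.1 he.2⟩
  obtain ⟨g0, g1, g2⟩ := h6 α _ hu
  have I := (h1 α c hR).1
  have a := hM e he 0 (left_mem_Icc.2 zero_le_one) 1 (by norm_num) le_rfl
  have k0 : kk α 0 = 2 := by rw [kk, add_zero, sub_zero, one_rpow]; norm_num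
  rw [h, zero_smul, add_zero, sub_zero, hN, mul_zero, k0, zero_pow two_ne_zero] at a
  have vv : (y ^ 2) ^ 2 ≤ y ^ 2 := by nlinarith [hv.1, hv.2]
  rcases hR with ⟨rfl, r⟩ | ⟨rfl, r⟩
  · have g := g1 (Or.inl ⟨rfl, r⟩)
    have m : 0 ≤ M - e ^ 2 := by nlinarith
    have b := hM e he y hy _ vv hv.2
    rw [h] at b
    have := mul_nonneg (g0 _ _ hv vv) m
    nlinarith
  · obtain ⟨g, g'⟩ := g2 (Or.inr ⟨rfl, r⟩)
    have := g0 0 1 (left_mem_Icc.2 zero_le_one) (by norm_num)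
    have m : M - e ^ 2 ≤ 0 := by nlinarith
    have b := hM e he y hy _ le_rfl (vv.trans hv.2)
    rw [h] at b
    have := mul_nonneg_of_nonpos_of_nonpos (sub_nonpos.2 (g' _ hv)) m
    nlinarith

end Pool.Agent.MP_560646_mp.One
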