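import Pool.Agent.MP_560646_mp.One.A1
import Pool.Agent.MP_560646_mp.One.A2
import Pool.Agent.MP_560646_mp.One.A3
import Pool.Agent.MP_560646_mp.One.A4
import Pool.Agent.MP_560646_mp.One.A5
import Pool.Agent.MP_560646_mp.One.A6
import Pool.Agent.MP_560646_mp.One.A7
import Pool.Agent.MP_560646_mp.One.B
import Pool.Agent.MP_560646_mp.One.C
import Pool.Agent.MP_560646_mp.One.D1
import Pool.Agent.MP_560646_mp.One.D2
import Pool.Agent.MP_560646_mp.One.E
import Pool.Agent.MP_560646_mp.One.F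
import Pool.Agent.MP_560646_mp.One.F2
import Pool.Agent.MP_560646_mp.One.Gl
import Pool.Agent.MP_560646_mp.One.Lo
import Pool.Agent.MP_560646_mp.One.Mn

/-! The one-sided bound for real orders between 1 and 4. -/

set_option autoImplicit false

namespace Pool.Agent.MP_560646_mp.One

open Matrix Kronecker Real Set MeasureTheory
open scoped ComplexOrder MatrixOrder

theorem pl_rg {α c : ℝ} (h : Rg α c) : PL α (2 * c - 1) :=
  pl24 a1S a2S a3S (a5S a4S) (a6S a2S (a5S a4S)) bS cS h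

theorem pl_pos {α : ℝ} (h₁ : 1 < α) (h₄ : α < 4) (h : α ≤ 2 ∨ 3 ≤ α) : PL α 1 := by
  rcases h with h | h
  · rcases h.eq_or_lt with rfl | h
    · exact (gS 1).1
    · exact pl12 a7S d1S (d2S a7S) h₁ h
  · rcases h.eq_or_lt with rfl | h
    · exact (gS 1).2
    · have := pl_rg (c := 1) (Or.inr ⟨rfl, h, h₄⟩)
      rwa [show (2 : ℝ) * 1 - 1 = 1 by norm_num] at this

theorem pl_neg {α : ℝ} (h₂ : 2 ≤ α) (h₃ : α ≤ 3) : PL α (-1) := by
  rcases h₂.eq_or_lt with rfl | h₂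
  · exact (gS _).1
  rcases h₃.eq_or_lt with rfl | h₃
  · exact (gS _).2
  have := pl_rg (c := 0) (Or.inl ⟨rfl, h₂, h₃⟩)
  rwa [show (2 : ℝ) * 0 - 1 = -1 by norm_num] at this

variable {n m : Type} [Fintype n] [DecidableEq n] [Fintype m] [DecidableEq m]

theorem renyi_branch {α : ℝ} (hα : 1 < α) (h₄ : α < 4) (σ : ZMod 2 → Matrix n n ℂ)
    (η : ZMod 2 → Matrix m m ℂ) (hσ : ∀ x, (σ x).PosSemidef ∧ trace (σ x) = 1)
    (hη : ∀ x, (η x).PosSemidef ∧ trace (η x) = 1) (B : ℝ)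
    (hB : (Commute (η 0) (η 1) ∧
        B = binH α (bconv (binG α (Hdown α (cq σ))) (binG α (Hdown α (cq η))))) ∨
      ((∃ c : ℝ, ∀ x, η x * η x = c • η x) ∧
        B = Hdown α (cq σ) + Hdown α (cq η) - log 2 + binH α
          (bconv (binG α (log 2 - Hdown α (cq σ))) (binG α (log 2 - Hdown α (cq η)))))) :
    Hdown α (cq σ) ∈ Icc 0 (log 2) ∧ Hdown α (cq η) ∈ Icc 0 (log 2) ∧
      (α ≤ 2 ∨ 3 ≤ α → B ≤ Hdown α (combine σ η)) ∧
      (2 ≤ α → α ≤ 3 → Hdown α (combine σ η) ≤ B) := by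
  obtain ⟨a, b, K, x, K0, x0, e, e', H⟩ := glue_one f2S hα σ η hσ hη B hB
  have hneg : 1 - α ≤ 0 := by linarith
  rw [e, e']
  refine ⟨a, b, fun h => ?_, fun h₂ h₃ => ?_⟩
  · have c := eS α 1 hα (pl_pos hα h₄ h)
    have := H 1 c (fS α 1 hα c)
    exact div_le_div_of_nonpos_of_le hneg (log_le_log K0 (by linarith))
  · have c := eS α (-1) hα (pl_neg h₂ h₃)
    have := H (-1) c (fS α (-1) hα c)
    exact div_le_div_of_nonpos_of_le hneg (log_le_log x0 (by linarith))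

end Pool.Agent.MP_560646_mp.One
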