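import Mathlib

/-! Scalar kernels for the one-sided bound at real orders between 1 and 4. -/

set_option autoImplicit false

namespace Pool.Agent.MP_560646_mp.One

open Real Set MeasureTheory

/-- The two open ranges of the order, with the flag of the cubic subtraction. -/
def Rg (α c : ℝ) : Prop := (c = 0 ∧ 2 < α ∧ α < 3) ∨ (c = 1 ∧ 3 < α ∧ α < 4)

noncomputable def lgk (c x t : ℝ) : ℝ :=
  log (x + t) - log t - x / t + x ^ 2 / (2 * t ^ 2) - c * x ^ 3 / (3 * t ^ 3)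

noncomputable def rk (c s s' t : ℝ) : ℝ :=
  ((s + t) * (s' + t))⁻¹ - (t ^ 2)⁻¹ + c * (s + s') / t ^ 3

noncomputable def dd (α s s' : ℝ) : ℝ :=
  if s = s' then s ^ (α - 2) else (s ^ (α - 1) - s' ^ (α - 1)) / ((α - 1) * (s - s'))

noncomputable def ph (v l z : ℝ) : ℝ := log (1 - v * z) - l * log (1 - z) + (v - l) * z

noncomputable def pd (v l z : ℝ) : ℝ := l * z / (1 - z) - v ^ 2 * z / (1 - v * z)

noncomputable def zz (u s t : ℝ) : ℝ := u * s ^ 2 / (s + t) ^ 2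

noncomputable def gk (x s : ℝ) : ℝ := (x + s) * log (x + s) - s * log s - x * log s - x

noncomputable def I1 (α c : ℝ) : ℝ := ∫ t in Ioi (0 : ℝ), t ^ (α - 1) * lgk c 1 t

noncomputable def rho (α c : ℝ) : ℝ := ∫ t in Ioi (0 : ℝ), t ^ (α - 1) * rk c 1 1 t

noncomputable def aa (α v l u : ℝ) : ℝ :=
  ∫ t in Ioi (0 : ℝ), t ^ (α - 1) * (ph v l (zz u 1 t) - zz u 1 t * pd v l (zz u 1 t))

noncomputable def ga (α v l u : ℝ) : ℝ :=
  ∫ t in Ioi (0 : ℝ), t ^ (α - 1) * (pd v l (zz u 1 t) * ((1 + t) * (1 + t))⁻¹)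

noncomputable def J1 (α : ℝ) : ℝ := ∫ s in Ioi (0 : ℝ), s ^ (α - 2) * gk 1 s

/-- Integrability on the half line from power bounds at both ends. -/
theorem integ_of_bound {f : ℝ → ℝ} {C p q : ℝ} (hc : ContinuousOn f (Ioi 0)) (hp : -1 < p)
    (hq : q < -1) (h₀ : ∀ t, 0 < t → t ≤ 1 → |f t| ≤ C * t ^ p)
    (h₁ : ∀ t, 1 ≤ t → |f t| ≤ C * t ^ q) : IntegrableOn f (Ioi 0) := by
  rw [← Ioc_union_Ioi_eq_Ioi zero_le_one]
  refine IntegrableOn.union ?_ ?_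
  · have i : IntegrableOn (fun t : ℝ => C * t ^ p) (Ioc 0 1) :=
      ((intervalIntegrable_iff_integrableOn_Ioc_of_le zero_le_one).1
        (intervalIntegral.intervalIntegrable_rpow' hp)).const_mul C
    exact i.mono' ((hc.mono Ioc_subset_Ioi_self).aestronglyMeasurable measurableSet_Ioc)
      ((ae_restrict_mem measurableSet_Ioc).mono fun t ht => h₀ t ht.1 ht.2)
  · have i : IntegrableOn (fun t : ℝ => C * t ^ q) (Ioi 1) :=
      (integrableOn_Ioi_rpow_of_lt hq one_pos).const_mul C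
    exact i.mono' ((hc.mono (Ioi_subset_Ioi zero_le_one)).aestronglyMeasurable measurableSet_Ioi)
      ((ae_restrict_mem measurableSet_Ioi).mono fun t ht => h₁ t (le_of_lt ht))

/-- Scaling of the variable on the half line. -/
theorem integ_scale {f g : ℝ → ℝ} {x k : ℝ} (hx : 0 < x) (hg : IntegrableOn g (Ioi 0))
    (h : ∀ t, 0 < t → f (x * t) = k * g t) :
    IntegrableOn f (Ioi 0) ∧ ∫ t in Ioi (0 : ℝ), f t = x * k * ∫ t in Ioi (0 : ℝ), g t := by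
  have e : EqOn (fun t => k * g t) (fun t => f (x * t)) (Ioi 0) := fun t ht => (h t ht).symm
  have i : IntegrableOn (fun t => f (x * t)) (Ioi 0) :=
    (show IntegrableOn (fun t => k * g t) (Ioi 0) volume from hg.const_mul k).congr_fun e measurableSet_Ioi
  have j := integral_comp_mul_left_Ioi f 0 hx
  rw [mul_zero, ← setIntegral_congr_fun measurableSet_Ioi e, integral_const_mul, smul_eq_mul] at j
  refine ⟨by simpa using (integrableOn_Ioi_comp_mul_left_iff f 0 hx).1 i, ?_⟩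
  rw [mul_assoc, j, ← mul_assoc, mul_inv_cancel₀ hx.ne', one_mul]

/-- A continuous integrable function that is positive on the half line has positive integral. -/
theorem integ_pos {f : ℝ → ℝ} (hi : IntegrableOn f (Ioi 0)) (h : ∀ t, 0 < t → 0 < f t) :
    0 < ∫ t in Ioi (0 : ℝ), f t := by
  rw [setIntegral_pos_iff_support_of_nonneg_ae
    ((ae_restrict_mem measurableSet_Ioi).mono fun t ht => (h t ht).le) hi]
  have : Function.support f ∩ Ioi 0 = Ioi 0 := inter_eq_right.2 fun t ht => (h t ht).ne'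
  simp [this]

def A1S : Prop := ∀ α c : ℝ, Rg α c → 0 < (1 - 2 * c) * I1 α c ∧ ∀ x : ℝ, 0 ≤ x →
  IntegrableOn (fun t => t ^ (α - 1) * lgk c x t) (Ioi 0) ∧
    ∫ t in Ioi (0 : ℝ), t ^ (α - 1) * lgk c x t = x ^ α * I1 α c

def A2S : Prop := ∀ α c : ℝ, Rg α c → ∀ s s' : ℝ, 0 < s → 0 < s' →
  IntegrableOn (fun t => t ^ (α - 1) * rk c s s' t) (Ioi 0) ∧
    ∫ t in Ioi (0 : ℝ), t ^ (α - 1) * rk c s s' t = rho α c * dd α s s'

def A3S : Prop := ∀ α v l u : ℝ, 2 < α → α < 4 → v ∈ Icc (0 : ℝ) 1 → v ^ 2 ≤ l → l ≤ 1 →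
  u ∈ Icc (0 : ℝ) 1 → ∀ s : ℝ, 0 ≤ s →
  IntegrableOn (fun t => t ^ (α - 1) * (ph v l (zz u s t) - zz u s t * pd v l (zz u s t))) (Ioi 0) ∧
    ∫ t in Ioi (0 : ℝ), t ^ (α - 1) * (ph v l (zz u s t) - zz u s t * pd v l (zz u s t)) =
      s ^ α * aa α v l u

def A4S : Prop := ∀ α s s' : ℝ, 2 < α → α < 4 → 0 < s → 0 < s' → ∃ κ : ℝ, 0 ≤ κ ∧
  ∀ a ∈ Icc (0 : ℝ) 1, 2 * dd α s s' + κ * (α / 4 - a) ≤
    s ^ (α - 1) / (s' * (1 - a) + s * a) + s' ^ (α - 1) / (s * (1 - a) + s' * a)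

def A5S : Prop := ∀ α v l u : ℝ, 2 < α → α < 4 → v ∈ Icc (0 : ℝ) 1 → v ^ 2 ≤ l → l ≤ 1 →
  u ∈ Icc (0 : ℝ) 1 → ∀ s s' : ℝ, 0 < s → 0 < s' →
  IntegrableOn (fun t => t ^ (α - 1) * (pd v l (zz u s t) * ((s + t) * (s' + t))⁻¹)) (Ioi 0) ∧
    2 * (ga α v l u * dd α s s') ≤
      (∫ t in Ioi (0 : ℝ), t ^ (α - 1) * (pd v l (zz u s t) * ((s + t) * (s' + t))⁻¹)) +
        ∫ t in Ioi (0 : ℝ), t ^ (α - 1) * (pd v l (zz u s' t) * ((s' + t) * (s + t))⁻¹)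

def A6S : Prop := ∀ α u : ℝ, u ∈ Icc (0 : ℝ) 1 →
  (∀ v l : ℝ, v ∈ Icc (0 : ℝ) 1 → v ^ 2 ≤ l → 0 ≤ ga α v l u) ∧
  (Rg α 0 → ga α 0 1 u + rho α 0 < 0) ∧
  (Rg α 1 → 0 < rho α 1 ∧ ∀ v ∈ Icc (0 : ℝ) 1, ga α v (v ^ 2) u ≤ (v - v ^ 2) * rho α 1)

def A7S : Prop := ∀ α : ℝ, 1 < α → α < 2 → 0 < J1 α ∧ (∀ x : ℝ, 0 ≤ x →
  IntegrableOn (fun s => s ^ (α - 2) * gk x s) (Ioi 0) ∧
    ∫ s in Ioi (0 : ℝ), s ^ (α - 2) * gk x s = x ^ α * J1 α) ∧ ∀ d r : ℝ, 0 < r →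
  IntegrableOn (fun s => s ^ (α - 2) * max (d - r * s) 0) (Ioi 0) ∧
    ∫ s in Ioi (0 : ℝ), s ^ (α - 2) * max (d - r * s) 0 =
      r ^ (1 - α) * max d 0 ^ α / (α * (α - 1))

def A8S : Prop := ∀ v l z x : ℝ, v ∈ Icc (0 : ℝ) 1 → v ^ 2 ≤ l → z ∈ Ico (0 : ℝ) 1 →
  x ∈ Ico (0 : ℝ) 1 → ph v l z + pd v l z * (x - z) ≤ ph v l x

end Pool.Agent.MP_560646_mp.One
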