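import Pool.Agent.Mg.F560646.Gf05943
import Pool.Agent.MP_560646_mp.One.Sc

/-! Matrix statements for the one-sided bound at real orders between 1 and 4. -/

set_option autoImplicit false

namespace Pool.Agent.MP_560646_mp.One

open Matrix Kronecker Real Set MeasureTheory
open scoped ComplexOrder MatrixOrder

section
variable {n : Type} [Fintype n] [DecidableEq n]

/-- Trace of a real power. -/
noncomputable def tp (α : ℝ) (X : Matrix n n ℂ) : ℝ := rt (mpow X α)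

/-- Trace of a real power of the positive part. -/
noncomputable def pa (α : ℝ) (X : Matrix n n ℂ) : ℝ := rt (cfc (fun x : ℝ => max x 0 ^ α) X)

noncomputable def th (α : ℝ) (S D : Matrix n n ℂ) (r : ℝ) : ℝ :=
  pa α (D - r • S) + pa α (-D - r • S)

noncomputable def kk (α e : ℝ) : ℝ := (1 + e) ^ α + (1 - e) ^ α

noncomputable def bs (α p : ℝ) : ℝ := p ^ α + (1 - p) ^ α

theorem tp_ud (α : ℝ) (U : unitary (Matrix n n ℂ)) (d : n → ℝ) :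
    tp α (ud U d) = ∑ i, d i ^ α := by rw [tp, mpow_ud, rt_ud]

theorem pa_ud (α : ℝ) (U : unitary (Matrix n n ℂ)) (d : n → ℝ) :
    pa α (ud U d) = ∑ i, max (d i) 0 ^ α := by
  rw [← rt_ud U]
  unfold pa ud
  rw [cfc_unitary_diag]

theorem tp_smul (α : ℝ) {X : Matrix n n ℂ} (hX : X.PosSemidef) {c : ℝ} (hc : 0 ≤ c) :
    tp α (c • X) = c ^ α * tp α X := by rw [tp, mpow_smul hX hc, rt_smul, tp]

theorem th_nonneg (α : ℝ) {S D : Matrix n n ℂ} (hS : S.IsHermitian) (hD : D.IsHermitian) (r : ℝ) :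
    0 ≤ th α S D r := by
  obtain ⟨U, d, h⟩ := herm_ud (hD.sub (herm_smul hS r))
  obtain ⟨V, e, k⟩ := herm_ud (hD.neg.sub (herm_smul hS r))
  rw [th, h, k, pa_ud, pa_ud]
  positivity

theorem pencil_psd {S D : Matrix n n ℂ} (hS : S.PosSemidef) (h₁ : (S + D).PosSemidef)
    (h₂ : (S - D).PosSemidef) {y : ℝ} (hy : y ∈ Icc (0 : ℝ) 1) :
    (S + y • D).PosSemidef ∧ (S - y • D).PosSemidef := by
  constructor
  · convert (hS.smul (sub_nonneg.2 hy.2)).add (h₁.smul hy.1) using 1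
    module
  · convert (hS.smul (sub_nonneg.2 hy.2)).add (h₂.smul hy.1) using 1
    module

end

/-- The bound for a quantum pair followed by a binary symmetric channel, with a sign. -/
def PL (α sg : ℝ) : Prop := ∀ (n : Type) [Fintype n] [DecidableEq n] (S D : Matrix n n ℂ),
  S.PosSemidef → D.IsHermitian → (S + D).PosSemidef → (S - D).PosSemidef → tp α S = 1 →
  ∀ e ∈ Icc (0 : ℝ) 1, ∀ y ∈ Icc (0 : ℝ) 1, tp α (S + D) + tp α (S - D) = kk α e →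
    sg * (tp α (S + y • D) + tp α (S - y • D)) ≤ sg * kk α (e * y)

/-- The bound when the second pair commutes. -/
def CM (α sg : ℝ) : Prop := ∀ (n m : Type) [Fintype n] [DecidableEq n] [Fintype m] [DecidableEq m]
  (P Q : Matrix n n ℂ) (P' Q' : Matrix m m ℂ), P.PosSemidef → Q.PosSemidef → P'.PosSemidef →
  Q'.PosSemidef → tp α (P + Q) = 1 → tp α (P' + Q') = 1 → Commute P' Q' →
  ∀ p ∈ Icc (0 : ℝ) (1 / 2), ∀ q ∈ Icc (0 : ℝ) (1 / 2), tp α P + tp α Q = bs α p →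
    tp α P' + tp α Q' = bs α q →
    sg * (tp α (P ⊗ₖ P' + Q ⊗ₖ Q') + tp α (P ⊗ₖ Q' + Q ⊗ₖ P')) ≤ sg * bs α (bconv p q)

/-- The bound when the dual of the second pair commutes. -/
def DM (α sg : ℝ) : Prop := ∀ (n m : Type) [Fintype n] [DecidableEq n] [Fintype m] [DecidableEq m]
  (P Q : Matrix n n ℂ) (P' Q' : Matrix m m ℂ), P.PosSemidef → Q.PosSemidef → P'.PosSemidef →
  Q'.PosSemidef → tp α (P + Q) = 1 → tp α (P' + Q') = 1 → P' * (P' - Q') * Q' = 0 →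
  ∀ p ∈ Icc (0 : ℝ) (1 / 2), ∀ q ∈ Icc (0 : ℝ) (1 / 2),
    (tp α P + tp α Q) * bs α p = 2 ^ (1 - α) → (tp α P' + tp α Q') * bs α q = 2 ^ (1 - α) →
    sg * (tp α (P ⊗ₖ P' + Q ⊗ₖ Q') + tp α (P ⊗ₖ Q' + Q ⊗ₖ P')) ≤
      sg * ((tp α P + tp α Q) * (tp α P' + tp α Q') / 2 ^ (1 - α) * bs α (bconv p q))

def BS : Prop := ∀ (n : Type) [Fintype n] [DecidableEq n] (V : unitary (Matrix n n ℂ)) (s : n → ℝ)
  (D : Matrix n n ℂ), (∀ i, 0 ≤ s i) → D.IsHermitian → (ud V s + D).PosSemidef →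
  (ud V s - D).PosSemidef → ∀ y ∈ Icc (0 : ℝ) 1, ∀ l : ℝ, (y ^ 2) ^ 2 ≤ l → ∀ t : ℝ, 0 < t →
  ∀ z : n → ℝ, (∀ i, z i ∈ Ico (0 : ℝ) 1) →
    ∑ i, (ph (y ^ 2) l (z i) - z i * pd (y ^ 2) l (z i)) +
        ∑ i, ∑ j, ov V V D i j * (pd (y ^ 2) l (z i) * ((s i + t) * (s j + t))⁻¹) ≤
      ld (ud V s + y • D + t • 1) + ld (ud V s - y • D + t • 1) - 2 * ld (ud V s + t • 1) -
        l * (ld (ud V s + D + t • 1) + ld (ud V s - D + t • 1) - 2 * ld (ud V s + t • 1)) +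
        (y ^ 2 - l) * ∑ i, ∑ j, ov V V D i j * ((s i + t) * (s j + t))⁻¹

def CS : Prop := ∀ (n : Type) [Fintype n] [DecidableEq n] (V : unitary (Matrix n n ℂ)) (s : n → ℝ)
  (D : Matrix n n ℂ), D.IsHermitian →
  (∀ (U W : unitary (Matrix n n ℂ)) (p q : n → ℝ) (y : ℝ), ud V s + y • D = ud U p →
    ud V s - y • D = ud W q → ∑ i, p i + ∑ i, q i = 2 * ∑ i, s i ∧
      ∑ i, p i ^ 2 + ∑ i, q i ^ 2 = 2 * ∑ i, s i ^ 2 + 2 * y ^ 2 * ∑ i, ∑ j, ov V V D i j ∧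
      ∑ i, p i ^ 3 + ∑ i, q i ^ 3 =
        2 * ∑ i, s i ^ 3 + 3 * y ^ 2 * ∑ i, ∑ j, ov V V D i j * (s i + s j)) ∧
  ((ud V s + D).PosSemidef → (ud V s - D).PosSemidef → ∀ i j, s i = 0 → ov V V D i j = 0)

def D1S : Prop := ∀ α : ℝ, 1 < α → ∀ (n : Type) [Fintype n] [DecidableEq n] (S D : Matrix n n ℂ),
  S.PosSemidef → D.IsHermitian → tp α S = 1 → ∀ r r' : ℝ, 0 ≤ r → r ≤ r' →
    th α S D r ^ α⁻¹ + r ≤ th α S D r' ^ α⁻¹ + r'

def D2S : Prop := ∀ α : ℝ, 1 < α → α < 2 → ∀ (n : Type) [Fintype n] [DecidableEq n]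
  (S D : Matrix n n ℂ), S.PosSemidef → D.IsHermitian → (S + D).PosSemidef → (S - D).PosSemidef →
  ∀ y ∈ Icc (0 : ℝ) 1, IntegrableOn (fun r => wt y r * (r ^ (1 - α) * th α S D r)) (Ioo 0 1) ∧
    J1 α * (tp α (S + y • D) + tp α (S - y • D) - 2 * tp α S) =
      2 / (α * (α - 1)) * ∫ r in Ioo (0 : ℝ) 1, wt y r * (r ^ (1 - α) * th α S D r)

def ES : Prop := ∀ α sg : ℝ, 1 < α → PL α sg → CM α sg

def FS : Prop := ∀ α sg : ℝ, 1 < α → CM α sg → DM α sg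

def F2S : Prop := ∀ (α : ℝ) (n : Type) [Fintype n] [DecidableEq n] (Z W : Matrix n n ℂ),
  Z.PosSemidef → W.PosSemidef →
  (Commute Z W → Commute (swr α (Z + W) Z) (swr α (Z + W) W)) ∧
  ∀ c : ℝ, Z * Z = c • Z → W * W = c • W →
    swr α (Z + W) Z * (swr α (Z + W) Z - swr α (Z + W) W) * swr α (Z + W) W = 0

def GS : Prop := ∀ sg : ℝ, PL 2 sg ∧ PL 3 sg

end Pool.Agent.MP_560646_mp.One
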